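import Pool.Agent.Helper26.SQ2.RepG

/-!
A hole whose rest is a narrow column with many colours.
-/

set_option autoImplicit false

namespace Pool.Agent.Helper26.SQ2

open Pool.Agent.Helper3.DW Pool.Agent.Helper26.SQ
open Pool.Agent.Helper18.SQ (TopR VG fg_of_vg)

/-- The set `N` is divided into a downset `L`, an upset `H` with `L < H`, and a rest `K` of width at
most `j` with at least `a` colours. -/
def ColB (j a : ℕ) (P : Ps) (N : Finset ℕ) : Prop :=
  ∃ L K H : Finset ℕ, (∀ y, y ∈ N ↔ y ∈ L ∨ y ∈ K ∨ y ∈ H) ∧ (∀ y ∈ K, y ∉ L ∧ y ∉ H) ∧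
    (∀ y ∈ L, ∀ z ∈ N, plt P z y → z ∈ L) ∧ (∀ y ∈ H, ∀ z ∈ N, plt P y z → z ∈ H) ∧
    (∀ y ∈ L, ∀ z ∈ H, plt P y z) ∧ Wd P K j ∧ a ≤ (colU P K).card

/-- A property of the blocks which is stable under extensions. -/
structure Cls2 (B : Ps → Finset ℕ → Prop) : Prop where
  old : ∀ (P P' : Ps) (N : Finset ℕ), B P N → P <:+ P' → (∀ y ∈ N, y < P.length) → B P' N
  new : ∀ (P N : Ps) (D U Y : Finset ℕ), B N Y →
    (∀ x y, plt P x y → x < P.length ∧ y < P.length) → (∀ d ∈ D, d < P.length) →
    (∀ d ∈ U, d < P.length) → B (glue P D U N) (sh P.length Y)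
  whole : ∀ (w : ℕ) (P : Ps) (N : Finset ℕ), Good w P → B P N → (∀ y ∈ N, y < P.length) →
    (∀ x < P.length, x ∉ N → ∀ y ∈ N, plt P x y) → B P (Finset.range P.length)

theorem colB_cls (j a : ℕ) : Cls2 (ColB j a) where
  old P P' N h hs hl := by
    obtain ⟨L, K, H, h1, h2, h3, h4, h5, h6, h7⟩ := h
    have eL : ∀ y ∈ L, y < P.length := fun y hy => hl y ((h1 y).2 (Or.inl hy))
    have eK : ∀ y ∈ K, y < P.length := fun y hy => hl y ((h1 y).2 (Or.inr (Or.inl hy)))
    have eH : ∀ y ∈ H, y < P.length := fun y hy => hl y ((h1 y).2 (Or.inr (Or.inr hy)))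
    refine ⟨L, K, H, h1, h2, ?_, ?_, ?_, h6.old hs eK, ?_⟩
    · intro y hy z hz hlt
      exact h3 y hy z hz ((plt_suffix hs (hl z hz) (eL y hy)).1 hlt)
    · intro y hy z hz hlt
      exact h4 y hy z hz ((plt_suffix hs (eH y hy) (hl z hz)).1 hlt)
    · intro y hy z hz
      exact (plt_suffix hs (eL y hy) (eH z hz)).2 (h5 y hy z hz)
    · rw [colU_suffix hs eK]
      exact h7
  new P N D U Y h hP hD hU := by
    obtain ⟨L, K, H, h1, h2, h3, h4, h5, h6, h7⟩ := h
    have key : ∀ i i', plt (glue P D U N) (P.length + i) (P.length + i') → plt N i i' := by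
      intro i i' hlt
      rcases (plt_glue _ _ _ _ _ _).1 hlt with h8 | ⟨a, b, h8, h9, h10⟩ | ⟨h8, _⟩ | ⟨h8, _⟩
      · have := (hP _ _ h8).1; omega
      · have e1 : a = i := by omega
        have e2 : b = i' := by omega
        subst e1 e2
        exact h10
      · have := hD _ h8; omega
      · have := hU _ h8; omega
    refine ⟨sh P.length L, sh P.length K, sh P.length H, ?_, ?_, ?_, ?_, ?_, Wd.new h6, ?_⟩
    · intro y
      constructor
      · intro hy
        obtain ⟨i, hi, rfl⟩ := mem_sh.1 hy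
        rw [add_mem_sh, add_mem_sh, add_mem_sh]
        exact (h1 i).1 hi
      · rintro (hy | hy | hy)
        · obtain ⟨i, hi, rfl⟩ := mem_sh.1 hy
          exact add_mem_sh.2 ((h1 i).2 (Or.inl hi))
        · obtain ⟨i, hi, rfl⟩ := mem_sh.1 hy
          exact add_mem_sh.2 ((h1 i).2 (Or.inr (Or.inl hi)))
        · obtain ⟨i, hi, rfl⟩ := mem_sh.1 hy
          exact add_mem_sh.2 ((h1 i).2 (Or.inr (Or.inr hi)))
    · intro y hy
      obtain ⟨i, hi, rfl⟩ := mem_sh.1 hy
      rw [add_mem_sh, add_mem_sh]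
      exact h2 i hi
    · intro y hy z hz hlt
      obtain ⟨i, hi, rfl⟩ := mem_sh.1 hy
      obtain ⟨i', hi', rfl⟩ := mem_sh.1 hz
      exact add_mem_sh.2 (h3 i hi i' hi' (key _ _ hlt))
    · intro y hy z hz hlt
      obtain ⟨i, hi, rfl⟩ := mem_sh.1 hy
      obtain ⟨i', hi', rfl⟩ := mem_sh.1 hz
      exact add_mem_sh.2 (h4 i hi i' hi' (key _ _ hlt))
    · intro y hy z hz
      obtain ⟨i, hi, rfl⟩ := mem_sh.1 hy
      obtain ⟨i', hi', rfl⟩ := mem_sh.1 hz
      exact (plt_glue _ _ _ _ _ _).2 (Or.inr (Or.inl ⟨i, i', rfl, rfl, h5 i hi i' hi'⟩))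
    · rw [colU_sh_glue]
      exact h7
  whole w P N hg h hl hb := by
    obtain ⟨L, K, H, h1, h2, h3, h4, h5, h6, h7⟩ := h
    have eL : ∀ y ∈ L, y ∈ N := fun y hy => (h1 y).2 (Or.inl hy)
    have eK : ∀ y ∈ K, y ∈ N := fun y hy => (h1 y).2 (Or.inr (Or.inl hy))
    have eH : ∀ y ∈ H, y ∈ N := fun y hy => (h1 y).2 (Or.inr (Or.inr hy))
    refine ⟨L ∪ (Finset.range P.length \ N), K, H, ?_, ?_, ?_, ?_, ?_, h6, h7⟩
    · intro y
      rw [Finset.mem_range, Finset.mem_union, Finset.mem_sdiff, Finset.mem_range]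
      constructor
      · intro hy
        by_cases hyN : y ∈ N
        · rcases (h1 y).1 hyN with h8 | h8 | h8
          · exact Or.inl (Or.inl h8)
          · exact Or.inr (Or.inl h8)
          · exact Or.inr (Or.inr h8)
        · exact Or.inl (Or.inr ⟨hy, hyN⟩)
      · rintro ((hy | hy) | hy | hy)
        · exact hl y (eL y hy)
        · exact hy.1
        · exact hl y (eK y hy)
        · exact hl y (eH y hy)
    · intro y hy
      refine ⟨?_, (h2 y hy).2⟩
      rw [Finset.mem_union, Finset.mem_sdiff]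
      rintro (h8 | h8)
      · exact (h2 y hy).1 h8
      · exact h8.2 (eK y hy)
    · intro y hy z hz hlt
      rw [Finset.mem_union, Finset.mem_sdiff] at hy ⊢
      by_cases hzN : z ∈ N
      · rcases hy with hy | hy
        · exact Or.inl (h3 y hy z hzN hlt)
        · exact absurd (hg.trans _ _ _ hlt (hb y (Finset.mem_range.1 hy.1) hy.2 z hzN)) (hg.irr z)
      · exact Or.inr ⟨hz, hzN⟩
    · intro y hy z hz hlt
      by_cases hzN : z ∈ N
      · exact h4 y hy z hzN hlt
      · exact absurd (hg.trans _ _ _ hlt (hb z (Finset.mem_range.1 hz) hzN y (eH y hy)))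
          (hg.irr y)
    · intro y hy z hz
      rw [Finset.mem_union, Finset.mem_sdiff] at hy
      rcases hy with hy | hy
      · exact h5 y hy z hz
      · exact hb y (Finset.mem_range.1 hy.1) hy.2 z (eH z hz)

/-- The column read off from a description by blocks. -/
theorem colB_of {P : Ps} {q j a : ℕ} {F C : ℕ → Finset ℕ} {R S : ℕ → ℕ → Bool}
    (h : Sys P q F C R S) (D U : ℕ → Bool)
    (c1 : ∀ a < q, ∀ b < q, D b = true → D a = false → S a b = true)
    (c2 : ∀ a < q, ∀ b < q, U a = true → U b = false → S a b = true)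
    (c3 : ∀ a < q, ∀ b < q, D a = true → U b = true → R a b = true)
    (hN : Wd P (un q F (fun a => !D a && !U a)) j)
    (ha : a ≤ (un q C (fun a => !D a && !U a)).card) : ColB j a P (Finset.range P.length) := by
  refine ⟨un q F D, un q F (fun a => !D a && !U a), un q F U, ?_, ?_, ?_, ?_, ?_, hN, ?_⟩
  · intro y
    rw [Finset.mem_range]
    constructor
    · intro hy
      obtain ⟨a, ha, hya⟩ := (h.cov y).1 hy
      rw [h.mem_un_iff ha hya, h.mem_un_iff ha hya, h.mem_un_iff ha hya]
      cases D a <;> cases U a <;> simp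
    · rintro (hy | hy | hy)
      · exact h.un_len y hy
      · exact h.un_len y hy
      · exact h.un_len y hy
  · intro y hy
    obtain ⟨a, ha, -, hya⟩ := mem_un.1 hy
    rw [h.mem_un_iff ha hya] at hy
    rw [h.mem_un_iff ha hya, h.mem_un_iff ha hya]
    simpa using hy
  · intro y hy z hz hlt
    obtain ⟨b, hb, hDb, hyb⟩ := mem_un.1 hy
    obtain ⟨a, ha, hza⟩ := (h.cov z).1 (Finset.mem_range.1 hz)
    rw [h.mem_un_iff ha hza]
    by_contra hc
    rw [Bool.not_eq_true] at hc
    exact h.nb a ha b hb (c1 a ha b hb hDb hc) z hza y hyb hlt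
  · intro y hy z hz hlt
    obtain ⟨b, hb, hUb, hyb⟩ := mem_un.1 hy
    obtain ⟨a, ha, hza⟩ := (h.cov z).1 (Finset.mem_range.1 hz)
    rw [h.mem_un_iff ha hza]
    by_contra hc
    rw [Bool.not_eq_true] at hc
    exact h.nb b hb a ha (c2 b hb a ha hUb hc) y hyb z hza hlt
  · intro y hy z hz
    obtain ⟨a, ha, hDa, hya⟩ := mem_un.1 hy
    obtain ⟨b, hb, hUb, hzb⟩ := mem_un.1 hz
    exact h.lt a ha b hb (c3 a ha b hb hDa hUb) y hya z hzb
  · rw [h.colU_un]
    exact ha

/-- A position with an upper region, described by two blocks. -/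
theorem blk_two {j x : ℕ} {P : Ps} (h : Blk j 0 x P (Finset.range P.length)) :
    ∃ F C : ℕ → Finset ℕ, Sys P 2 F C (fun _ _ => false) (fun a b => a == 1 && b == 0) ∧
      Wd P (F 1) j ∧ x ≤ (C 1).card := by
  obtain ⟨X, hX1, hX2, hX3, -, hX5⟩ := h
  refine ⟨fun a => if a = 0 then Finset.range P.length \ X else X,
    fun a => if a = 0 then colU P (Finset.range P.length \ X) else colU P X, ?_, by simpa using hX3,
    by simpa using hX5⟩
  constructor
  · intro y
    constructor
    · intro hy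
      by_cases hyX : y ∈ X
      · exact ⟨1, by omega, by simpa using hyX⟩
      · exact ⟨0, by omega, by simpa using ⟨hy, hyX⟩⟩
    · rintro ⟨a, ha, hy⟩
      by_cases ha0 : a = 0
      · rw [if_pos ha0] at hy
        exact Finset.mem_range.1 (Finset.mem_sdiff.1 hy).1
      · rw [if_neg ha0] at hy
        exact Finset.mem_range.1 (hX1 hy)
  · intro a ha b hb y hya hyb
    by_cases ha0 : a = 0
    · rw [if_pos ha0] at hya
      by_cases hb0 : b = 0
      · omega
      · rw [if_neg hb0] at hyb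
        exact absurd hyb (Finset.mem_sdiff.1 hya).2
    · rw [if_neg ha0] at hya
      by_cases hb0 : b = 0
      · rw [if_pos hb0] at hyb
        exact absurd hya (Finset.mem_sdiff.1 hyb).2
      · omega
  · intro a ha
    by_cases ha0 : a = 0
    · simp only [if_pos ha0]
    · simp only [if_neg ha0]
  · intro a ha b hb hab
    simp at hab
  · intro a ha b hb hab y hy z hz hlt
    simp only [Bool.and_eq_true, beq_iff_eq] at hab
    rw [if_neg (by omega)] at hy
    rw [if_pos hab.2] at hz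
    rw [Finset.mem_sdiff] at hz
    exact hz.2 (hX2 y hy z hz.1 hlt)

open V4

/-- A column with `2 v + g` colours. -/
theorem col_force {k m v g : ℕ} (hv : FG k m v)
    (hT : ∀ M : ℕ, Force (2 * k) m (TopR k g M) []) :
    Force (2 * k) m (fun P => ColB k (2 * v + g) P (Finset.range P.length)) [] := by
  by_contra hn
  set Q : Ps → Prop := fun P => ColB k (2 * v + g) P (Finset.range P.length) with hQ
  set p : ℕ → Prop := fun x => ∃ P, Safe (2 * k) m Q P ∧ ∃ F C : ℕ → Finset ℕ,
    Sys P 3 F C R0 S0 ∧ Wd P (F 1) k ∧ x ≤ (C 1).card with hp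
  have p0 : p 0 := by
    refine ⟨[], ⟨inv_nil _ _, hn⟩, fun _ => ∅, fun _ => ∅, ⟨?_, ?_, ?_, ?_, ?_⟩, wd_empty _ _,
      Nat.zero_le _⟩
    · intro x; simp
    · intro a _ b _ x hx; simp at hx
    · intro a _; simp [colU]
    · intro a _ b _ _ x hx; simp at hx
    · intro a _ b _ _ x hx; simp at hx
  obtain ⟨x, hx, hx'⟩ : ∃ x, p x ∧ ¬ p (x + 1) := by
    by_contra hc
    push Not at hc
    have : ∀ x, p x := fun x => Nat.rec p0 (fun y hy => hc y hy) x
    obtain ⟨P, hP, F, C, hS, hW, h2⟩ := this (2 * v + g)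
    refine hP.not (colB_of hS (fun a => a == 0) (fun a => a == 2) (by decide) (by decide)
      (by decide) ?_ ?_)
    · exact hS.wdA (K := fun a => a == 1) (by
        intro a _ h
        simp only [beq_iff_eq] at h
        rw [h]
        exact hW) _ (by decide) (by decide)
    · exact h2.trans (Finset.card_le_card fun c hc => mem_un.2 ⟨1, by omega, by decide, hc⟩)
  obtain ⟨P, hP, F, C, hS, hW, hxC⟩ := hx
  have hxC' : (C 1).card ≤ x := by
    by_contra hc
    exact hx' ⟨P, hP, F, C, hS, hW, by omega⟩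
  have hK0 : ∀ a < 3, K0 a = true → Wd P (F a) k := by
    intro a _ ha
    simp only [K0, beq_iff_eq] at ha
    rw [ha]; exact hW
  -- the top structure
  have hh1 : IsHole (2 * k) (2 * k) P (un 3 F D1) (un 3 F U1) :=
    hS.hole D1 U1 (by decide) (by decide) (by decide)
      (by rw [un_none (by decide)]; exact wd_empty _ 0) (by omega) hP.inv.good.lt_len
  obtain ⟨Qt, hQt, hQtI, hP1⟩ := hP.ins hh1 (hT (2 * v + g))
  rcases hQt with hQt | hQt
  swap
  · obtain ⟨Fr, Cr, hSr, hWr, hcr⟩ := blk_two hQt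
    have hSg := hS.glu hSr D1 U1 hP.inv.good.lt_len hQtI.good.lt_len
    refine hP1.not (colB_of hSg (fun a => a == 0 || a == 1 || a == 3) (fun a => a == 2)
      (by decide) (by decide) (by decide) ?_ ?_)
    · refine (Wd.new (P := P) (D := un 3 F D1) (U := un 3 F U1) hWr).mono ?_ le_rfl
      intro y hy
      obtain ⟨a, ha, hAa, hya⟩ := mem_un.1 hy
      have : a = 4 := by
        simp only [Bool.and_eq_true, Bool.not_eq_true', Bool.or_eq_false_iff,
          beq_eq_false_iff_ne] at hAa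
        omega
      subst this
      exact hya
    · exact hcr.trans (Finset.card_le_card fun c hc => mem_un.2 ⟨4, by omega, by decide, hc⟩)
  obtain ⟨Ft, Ct, hSt, hW0, hW1, hCt, hgt⟩ := hQt
  have hS1 : Sys _ 5 _ _ R1 S1 := hS.glu (S2 := T1) hSt D1 U1 hP.inv.good.lt_len hQtI.good.lt_len
  have hK1 := hS.wdK (Q := Qt) (q2 := 2) (F2 := Ft) (K2 := tt) (D := un 3 F D1) (U := un 3 F U1)
    hK0 (by
      intro a ha _
      obtain rfl | rfl : a = 0 ∨ a = 1 := by omega
      · exact hW0
      · exact hW1)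
  set P1 := glue P (un 3 F D1) (un 3 F U1) Qt with hP1d
  set F1 := catF 3 P.length F Ft
  -- the block `B`
  have hN2 : Wd P1 (un 5 F1 (fun a => !D2 a && !U2 a)) k :=
    hS1.wdA hK1 _ (by decide) (by decide)
  have hh2 : IsHole (2 * k) k P1 (un 5 F1 D2) (un 5 F1 U2) :=
    hS1.hole D2 U2 (by decide) (by decide) (by decide) hN2 (by omega) hP1.inv.good.lt_len
  obtain ⟨QB, hQB, hQBI, hP2⟩ := hP1.ins hh2 hv
  have hS2 : Sys _ 6 _ _ R2 S2 := hS1.glu (sys_one' QB) D2 U2 hP1.inv.good.lt_len
    hQBI.good.lt_len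
  have hK2 := hS1.wdK (Q := QB) (q2 := 1) (F2 := fun _ => Finset.range QB.length) (K2 := tt)
    (D := un 5 F1 D2) (U := un 5 F1 U2) hK1 (fun _ _ _ => wd_range hQBI.good)
  set P2 := glue P1 (un 5 F1 D2) (un 5 F1 U2) QB with hP2d
  set F2 := catF 5 P1.length F1 (fun _ => Finset.range QB.length)
  -- the column
  have hcol : (C 1 ∪ cols QB).card < 2 * v + g := by
    by_contra hc
    rw [not_lt] at hc
    refine hP2.not (colB_of hS2 D3 U3 (by decide) (by decide) (by decide)
      (hS2.wdA hK2 _ (by decide) (by decide)) (hc.trans (Finset.card_le_card ?_)))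
    intro c hc
    rcases Finset.mem_union.1 hc with hc | hc
    · exact mem_un.2 ⟨1, by omega, by decide, by simpa [catC] using hc⟩
    · exact mem_un.2 ⟨5, by omega, by decide, by simpa [catC] using hc⟩
  -- the block `E`
  have hN4 : Wd P2 (un 6 F2 (fun a => !D3 a && !U4 a)) k :=
    hS2.wdA hK2 _ (by decide) (by decide)
  have hh4 : IsHole (2 * k) k P2 (un 6 F2 D3) (un 6 F2 U4) :=
    hS2.hole D3 U4 (by decide) (by decide) (by decide) hN4 (by omega) hP2.inv.good.lt_len
  obtain ⟨QE, hQE, hQEI, hP4⟩ := hP2.ins hh4 hv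
  have hS4 : Sys _ 7 _ _ R4 S4 := hS2.glu (sys_one' QE) D3 U4 hP2.inv.good.lt_len
    hQEI.good.lt_len
  have hK4 := hS2.wdK (Q := QE) (q2 := 1) (F2 := fun _ => Finset.range QE.length) (K2 := tt)
    (D := un 6 F2 D3) (U := un 6 F2 U4) hK2 (fun _ _ _ => wd_range hQEI.good)
  have e1 := hS4.disj hP4.inv (a := 5) (b := 3) (by omega) (by omega) (by omega) (by decide)
    (by decide)
  have e2 := hS4.disj hP4.inv (a := 6) (b := 3) (by omega) (by omega) (by omega) (by decide)
    (by decide)
  have e3 := hS4.disj hP4.inv (a := 6) (b := 1) (by omega) (by omega) (by omega) (by decide)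
    (by decide)
  have hS5 := hS4.coarse (R' := R0) (S' := S0) (q' := 3) g4 (by decide) (by decide) (by decide)
  have hW5 := hS4.wdA hK4 (fun a => g4 a == 1) (by decide) (by decide)
  have hx5 : (un 7 (catC 6 (catC 5 (catC 3 C Ct) (fun _ => cols QB)) (fun _ => cols QE))
      (fun a => g4 a == 1)).card ≤ x := by
    by_contra hc
    exact hx' ⟨_, hP4, _, _, hS5, hW5, by omega⟩
  have hsub : Ct 1 ∪ (cols QB ∪ cols QE) ⊆ un 7 (catC 6 (catC 5 (catC 3 C Ct)
      (fun _ => cols QB)) (fun _ => cols QE)) (fun a => g4 a == 1) := by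
    intro c hc
    rw [mem_un]
    rcases Finset.mem_union.1 hc with hc | hc
    · exact ⟨4, by omega, by decide, by simpa [catC] using hc⟩
    · rcases Finset.mem_union.1 hc with hc | hc
      · exact ⟨5, by omega, by decide, by simpa [catC] using hc⟩
      · exact ⟨6, by omega, by decide, by simpa [catC] using hc⟩
  have t1 := Finset.card_le_card hsub
  simp only [catC] at e1 e2 e3
  norm_num at e1 e2 e3
  have u2 : (C 1 ∪ cols QB).card = (C 1).card + (cols QB \ C 1).card := by
    rw [← Finset.union_sdiff_self_eq_union, Finset.card_union_of_disjoint Finset.disjoint_sdiff]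
  have u3 : (cols QB ∩ C 1).card + (cols QB \ C 1).card = (cols QB).card :=
    Finset.card_inter_add_card_sdiff _ _
  have u4 : (Ct 1 ∪ (cols QB ∪ cols QE)).card = (Ct 1).card + (cols QB ∪ cols QE).card := by
    refine Finset.card_union_of_disjoint ?_
    rw [Finset.disjoint_union_right]
    exact ⟨(e1.mono_right hCt).symm, (e2.mono_right hCt).symm⟩
  have u5 : (cols QE ∪ (cols QB ∩ C 1)).card ≤ (cols QB ∪ cols QE).card := by
    refine Finset.card_le_card ?_
    refine Finset.union_subset Finset.subset_union_right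
      (Finset.inter_subset_left.trans Finset.subset_union_left)
  rw [Finset.card_union_of_disjoint (e3.mono_right Finset.inter_subset_right)] at u5
  have hQB' : v ≤ (cols QB).card := hQB
  have hQE' : v ≤ (cols QE).card := hQE
  omega

end Pool.Agent.Helper26.SQ2
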