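import Pool.Agent.Helper26.SQ2.RepM

/-!
A column of width `a` in the width `a + b` from several parallel copies of the same set of colours.
-/

set_option autoImplicit false

namespace Pool.Agent.Helper26.SQ2

open Pool.Agent.Helper3.DW Pool.Agent.Helper26.SQ
open Pool.Agent.Helper18.SQ (TopR VG fg_of_vg)

/-- The set of the blocks consists of one block. -/
theorem un_one {q i : ℕ} {C : ℕ → Finset ℕ} {A : ℕ → Bool} (hi : i < q)
    (hA : ∀ a < q, (A a == (a == i)) = true) : un q C A = C i := by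
  ext x
  rw [mem_un]
  constructor
  · rintro ⟨a, ha, hAa, hx⟩
    have h1 := hA a ha
    rw [hAa] at h1
    have h2 : a = i := by simpa using h1
    rwa [← h2]
  · intro hx
    have h1 := hA i hi
    exact ⟨i, hi, by simpa using h1, hx⟩

theorem wdEq {P : Ps} {q i k : ℕ} {F : ℕ → Finset ℕ} (h : Wd P (F i) k) :
    Wd P (un q F (fun a => a == i)) k := by
  refine h.mono ?_ le_rfl
  intro x hx
  obtain ⟨a, _, hAa, hxa⟩ := mem_un.1 hx
  simp only [beq_iff_eq] at hAa
  rwa [← hAa]

namespace G10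

def Rc (a b : ℕ) : Bool := decide (a < 2) && decide (2 ≤ b)
def Sc (a b : ℕ) : Bool := decide (b < a)
def Tt (a b : ℕ) : Bool := a == 1 && b == 0
def D1 (a : ℕ) : Bool := a == 0 || a == 1
def U1 (a : ℕ) : Bool := a == 3
/-- After the top structure: `4`, `5`. -/
def R1 : ℕ → ℕ → Bool := catR 4 Rc ff D1 U1
def S1 : ℕ → ℕ → Bool := catS 4 Sc Tt D1 U1
def D2 (a : ℕ) : Bool := a == 0 || a == 1 || a == 4
def U2 (a : ℕ) : Bool := a == 3
/-- After the block: `6`. -/
def R2 : ℕ → ℕ → Bool := catR 6 R1 ff D2 U2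
def S2 : ℕ → ℕ → Bool := catS 6 S1 ff D2 U2
def g2 (a : ℕ) : ℕ := if a = 4 then 2 else if a = 6 then 2 else if a = 5 then 3 else a
/-- The first region: `2` below `1` and beside `0`. -/
def Di (_ : ℕ) : Bool := false
def Ui (a : ℕ) : Bool := a == 1
def Ri : ℕ → ℕ → Bool := catR 2 ff ff Di Ui
def Si : ℕ → ℕ → Bool := catS 2 Tt ff Di Ui
def gi (a : ℕ) : ℕ := if a = 0 then 0 else 1

end G10

/-- The positions with `k` parallel copies. -/
def CSt (w m a K : ℕ) (Q : Ps → Prop) (x k S : ℕ) : Prop :=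
  ∃ (P : Ps) (F C : ℕ → Finset ℕ), Safe w m Q P ∧ Sys P 4 F C G10.Rc G10.Sc ∧ Wd P (F 1) a ∧
    Wd P (F 2) (k * a) ∧ x ≤ (C 1).card ∧
    S + k * (C 1).card + k ≤ (C 2 ∩ C 1).card + k * K

theorem blk_many {k M : ℕ} {P : Ps} (h : Blk k 0 M P (Finset.range P.length)) :
    M ≤ (cols P).card := by
  obtain ⟨C, g1, _, _, _, g5⟩ := h
  exact g5.trans (Finset.card_le_card (colU_mono g1))

theorem cst_zero {w m a b K M g v : ℕ} {Q : Ps → Prop} (hP0 : Safe w m Q [])
    (hQ : Q = fun P => ColB a K P (Finset.range P.length) ∨ M ≤ (cols P).card)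
    (hv : FG a m v) (hT : TG a b m g) (hw : b + a ≤ w) : CSt w m a K Q (g + v) 0 0 := by
  obtain ⟨P1, hP1a, hP1b, hP1⟩ := first hP0 (by omega) (hT M)
  rcases hP1a with hP1a | hP1a
  swap
  · refine absurd ?_ hP1.not
    rw [hQ]
    exact Or.inr (blk_many hP1a)
  obtain ⟨F, C, hS, w0, w1, c1, hg⟩ := hP1a
  have u0 : Wd P1 (un 2 F (fun a => a == 0)) b := wdEq w0
  have u1 : Wd P1 (un 2 F (fun a => a == 1)) a := wdEq w1
  have hh : IsHole w a P1 (un 2 F G10.Di) (un 2 F G10.Ui) :=
    hS.hole G10.Di G10.Ui (by decide) (by decide) (by decide) (i := b)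
      (wdSub u0 (by decide)) hw hP1.inv.good.lt_len
  obtain ⟨N, hN, hNI, hP2⟩ := hP1.ins hh hv
  have hS2 : Sys _ 3 _ _ G10.Ri G10.Si := hS.glu (sys_one' N) G10.Di G10.Ui
    hP1.inv.good.lt_len hNI.good.lt_len
  have x1 := wdOld (N := N) (D := un 2 F G10.Di) (U := un 2 F G10.Ui) (q2 := 1)
    (F2 := fun _ => Finset.range N.length) hS u1 (by decide)
  have x2 := wdOne (P := P1) (N := N) (q := 2) (F := F) (D := un 2 F G10.Di)
    (U := un 2 F G10.Ui) (F2 := fun _ => Finset.range N.length) (q2 := 1) 0 (wd_range hNI.good)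
  have d1 := hS2.disj hP2.inv (a := 0) (b := 2) (by omega) (by omega) (by omega) (by decide)
    (by decide)
  replace d1 : Disjoint (C 0) (cols N) := d1
  have hS3 := hS2.coarse (R' := G10.Rc) (S' := G10.Sc) (q' := 4) G10.gi (by decide) (by decide)
    (by decide)
  refine ⟨_, _, _, hP2, hS3, ?_, ?_, ?_, ?_⟩
  · exact wd3 hS2 x2 x1 (by decide) (by decide)
  · rw [Nat.zero_mul, un_none (by decide)]
    exact wd_empty _ _
  · have e := Finset.card_union_of_disjoint (d1.mono_left c1)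
    have e2 : C 1 ∪ cols N ⊆ un 3 (catC 2 C (fun _ => cols N)) (fun a => G10.gi a == 1) := by
      intro c hc
      rcases Finset.mem_union.1 hc with hc | hc
      · exact mem_un.2 ⟨1, by omega, by decide, hc⟩
      · exact mem_un.2 ⟨2, by omega, by decide, hc⟩
    have e3 := Finset.card_le_card e2
    have hN' : v ≤ (cols N).card := hN
    omega
  · omega

theorem cst_succ {w m a b K M g v x k S : ℕ} {Q : Ps → Prop}
    (hQ : Q = fun P => ColB a K P (Finset.range P.length) ∨ M ≤ (cols P).card)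
    (hv : FG a m v) (hT : TG b a m g) (hw : k * a + (b + a) ≤ w)
    (h : CSt w m a K Q x k S) : CSt w m a K Q x (k + 1) (S + (g + v)) := by
  obtain ⟨P, F, C, hP, hS, w1, w2, hx, hc⟩ := h
  have hQB : ∀ P, Blk w 0 M P (Finset.range P.length) → Q P := by
    intro P hP
    rw [hQ]
    exact Or.inr (blk_many hP)
  have u1 : Wd P (un 4 F (fun a => a == 1)) a := wdEq w1
  have u2 : Wd P (un 4 F (fun a => a == 2)) (k * a) := wdEq w2
  have hT' : Force (b + a) m (fun N => TopA b a g N ∨ Blk w 0 M N (Finset.range N.length)) [] :=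
    (hT M).imp fun N hN => hN.imp id fun h => Blk.wide h (by omega)
  obtain ⟨N1, hN1, hN1I, hP1⟩ := ins_alt hP hQB hS G10.D1 G10.U1 (by decide) (by decide)
    (by decide) (i := k * a) (wdSub u2 (by decide)) hw
    ((wd_range hP.inv.good).mono (fun y hy => Finset.mem_range.2 (hS.un_len y hy)) le_rfl) hT'
  obtain ⟨Fa, Ca, hSa, hWa0, hWa1, hCa, hga⟩ := hN1
  have hS1 : Sys _ 6 _ _ G10.R1 G10.S1 := hS.glu (S2 := G10.Tt) hSa G10.D1 G10.U1
    hP.inv.good.lt_len hN1I.good.lt_len
  have y1 := wdOld (N := N1) (D := un 4 F G10.D1) (U := un 4 F G10.U1) (q2 := 2) (F2 := Fa)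
    hS u1 (by decide)
  have y2 := wdOld (N := N1) (D := un 4 F G10.D1) (U := un 4 F G10.U1) (q2 := 2) (F2 := Fa)
    hS u2 (by decide)
  have y4 := wdOne (P := P) (N := N1) (q := 4) (F := F) (D := un 4 F G10.D1)
    (U := un 4 F G10.U1) (F2 := Fa) (q2 := 2) 0 hWa0
  have y5 := wdOne (P := P) (N := N1) (q := 4) (F := F) (D := un 4 F G10.D1)
    (U := un 4 F G10.U1) (F2 := Fa) (q2 := 2) 1 hWa1
  obtain ⟨P1, hP1d⟩ : ∃ P1, P1 = glue P (un 4 F G10.D1) (un 4 F G10.U1) N1 := ⟨_, rfl⟩
  obtain ⟨F1, hF1d⟩ : ∃ F1, F1 = catF 4 P.length F Fa := ⟨_, rfl⟩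
  rw [← hP1d] at hP1 hS1 y1 y2 y4 y5
  rw [← hF1d] at hS1 y1 y2 y4 y5
  have hh2 : IsHole w a P1 (un 6 F1 G10.D2) (un 6 F1 G10.U2) :=
    hS1.hole G10.D2 G10.U2 (by decide) (by decide) (by decide) (i := k * a + b)
      (wdP y2 y5 (by decide) le_rfl) (by omega) hP1.inv.good.lt_len
  obtain ⟨N2, hN2, hN2I, hP2⟩ := hP1.ins hh2 hv
  have hS2 : Sys _ 7 _ _ G10.R2 G10.S2 := hS1.glu (sys_one' N2) G10.D2 G10.U2
    hP1.inv.good.lt_len hN2I.good.lt_len
  have z1 := wdOld (N := N2) (D := un 6 F1 G10.D2) (U := un 6 F1 G10.U2) (q2 := 1)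
    (F2 := fun _ => Finset.range N2.length) hS1 y1 (by decide)
  have z2 := wdOld (N := N2) (D := un 6 F1 G10.D2) (U := un 6 F1 G10.U2) (q2 := 1)
    (F2 := fun _ => Finset.range N2.length) hS1 y2 (by decide)
  have z4 := wdOld (N := N2) (D := un 6 F1 G10.D2) (U := un 6 F1 G10.U2) (q2 := 1)
    (F2 := fun _ => Finset.range N2.length) hS1 y4 (by decide)
  have z6 := wdOne (P := P1) (N := N2) (q := 6) (F := F1) (D := un 6 F1 G10.D2)
    (U := un 6 F1 G10.U2) (F2 := fun _ => Finset.range N2.length) (q2 := 1) 0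
    (wd_range hN2I.good)
  have z46 : Wd _ (un 7 _ (fun a => a == 4 || a == 6)) a :=
    wd3 hS2 z4 z6 (by decide) (by decide)
  have z146 : Wd _ (un 7 _ (fun c => !(c == 0) && !(c == 2 || c == 3 || c == 5))) a :=
    wd3 hS2 z1 z46 (by decide) (by decide)
  have hcol : (C 1 ∪ (Ca 0 ∪ cols N2)).card < K := by
    by_contra hc
    rw [not_lt] at hc
    refine hP2.not ?_
    rw [hQ]
    left
    refine colB_of hS2 (fun a => a == 0) (fun a => a == 2 || a == 3 || a == 5) (by decide)
      (by decide) (by decide) z146 (hc.trans (Finset.card_le_card ?_))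
    intro c hc
    rcases Finset.mem_union.1 hc with hc | hc
    · exact mem_un.2 ⟨1, by omega, by decide, by simpa [catC] using hc⟩
    · rcases Finset.mem_union.1 hc with hc | hc
      · exact mem_un.2 ⟨4, by omega, by decide, by simpa [catC] using hc⟩
      · exact mem_un.2 ⟨6, by omega, by decide, by simpa [catC] using hc⟩
  have d24 := hS2.disj hP2.inv (a := 2) (b := 4) (by omega) (by omega) (by omega) (by decide)
    (by decide)
  have d26 := hS2.disj hP2.inv (a := 2) (b := 6) (by omega) (by omega) (by omega) (by decide)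
    (by decide)
  have d56 := hS2.disj hP2.inv (a := 5) (b := 6) (by omega) (by omega) (by omega) (by decide)
    (by decide)
  replace d24 : Disjoint (C 2) (Ca 0) := d24
  replace d26 : Disjoint (C 2) (cols N2) := d26
  replace d56 : Disjoint (Ca 1) (cols N2) := d56
  have hS3 := hS2.coarse (R' := G10.Rc) (S' := G10.Sc) (q' := 4) G10.g2 (by decide) (by decide)
    (by decide)
  have eC1 : un 7 (catC 6 (catC 4 C Ca) (fun _ => cols N2)) (fun a => G10.g2 a == 1) = C 1 :=
    un_one (i := 1) (by omega) (by decide)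
  have eC2 : C 2 ∪ (Ca 0 ∪ cols N2) ⊆
      un 7 (catC 6 (catC 4 C Ca) (fun _ => cols N2)) (fun a => G10.g2 a == 2) := by
    intro c hc
    rcases Finset.mem_union.1 hc with hc | hc
    · exact mem_un.2 ⟨2, by omega, by decide, by simpa [catC] using hc⟩
    · rcases Finset.mem_union.1 hc with hc | hc
      · exact mem_un.2 ⟨4, by omega, by decide, by simpa [catC] using hc⟩
      · exact mem_un.2 ⟨6, by omega, by decide, by simpa [catC] using hc⟩
  refine ⟨_, _, _, hP2, hS3, ?_, ?_, ?_, ?_⟩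
  · exact wdSub z1 (by decide)
  · exact wdP z2 z46 (by decide) (by rw [Nat.succ_mul])
  · simp only [eC1]
    exact hx
  · simp only [eC1]
    have hN2' : v ≤ (cols N2).card := hN2
    -- the colours of the copy
    have a1 : g + v ≤ (Ca 0 ∪ cols N2).card := by
      have e := Finset.card_union_of_disjoint d56
      have e2 := Finset.card_le_card (Finset.union_subset_union_left (t := cols N2) hCa)
      omega
    have a2 := Finset.card_union_add_card_inter (C 1) (Ca 0 ∪ cols N2)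
    have a3 : ((C 2 ∩ C 1) ∪ (C 1 ∩ (Ca 0 ∪ cols N2))).card ≤
        (un 7 (catC 6 (catC 4 C Ca) (fun _ => cols N2)) (fun a => G10.g2 a == 2) ∩ C 1).card := by
      refine Finset.card_le_card ?_
      intro c hc
      rw [Finset.mem_inter]
      rcases Finset.mem_union.1 hc with hc | hc
      · rw [Finset.mem_inter] at hc
        exact ⟨eC2 (Finset.mem_union_left _ hc.1), hc.2⟩
      · rw [Finset.mem_inter] at hc
        exact ⟨eC2 (Finset.mem_union_right _ hc.2), hc.1⟩
    have a4 : Disjoint (C 2 ∩ C 1) (C 1 ∩ (Ca 0 ∪ cols N2)) := by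
      refine Disjoint.mono Finset.inter_subset_left Finset.inter_subset_right ?_
      rw [Finset.disjoint_union_right]
      exact ⟨d24, d26⟩
    rw [Finset.card_union_of_disjoint a4] at a3
    have e1 : (k + 1) * (C 1).card = k * (C 1).card + (C 1).card := Nat.succ_mul _ _
    have e2 : (k + 1) * K = k * K + K := Nat.succ_mul _ _
    rw [e1, e2]
    omega

/-- A column of width `a` with `K` colours in the width `a + b`. -/
theorem colM {a b m g v K n : ℕ} (s : ℕ → ℕ) (hv : FG a m v) (hT : TG a b m g)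
    (hs : ∀ i < n, ∃ c, i * a + c ≤ b ∧ TG c a m (s i)) (hn : 0 < n)
    (hK : n * K ≤ (n - 1) * (g + v) + ∑ i ∈ Finset.range n, (s i + v)) :
    CF (a + b) m a K := by
  intro M
  by_contra hnf
  obtain ⟨Q, hQ⟩ : ∃ Q : Ps → Prop,
    Q = fun P => ColB a K P (Finset.range P.length) ∨ M ≤ (cols P).card := ⟨_, rfl⟩
  rw [← hQ] at hnf
  have key : ∀ k ≤ n, CSt (a + b) m a K Q (g + v) k (∑ i ∈ Finset.range k, (s i + v)) := by
    intro k
    induction k with
    | zero =>
      intro _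
      exact cst_zero ⟨inv_nil _ _, hnf⟩ hQ hv hT (by omega)
    | succ k ih =>
      intro hk
      rw [Finset.sum_range_succ]
      obtain ⟨c, hc, hTc⟩ := hs k (by omega)
      exact cst_succ hQ hv hTc (by omega) (ih (by omega))
  obtain ⟨P, F, C, hP, hS, w1, w2, hx, hc⟩ := key n le_rfl
  have h1 : (C 2 ∩ C 1).card ≤ (C 1).card := Finset.card_le_card Finset.inter_subset_right
  obtain ⟨n', rfl⟩ : ∃ n', n = n' + 1 := ⟨n - 1, by omega⟩
  have e1 : (n' + 1) * (C 1).card = n' * (C 1).card + (C 1).card := Nat.succ_mul _ _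
  have e2 : n' * (g + v) ≤ n' * (C 1).card := Nat.mul_le_mul_left _ hx
  rw [e1] at hc
  rw [Nat.add_sub_cancel] at hK
  omega

end Pool.Agent.Helper26.SQ2
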