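import Pool.Agent.Helper26.SQ2.Step

/-!
The play which gives the recursion for the top structure.
-/

set_option autoImplicit false

namespace Pool.Agent.Helper26.SQ2

open Pool.Agent.Helper3.DW Pool.Agent.Helper26.SQ
open Pool.Agent.Helper18.SQ (TopR VG fg_of_vg region_top)

open G5

/-- The recursion for the top structure. -/
theorem top_step {j m v v' g g' : ℕ} (h : VG j m v g) (hv' : FG (2 * j) m v')
    (hg' : 2 * g' ≤ v' + v + 4 * g + 1) (M : ℕ) :
    Force (2 * (2 * j)) m (TopR (2 * j) g' M) [] := by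
  by_contra hn
  have hreg := region_top j m v g h.1 h.2
  have htop := h.2 M
  obtain ⟨k, hk⟩ : ∃ k, k = 2 * j := ⟨_, rfl⟩
  rw [← hk] at hn hv' hreg htop
  obtain ⟨Q, hQ⟩ : ∃ Q : Ps → Prop, Q = TopR k g' M := ⟨_, rfl⟩
  rw [← hQ] at hn
  have hQB : ∀ P, Blk k 0 M P (Finset.range P.length) → Q P := by
    intro P hP
    rw [hQ]
    exact Or.inr hP
  have hP0 : Safe (2 * k) m Q [] := ⟨inv_nil _ _, hn⟩
  -- the repeated blocks `1`, `2`
  have hB : Force k m (fun P => Blk k 0 v' P (Finset.range P.length)) [] :=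
    (Force.inv hv' (inv_nil k m)).imp fun P hP => blk_of_card hP.2.1 hP.1
  obtain ⟨P1, hP1a, hP1b, hP1⟩ := first hP0 (by omega) (st_rep k m k 0 v' hB 2 M)
  rcases hP1a with hP1a | hP1a
  swap
  · exact hP1.not (hQB _ (blk_of_card hP1b hP1a))
  obtain ⟨F0, C0, T, hS0, hC0⟩ := hP1a
  obtain ⟨hC1, B1, b1, -, -, -, b5⟩ := hC0 1 (by norm_num) (by norm_num)
  obtain ⟨hC2, -⟩ := hC0 2 (by norm_num) (by norm_num)
  have hT : v' ≤ (C0 2).card := by
    rw [hC2, ← hC1, ← hS0.col 1 (by norm_num)]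
    exact b5.trans (Finset.card_le_card (colU_mono b1))
  have hWk0 : ∀ a < 3, Wd P1 (F0 a) k := fun a ha => (wd_range hP1b.good).mono
    (fun y hy => Finset.mem_range.2 (hS0.len ha y hy)) le_rfl
  have hWj0 : ∀ a < 3, nn a = true → Wd P1 (F0 a) j := fun a _ h => by simp [nn] at h
  -- the plays in width `k`
  have hT' : Force k m (fun N => TopQ j g N ∨ Blk k 0 M N (Finset.range N.length)) [] :=
    htop.imp fun N hN => hN.imp id fun h => Blk.wide h (by omega)
  have hA : Force k m (fun N => RepQ 2 j 0 (v + g) N ∨ Blk k 0 M N (Finset.range N.length)) [] :=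
    ((st_rep k m j 0 (v + g) hreg 2 M).inv (inv_nil _ _)).imp fun N hN =>
      hN.1.imp id fun hc => blk_of_card hN.2.1 hc
  -- the first top structure: blocks `3`, `4`
  obtain ⟨N1, hN1, hN1I, hP2⟩ := ins_alt hP1 hQB hS0 D1 U1 (by decide) (by decide) (by decide)
    (i := 0) (by rw [un_none (by decide)]; exact wd_empty _ 0) (by omega)
    (hS0.wdA (K := tt) (fun a ha _ => hWk0 a ha) U1 (by decide) (by decide)) hT'
  obtain ⟨Fp, Cp, hSp, hWp0, hWp1, hCp, hgp⟩ := hN1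
  have hWp : ∀ a < 2, tt a = true → Wd N1 (Fp a) j := by
    intro a ha _
    obtain rfl | rfl : a = 0 ∨ a = 1 := by omega
    · exact hWp0
    · exact hWp1
  have hS1 : Sys _ 5 _ _ R1 S1 := hS0.glu (S2 := Tt) hSp D1 U1 hP1.inv.good.lt_len
    hN1I.good.lt_len
  have hWk1 := wdAll (D := un 3 F0 D1) (U := un 3 F0 U1) hS0 hWk0
    (fun a ha => (hWp a ha rfl).mono subset_rfl (by omega : j ≤ k))
  have hWj1 := hS0.wdK (Q := N1) (q2 := 2) (F2 := Fp) (K2 := tt) (D := un 3 F0 D1)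
    (U := un 3 F0 U1) hWj0 hWp
  generalize hP2d : glue P1 (un 3 F0 D1) (un 3 F0 U1) N1 = P2 at *
  generalize hF1d : catF 3 P1.length F0 Fp = F1 at *
  -- the second top structure: blocks `5`, `6`
  obtain ⟨N2, hN2, hN2I, hP3⟩ := ins_alt hP2 hQB hS1 D2 U2 (by decide) (by decide) (by decide)
    (i := j) (hS1.wdA hWj1 _ (by decide) (by decide)) (by omega)
    (hS1.wdA (K := tt) (fun a ha _ => hWk1 a ha) U2 (by decide) (by decide)) hT'
  obtain ⟨Fs, Cs, hSs, hWs0, hWs1, hCs, hgs⟩ := hN2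
  have hWs : ∀ a < 2, tt a = true → Wd N2 (Fs a) j := by
    intro a ha _
    obtain rfl | rfl : a = 0 ∨ a = 1 := by omega
    · exact hWs0
    · exact hWs1
  have hS2 : Sys _ 7 _ _ R2 S2 := hS1.glu (S2 := Tt) hSs D2 U2 hP2.inv.good.lt_len
    hN2I.good.lt_len
  have hWk2 := wdAll (D := un 5 F1 D2) (U := un 5 F1 U2) hS1 hWk1
    (fun a ha => (hWs a ha rfl).mono subset_rfl (by omega : j ≤ k))
  have hWj2 := hS1.wdK (Q := N2) (q2 := 2) (F2 := Fs) (K2 := tt) (D := un 5 F1 D2)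
    (U := un 5 F1 U2) hWj1 hWs
  generalize hP3d : glue P2 (un 5 F1 D2) (un 5 F1 U2) N2 = P3 at *
  generalize hF2d : catF 5 P2.length F1 Fs = F2 at *
  -- the repeated blocks: `7`, `8`, `9`, `10`
  obtain ⟨N3, hN3, hN3I, hP4⟩ := ins_alt hP3 hQB hS2 D3 U3 (by decide) (by decide) (by decide)
    (i := j) (hS2.wdA hWj2 _ (by decide) (by decide)) (by omega)
    (hS2.wdA (K := tt) (fun a ha _ => hWk2 a ha) U3 (by decide) (by decide)) hA
  obtain ⟨Fa, Ca, hSa, hWa3, hga, hCa⟩ := split_rep hN3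
  have hWa : ∀ a < 4, Wd N3 (Fa a) k := fun a ha => (wd_range hN3I.good).mono
    (fun y hy => Finset.mem_range.2 (hSa.len ha y hy)) le_rfl
  have hS3 : Sys _ 11 _ _ R3 S3 := hS2.glu hSa D3 U3 hP3.inv.good.lt_len hN3I.good.lt_len
  have hWk3 := wdAll (D := un 7 F2 D3) (U := un 7 F2 U3) hS2 hWk2 hWa
  have hWj3 := hS2.wdK (Q := N3) (q2 := 4) (F2 := Fa) (K2 := fun a => a == 3) (D := un 7 F2 D3)
    (U := un 7 F2 U3) hWj2 (by
      intro a _ h3
      simp only [beq_iff_eq] at h3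
      rw [h3]
      exact hWa3)
  have w9 := wdNew (P := P3) (q := 7) (F := F2) (D := un 7 F2 D3) (U := un 7 F2 U3) hSa hN3I.good
    (A := fun a => a == 9 || a == 10) (by decide)
  generalize hP4d : glue P3 (un 7 F2 D3) (un 7 F2 U3) N3 = P4 at *
  generalize hF3d : catF 7 P3.length F2 Fa = F3 at *
  -- the third top structure: blocks `11`, `12`
  obtain ⟨N4, hN4, hN4I, hP5⟩ := ins_alt hP4 hQB hS3 D4 U4 (by decide) (by decide) (by decide)
    (i := k) (wdP (A := fun a => a == 4 || a == 6) (B := fun a => a == 10)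
      (hS3.wdA hWj3 _ (by decide) (by decide)) (hS3.wdA hWj3 _ (by decide) (by decide))
      (by decide) (by omega)) (by omega)
    (hS3.wdA (K := tt) (fun a ha _ => hWk3 a ha) U4 (by decide) (by decide)) hT'
  obtain ⟨Fr, Cr, hSr, hWr0, hWr1, hCr, hgr⟩ := hN4
  have hWr : ∀ a < 2, tt a = true → Wd N4 (Fr a) j := by
    intro a ha _
    obtain rfl | rfl : a = 0 ∨ a = 1 := by omega
    · exact hWr0
    · exact hWr1
  have hS4 : Sys _ 13 _ _ R4 S4 := hS3.glu (S2 := Tt) hSr D4 U4 hP4.inv.good.lt_len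
    hN4I.good.lt_len
  have hWk4 := wdAll (D := un 11 F3 D4) (U := un 11 F3 U4) hS3 hWk3
    (fun a ha => (hWr a ha rfl).mono subset_rfl (by omega : j ≤ k))
  have hWj4 := hS3.wdK (Q := N4) (q2 := 2) (F2 := Fr) (K2 := tt) (D := un 11 F3 D4)
    (U := un 11 F3 U4) hWj3 hWr
  have w9' := wdOld (N := N4) (D := un 11 F3 D4) (U := un 11 F3 U4) (q2 := 2) (F2 := Fr) hS3 w9
    (by decide)
  have hfin := final_top hk hP5.inv hS4 hWk4 hWj4 w9' (hC2.trans hC1.symm) hCp hCs hCa hCr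
    hT hgp hgs hga hgr hg'
  refine hP5.not ?_
  rw [hQ]
  exact Or.inl hfin

end Pool.Agent.Helper26.SQ2
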