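import Pool.Agent.Helper26.SQ2.Step2

/-!
The play which gives the second recursion for the top structure.
-/

set_option autoImplicit false

namespace Pool.Agent.Helper26.SQ2

open Pool.Agent.Helper3.DW Pool.Agent.Helper26.SQ
open Pool.Agent.Helper18.SQ (TopR VG fg_of_vg region_top)

/-- The second recursion for the top structure. -/
theorem top_car {j m v v' g g' : ℕ} (h : VG j m v g) (hv' : FG (2 * j) m v')
    (hg' : 6 * g' ≤ v' + 14 * v + 10 * g + 5) (M : ℕ) :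
    Force (2 * (2 * j)) m (TopR (2 * j) g' M) [] := by
  by_contra hn
  have hreg := region_top j m v g h.1 h.2
  have htop := h.2 M
  have htr := trade h hv'
  obtain ⟨k, hk⟩ : ∃ k, k = 2 * j := ⟨_, rfl⟩
  rw [← hk] at hn hv' hreg htop htr
  obtain ⟨Q, hQ⟩ : ∃ Q : Ps → Prop, Q = TopR k g' M := ⟨_, rfl⟩
  rw [← hQ] at hn
  have hQB : ∀ P, Blk k 0 M P (Finset.range P.length) → Q P := by
    intro P hP
    rw [hQ]
    exact Or.inr hP
  have hP0 : Safe (2 * k) m Q [] := ⟨inv_nil _ _, hn⟩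
  -- the repeated blocks `1`, `2 ∪ 3`, `4`
  obtain ⟨P1, hP1a, hP1b, hP1⟩ := first hP0 (by omega) (repG (blkD_cls j _ _ v') htr 3 M)
  rcases hP1a with hP1a | hP1a
  swap
  · exact hP1.not (hQB _ (blk_of_card hP1b hP1a))
  obtain ⟨F0, C0, hS0, hW3, hab, hcc, hC3, hC4⟩ := split3 hP1a
  have hWk0 : ∀ a < 5, Wd P1 (F0 a) k := fun a ha => (wd_range hP1b.good).mono
    (fun y hy => Finset.mem_range.2 (hS0.len ha y hy)) le_rfl
  have hWj0 : ∀ a < 5, G6.K0 a = true → Wd P1 (F0 a) j := by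
    intro a _ h3
    simp only [G6.K0, beq_iff_eq] at h3
    rw [h3]
    exact hW3
  -- the plays in width `k`
  have hT' : Force k m (fun N => TopQ j g N ∨ Blk k 0 M N (Finset.range N.length)) [] :=
    htop.imp fun N hN => hN.imp id fun h => Blk.wide h (by omega)
  have hA : Force k m (fun N => RepQ 2 j 0 (v + g) N ∨ Blk k 0 M N (Finset.range N.length)) [] :=
    ((st_rep k m j 0 (v + g) hreg 2 M).inv (inv_nil _ _)).imp fun N hN =>
      hN.1.imp id fun hc => blk_of_card hN.2.1 hc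
  -- the repeated blocks `6`, `7 ∪ 8`
  obtain ⟨N1, hN1, hN1I, hP2⟩ := ins_alt hP1 hQB hS0 G6.D1 G6.U1 (by decide) (by decide)
    (by decide) (i := j) (hS0.wdA hWj0 _ (by decide) (by decide)) (by omega)
    (hS0.wdA (K := tt) (fun a ha _ => hWk0 a ha) G6.U1 (by decide) (by decide)) hA
  obtain ⟨Fa, Ca, hSa, hWa3, hga, hCa⟩ := split_rep hN1
  have hWa : ∀ a < 4, Wd N1 (Fa a) k := fun a ha => (wd_range hN1I.good).mono
    (fun y hy => Finset.mem_range.2 (hSa.len ha y hy)) le_rfl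
  have hS1 : Sys _ 9 _ _ G6.R1 G6.S1 := hS0.glu hSa G6.D1 G6.U1 hP1.inv.good.lt_len
    hN1I.good.lt_len
  have hWk1 := wdAll (D := un 5 F0 G6.D1) (U := un 5 F0 G6.U1) hS0 hWk0 hWa
  have hWj1 := hS0.wdK (Q := N1) (q2 := 4) (F2 := Fa) (K2 := fun a => a == 3)
    (D := un 5 F0 G6.D1) (U := un 5 F0 G6.U1) hWj0 (by
      intro a _ h3
      simp only [beq_iff_eq] at h3
      rw [h3]
      exact hWa3)
  have w7 := wdNew (P := P1) (q := 5) (F := F0) (D := un 5 F0 G6.D1) (U := un 5 F0 G6.U1) hSa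
    hN1I.good (A := fun a => a == 7 || a == 8) (by decide)
  generalize hP2d : glue P1 (un 5 F0 G6.D1) (un 5 F0 G6.U1) N1 = P2 at *
  generalize hF1d : catF 5 P1.length F0 Fa = F1 at *
  -- the top structure: blocks `9`, `10`
  obtain ⟨N2, hN2, hN2I, hP3⟩ := ins_alt hP2 hQB hS1 G6.D2 G6.U2 (by decide) (by decide)
    (by decide) (i := k) (wdP (A := fun a => a == 3) (B := fun a => a == 8)
      (hS1.wdA hWj1 _ (by decide) (by decide)) (hS1.wdA hWj1 _ (by decide) (by decide))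
      (by decide) (by omega)) (by omega)
    (hS1.wdA (K := tt) (fun a ha _ => hWk1 a ha) G6.U2 (by decide) (by decide)) hT'
  obtain ⟨Fr, Cr, hSr, hWr0, hWr1, hCr, hgr⟩ := hN2
  have hWr : ∀ a < 2, tt a = true → Wd N2 (Fr a) j := by
    intro a ha _
    obtain rfl | rfl : a = 0 ∨ a = 1 := by omega
    · exact hWr0
    · exact hWr1
  have hS2 : Sys _ 11 _ _ G6.R2 G6.S2 := hS1.glu (S2 := G6.Tt) hSr G6.D2 G6.U2
    hP2.inv.good.lt_len hN2I.good.lt_len
  have hWk2 := wdAll (D := un 9 F1 G6.D2) (U := un 9 F1 G6.U2) hS1 hWk1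
    (fun a ha => (hWr a ha rfl).mono subset_rfl (by omega : j ≤ k))
  have hWj2 := hS1.wdK (Q := N2) (q2 := 2) (F2 := Fr) (K2 := tt) (D := un 9 F1 G6.D2)
    (U := un 9 F1 G6.U2) hWj1 hWr
  have w7' := wdOld (N := N2) (D := un 9 F1 G6.D2) (U := un 9 F1 G6.U2) (q2 := 2) (F2 := Fr)
    hS1 w7 (by decide)
  have hfin := final_car hk hP3.inv hS2 hWk2 hWj2 w7' hC4 hC3 hCa hCr hcc hab hga hgr hg'
  refine hP3.not ?_
  rw [hQ]
  exact Or.inl hfin

theorem vg_car {j m v g g' : ℕ} (h : VG j m v g) (hg : 6 * g' ≤ 17 * v + 11 * g + 5) :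
    VG (2 * j) m (3 * v + g) g' :=
  ⟨fg_of_vg h, top_car h (fg_of_vg h) (by omega)⟩

end Pool.Agent.Helper26.SQ2
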