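import Pool.Agent.Helper26.SQ2.StepA

/-!
The recursion for three numbers: `v' = 3 v + g`, `g' = 2 v + g + d`, `d' = 6 v + 3 g + d`.
-/

set_option autoImplicit false

namespace Pool.Agent.Helper26.SQ2

open Pool.Agent.Helper3.DW Pool.Agent.Helper26.SQ
open Pool.Agent.Helper18.SQ (TopR VG fg_of_vg)

namespace G9

def Tt (a b : ℕ) : Bool := a == 1 && b == 0
def D1 (_ : ℕ) : Bool := false
def U1 (a : ℕ) : Bool := a == 1
/-- After the second top structure: `2`, `3`. -/
def R1 : ℕ → ℕ → Bool := catR 2 ff ff D1 U1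
def S1 : ℕ → ℕ → Bool := catS 2 Tt Tt D1 U1
def A1 (a : ℕ) : Bool := a == 1 || a == 3

end G9

/-- Two top structures, the second one beside the lower part of the first one. -/
theorem tg_add {a b b' m g g' : ℕ} (h : TG a b m g) (h' : TG a b' m g') :
    TG a (b + b') m (g + g') := by
  intro M
  by_contra hn
  obtain ⟨Q, hQ⟩ : ∃ Q : Ps → Prop,
    Q = fun P => TopA a (b + b') (g + g') P ∨ Blk a 0 M P (Finset.range P.length) := ⟨_, rfl⟩
  rw [← hQ] at hn
  have hQB : ∀ P, Blk a 0 M P (Finset.range P.length) → Q P := by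
    intro P hP
    rw [hQ]
    exact Or.inr hP
  obtain ⟨P1, hP1a, hP1b, hP1⟩ := first ⟨inv_nil _ _, hn⟩ (by omega) (h M)
  rcases hP1a with hP1a | hP1a
  swap
  · exact hP1.not (hQB _ hP1a)
  obtain ⟨F, C, hS, w0, w1, c1, hg⟩ := hP1a
  have u0 : Wd P1 (un 2 F (fun a => a == 0)) b := by
    refine w0.mono ?_ le_rfl
    intro x hx
    obtain ⟨a, _, hAa, hxa⟩ := mem_un.1 hx
    simp only [beq_iff_eq] at hAa
    rwa [← hAa]
  have u1 : Wd P1 (un 2 F (fun a => a == 1)) a := by
    refine w1.mono ?_ le_rfl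
    intro x hx
    obtain ⟨a, _, hAa, hxa⟩ := mem_un.1 hx
    simp only [beq_iff_eq] at hAa
    rwa [← hAa]
  obtain ⟨N, hN, hNI, hP2⟩ := ins_alt hP1 hQB hS G9.D1 G9.U1 (by decide) (by decide)
    (by decide) (i := b) (wdSub u0 (by decide)) (by omega : b + (a + b') ≤ a + (b + b')) u1
    (h' M)
  obtain ⟨F', C', hS', w0', w1', c1', hg'⟩ := hN
  have hS2 : Sys _ 4 _ _ G9.R1 G9.S1 := hS.glu hS' G9.D1 G9.U1 hP1.inv.good.lt_len
    hNI.good.lt_len
  have x0 := wdOld (N := N) (D := un 2 F G9.D1) (U := un 2 F G9.U1) (q2 := 2) (F2 := F')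
    hS u0 (by decide)
  have x1 := wdOld (N := N) (D := un 2 F G9.D1) (U := un 2 F G9.U1) (q2 := 2) (F2 := F')
    hS u1 (by decide)
  have x2 := wdOne (P := P1) (N := N) (q := 2) (F := F) (D := un 2 F G9.D1)
    (U := un 2 F G9.U1) (F2 := F') (q2 := 2) 0 w0'
  have x3 := wdOne (P := P1) (N := N) (q := 2) (F := F) (D := un 2 F G9.D1)
    (U := un 2 F G9.U1) (F2 := F') (q2 := 2) 1 w1'
  refine hP2.not ?_
  rw [hQ]
  left
  have d1 := hS2.disj hP2.inv (a := 0) (b := 2) (by omega) (by omega) (by omega) (by decide)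
    (by decide)
  replace d1 : Disjoint (C 0) (C' 0) := d1
  have d2 : Disjoint (C 1) (C' 1) := d1.mono c1 c1'
  refine topa_of hS2 G9.A1 (by decide) ?_ ?_ ?_ ?_
  · exact wd3 hS2 x3 x1 (by decide) (by decide)
  · exact wdP x0 x2 (by decide) le_rfl
  · intro a ha hAa
    have : a = 1 ∨ a = 3 := by
      simp only [G9.A1, Bool.or_eq_true, beq_iff_eq] at hAa
      omega
    obtain rfl | rfl := this
    · exact ⟨0, by omega, by decide, c1⟩
    · exact ⟨2, by omega, by decide, c1'⟩
  · have e := Finset.card_union_of_disjoint d2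
    have e2 : C 1 ∪ C' 1 ⊆ un 4 (catC 2 C C') G9.A1 := by
      intro c hc
      rcases Finset.mem_union.1 hc with hc | hc
      · exact mem_un.2 ⟨1, by omega, by decide, hc⟩
      · exact mem_un.2 ⟨3, by omega, by decide, hc⟩
    have e3 := Finset.card_le_card e2
    omega

/-- The state of the recursion. -/
structure VGD (j m v g d : ℕ) : Prop where
  vg : VG j m v g
  top : TG j (2 * j) m d

theorem tg_of_vg {j m v g : ℕ} (h : VG j m v g) : TG j j m g := by
  intro M
  have h1 := h.2 M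
  have e : 2 * j = j + j := by omega
  rw [e] at h1
  exact h1

theorem vgd_of_vg {j m v g : ℕ} (h : VG j m v g) : VGD j m v g (2 * g) := by
  refine ⟨h, ?_⟩
  have h1 := tg_add (tg_of_vg h) (tg_of_vg h)
  have e : j + j = 2 * j := by omega
  have e' : g + g = 2 * g := by omega
  rwa [e, e'] at h1

theorem vgd_step {j m v g d : ℕ} (h : VGD j m v g d) :
    VGD (2 * j) m (3 * v + g) (2 * v + g + d) (6 * v + 3 * g + d) := by
  have hcol := col_force h.vg.1 h.vg.2
  have t22 := tg_up hcol h.top (by omega) le_rfl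
  have t23 := tg_low hcol t22 (by omega) (by omega)
  have t24 := tg_low hcol t23 (by omega) (by omega)
  have e : j + j = 2 * j := by omega
  have e2 : 2 * j + j + j = 2 * (2 * j) := by omega
  have e3 : 2 * v + g + (2 * v + g + (2 * v + g + d)) = 6 * v + 3 * g + d := by omega
  refine ⟨⟨fg_of_vg h.vg, fun M => ?_⟩, ?_⟩
  · have h1 := t22 M
    rw [e, show 2 * j + 2 * j = 2 * (2 * j) by omega] at h1
    exact h1
  · rw [e, e2, e3] at t24
    exact t24

end Pool.Agent.Helper26.SQ2
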