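import Pool.Agent.Helper26.SQ2.ColM

/-!
The recursion for three numbers `v`, `g`, `t`: the colours in the width `j`, in a top structure with
both parts of width `j`, and the gain of a top structure when one of its parts is enlarged by `j`.
-/

set_option autoImplicit false

namespace Pool.Agent.Helper26.SQ2

open Pool.Agent.Helper3.DW Pool.Agent.Helper26.SQ
open Pool.Agent.Helper18.SQ (TopR VG fg_of_vg)

theorem cf_of_fg {p m v : ℕ} (h : FG p m v) : CF p m p v := by
  refine cf_of ((Force.inv h (inv_nil p m)).imp ?_)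
  rintro P ⟨hP1, hP2, _⟩
  exact ⟨∅, Finset.range P.length, ∅, by simp, by simp, by simp, by simp, by simp,
    wd_range hP2.good, hP1⟩

theorem tg_lows {a b c m p q g : ℕ} (hcol : CF c m p q) (hT : TG a b m g)
    (h1 : c ≤ a) (h2 : c ≤ b) : ∀ s : ℕ, TG a (b + s * p) m (g + s * q)
  | 0 => by simpa using hT
  | (s + 1) => by
    have h := tg_lowM hcol (tg_lows hcol hT h1 h2 s) h1 (by omega)
    have e1 : b + (s + 1) * p = b + s * p + p := by ring
    have e2 : g + (s + 1) * q = q + (g + s * q) := by ring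
    rw [e1, e2]
    exact h

theorem tg_ups {a b c m p q g : ℕ} (hcol : CF c m p q) (hT : TG a b m g)
    (h1 : c ≤ a) (h2 : c ≤ b) : ∀ s : ℕ, TG (a + s * p) b m (g + s * q)
  | 0 => by simpa using hT
  | (s + 1) => by
    have h := tg_upM hcol (tg_ups hcol hT h1 h2 s) (by omega) h2
    have e1 : a + (s + 1) * p = a + s * p + p := by ring
    have e2 : g + (s + 1) * q = q + (g + s * q) := by ring
    rw [e1, e2]
    exact h

theorem vg_of {j m v g : ℕ} (h1 : FG j m v) (h2 : TG j j m g) : VG j m v g := by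
  refine ⟨h1, fun M => ?_⟩
  have h := h2 M
  rw [show j + j = 2 * j by omega] at h
  exact h

/-- The state of the recursion. -/
structure VGT (j m v g t : ℕ) : Prop where
  vg : VG j m v g
  lo : ∀ s : ℕ, TG j (j + s * j) m (g + s * t)
  up : ∀ s : ℕ, TG (j + s * j) j m (g + s * t)

theorem vgt_of_vg {j m v g : ℕ} (h : VG j m v g) : VGT j m v g v :=
  ⟨h, tg_lows (cf_of_fg h.1) (tg_of_vg h) le_rfl le_rfl,
    tg_ups (cf_of_fg h.1) (tg_of_vg h) le_rfl le_rfl⟩

/-- The slopes in a larger unit. -/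
theorem vgt_of {j m v g n q : ℕ} (hv : FG (n * j) m v) (hG : TG (n * j) (n * j) m g)
    (hc : CF (n * j) m j q) : VGT (n * j) m v g (n * q) := by
  refine ⟨vg_of hv hG, fun s => ?_, fun s => ?_⟩
  · have h := tg_lows hc hG le_rfl le_rfl (s * n)
    have e1 : n * j + s * n * j = n * j + s * (n * j) := by ring
    have e2 : g + s * n * q = g + s * (n * q) := by ring
    rwa [e1, e2] at h
  · have h := tg_ups hc hG le_rfl le_rfl (s * n)
    have e1 : n * j + s * n * j = n * j + s * (n * j) := by ring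
    have e2 : g + s * n * q = g + s * (n * q) := by ring
    rwa [e1, e2] at h

theorem vgt_one {j m v g t : ℕ} (h : VGT j m v g t) :
    VGT (2 * j) m (3 * v + g) (2 * v + 2 * g + t) (2 * (2 * v + g)) := by
  have hcol : CF (2 * j) m j (2 * v + g) := cf_of (col_force h.vg.1 h.vg.2)
  have t22 := tg_upM hcol (h.lo 1) (by omega) (by omega)
  have e1 : j + j = 2 * j := by omega
  have e2 : j + 1 * j = 2 * j := by omega
  have e3 : 2 * v + g + (g + 1 * t) = 2 * v + 2 * g + t := by omega
  rw [e1, e2, e3] at t22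
  exact vgt_of (fg_of_vg h.vg) t22 hcol

/-- The columns of width `j` in the width `(n + 1) j`. -/
theorem colK {j m v g t : ℕ} (h : VGT j m v g t) (n q : ℕ) {K : ℕ} (hq : 0 < q) (hqn : q ≤ n)
    (hK : q * K ≤ (q - 1) * (g + (n - 1) * t + v) +
      ∑ i ∈ Finset.range q, (g + (n - 1 - i) * t + v)) : CF ((n + 1) * j) m j K := by
  have h1 : TG j (n * j) m (g + (n - 1) * t) := by
    have h2 := h.lo (n - 1)
    have e : j + (n - 1) * j = n * j := by
      obtain ⟨n', rfl⟩ : ∃ n', n = n' + 1 := ⟨n - 1, by omega⟩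
      rw [Nat.add_sub_cancel]
      ring
    rwa [e] at h2
  have h2 : ∀ i < q, ∃ c, i * j + c ≤ n * j ∧ TG c j m (g + (n - 1 - i) * t) := by
    intro i hi
    refine ⟨_, ?_, h.up (n - 1 - i)⟩
    obtain ⟨r, hr⟩ : ∃ r, n = i + 1 + r := ⟨n - (i + 1), by omega⟩
    have e : n - 1 - i = r := by omega
    rw [e, hr]
    apply le_of_eq
    ring
  have h3 := colM (a := j) (b := n * j) (fun i => g + (n - 1 - i) * t) h.vg.1 h1 h2 hq hK
  rwa [show j + n * j = (n + 1) * j by ring] at h3

/-- The path along the diagonal. -/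
theorem diag {j m g n N : ℕ} (κ : ℕ → ℕ) (hκ : ∀ c, n ≤ c → c ≤ N → CF (c * j) m j (κ c))
    (h : TG (n * j) (n * j) m g) : ∀ k : ℕ, n + k ≤ N → TG ((n + k) * j) ((n + k) * j) m
      (g + ∑ i ∈ Finset.range k, (κ (n + i) + κ (n + i + 1)))
  | 0, _ => by simpa using h
  | (k + 1), hk => by
    have h1 := diag κ hκ h k (by omega)
    have h2 := tg_lowM (hκ (n + k) (by omega) (by omega)) h1 le_rfl (by omega)
    have e1 : (n + k) * j + j = (n + (k + 1)) * j := by ring
    have h3 := tg_upM (hκ (n + k + 1) (by omega) (by omega)) h2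
      (by rw [e1]; exact le_of_eq (by ring)) (by rw [e1]; exact le_of_eq (by ring))
    rw [Finset.sum_range_succ]
    rw [e1] at h3
    have e2 : g + (∑ i ∈ Finset.range k, (κ (n + i) + κ (n + i + 1)) +
        (κ (n + k) + κ (n + k + 1))) = κ (n + k + 1) + (κ (n + k) +
        (g + ∑ i ∈ Finset.range k, (κ (n + i) + κ (n + i + 1)))) := by ring
    rw [e2]
    exact h3

/-- The numbers of colours of the columns in the widths `8 j, …, 16 j`. -/
def kap (v g t c : ℕ) : ℕ :=
  if c = 8 then (7 * (g + v) + 36 * t) / 4 else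
  if c = 9 then (7 * (g + v) + 43 * t) / 4 else
  if c = 10 then (7 * (g + v) + 50 * t) / 4 else
  if c = 11 then (9 * (g + v) + 71 * t) / 5 else
  if c = 12 then (9 * (g + v) + 80 * t) / 5 else
  if c = 13 then (9 * (g + v) + 89 * t) / 5 else
  if c = 14 then (9 * (g + v) + 98 * t) / 5 else
  if c = 15 then (9 * (g + v) + 107 * t) / 5 else (11 * (g + v) + 139 * t) / 6

theorem kap_cf {j m v g t : ℕ} (h : VGT j m v g t) (c : ℕ) (h1 : 8 ≤ c) (h2 : c ≤ 16) :
    CF (c * j) m j (kap v g t c) := by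
  obtain rfl | rfl | rfl | rfl | rfl | rfl | rfl | rfl | rfl : c = 8 ∨ c = 9 ∨ c = 10 ∨ c = 11 ∨
    c = 12 ∨ c = 13 ∨ c = 14 ∨ c = 15 ∨ c = 16 := by omega
  · refine colK h 7 4 (by omega) (by omega) ?_
    simp only [kap, Finset.sum_range_succ, Finset.sum_range_zero]
    norm_num
    omega
  · refine colK h 8 4 (by omega) (by omega) ?_
    simp only [kap, Finset.sum_range_succ, Finset.sum_range_zero]
    norm_num
    omega
  · refine colK h 9 4 (by omega) (by omega) ?_
    simp only [kap, Finset.sum_range_succ, Finset.sum_range_zero]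
    norm_num
    omega
  · refine colK h 10 5 (by omega) (by omega) ?_
    simp only [kap, Finset.sum_range_succ, Finset.sum_range_zero]
    norm_num
    omega
  · refine colK h 11 5 (by omega) (by omega) ?_
    simp only [kap, Finset.sum_range_succ, Finset.sum_range_zero]
    norm_num
    omega
  · refine colK h 12 5 (by omega) (by omega) ?_
    simp only [kap, Finset.sum_range_succ, Finset.sum_range_zero]
    norm_num
    omega
  · refine colK h 13 5 (by omega) (by omega) ?_
    simp only [kap, Finset.sum_range_succ, Finset.sum_range_zero]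
    norm_num
    omega
  · refine colK h 14 5 (by omega) (by omega) ?_
    simp only [kap, Finset.sum_range_succ, Finset.sum_range_zero]
    norm_num
    omega
  · refine colK h 15 6 (by omega) (by omega) ?_
    simp only [kap, Finset.sum_range_succ, Finset.sum_range_zero]
    norm_num
    omega

/-- One step of the recursion, from the units `j`, `2 j`, `8 j` to the unit `16 j`. -/
theorem vgt_step {j m v0 g0 t0 v1 g1 t1 v3 g3 t3 : ℕ} (h0 : VGT j m v0 g0 t0)
    (h1 : VGT (2 * j) m v1 g1 t1) (h3 : VGT (8 * j) m v3 g3 t3) :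
    VGT (16 * j) m (3 * v3 + g3)
      (g3 + (kap v0 g0 t0 8 + 2 * (kap v0 g0 t0 9 + kap v0 g0 t0 10 + kap v0 g0 t0 11 +
        kap v0 g0 t0 12 + kap v0 g0 t0 13 + kap v0 g0 t0 14 + kap v0 g0 t0 15) +
        kap v0 g0 t0 16)) (8 * kap v1 g1 t1 8) := by
  have hG := diag (kap v0 g0 t0) (fun c h h' => kap_cf h0 c h h') (tg_of_vg h3.vg) 8
    (by norm_num)
  have e1 : (8 + 8) * j = 8 * (2 * j) := by ring
  have e2 : 16 * j = 8 * (2 * j) := by ring
  have e3 : 2 * (8 * j) = 8 * (2 * j) := by ring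
  rw [e1] at hG
  rw [e2]
  have hv : FG (8 * (2 * j)) m (3 * v3 + g3) := by
    rw [← e3]
    exact fg_of_vg h3.vg
  refine vgt_of hv ?_ (kap_cf h1 8 (by norm_num) (by norm_num))
  have e4 : g3 + ∑ i ∈ Finset.range 8, (kap v0 g0 t0 (8 + i) + kap v0 g0 t0 (8 + i + 1)) =
      g3 + (kap v0 g0 t0 8 + 2 * (kap v0 g0 t0 9 + kap v0 g0 t0 10 + kap v0 g0 t0 11 +
        kap v0 g0 t0 12 + kap v0 g0 t0 13 + kap v0 g0 t0 14 + kap v0 g0 t0 15) +
        kap v0 g0 t0 16) := by
    simp only [Finset.sum_range_succ, Finset.sum_range_zero]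
    norm_num
    ring
  rw [← e4]
  exact hG

end Pool.Agent.Helper26.SQ2
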