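import Pool.Agent.Helper26.SQ2.Main

/-!
The recursion `v' = 3 v + g`, `g' = ⌊(4 v + 5 g + 1) / 2⌋` and the resulting lower bound
`w ^ β ≤ (15 / 4) k` with `β = log₂ σ`, `σ = (11 + √33) / 4 > 4.186`.
-/

set_option autoImplicit false

namespace Pool.Agent.Helper26.SQ2

open Pool.Agent.Helper3.DW Pool.Agent.Helper26.SQ
open Pool.Agent.Helper18.SQ (TopR VG fg_of_vg vg_base fg_one)

theorem vg_step {j m v g g' : ℕ} (h : VG j m v g) (hg : 2 * g' ≤ 4 * v + 5 * g + 1) :
    VG (2 * j) m (3 * v + g) g' :=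
  ⟨fg_of_vg h, top_step h (fg_of_vg h) (by omega)⟩

/-- The numbers of colours for the widths `2, 4, 8, …`. -/
def vh : ℕ → ℕ × ℕ
  | 0 => (5, 5)
  | (i + 1) => (3 * (vh i).1 + (vh i).2, (4 * (vh i).1 + 5 * (vh i).2 + 1) / 2)

theorem vh_all : ∀ i : ℕ, VG (2 ^ (i + 1)) 1 (vh i).1 (vh i).2
  | 0 => vg_base
  | (i + 1) => by
    have h := vg_step (g' := (4 * (vh i).1 + 5 * (vh i).2 + 1) / 2) (vh_all i) (by omega)
    have e : 2 ^ (i + 1 + 1) = 2 * 2 ^ (i + 1) := by ring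
    rw [e]
    exact h

/-- The growth rate of the recursion. -/
noncomputable def tau : ℝ := (11 + Real.sqrt 33) / 4

theorem tau_sq : tau * (tau - 3) = 2 + 5 / 2 * (tau - 3) := by
  have h : Real.sqrt 33 ^ 2 = 33 := Real.sq_sqrt (by norm_num)
  unfold tau
  nlinarith [h]

theorem tau_gt : (4.18614 : ℝ) < tau := by
  have : (5.74456 : ℝ) < Real.sqrt 33 := by
    rw [Real.lt_sqrt (by norm_num)]
    norm_num
  unfold tau
  linarith

theorem tau_lt : tau < 4.1862 := by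
  have : Real.sqrt 33 < 5.7448 := by
    rw [Real.sqrt_lt' (by norm_num)]
    norm_num
  unfold tau
  linarith

theorem tau_pos : 0 < tau := by have := tau_gt; linarith

theorem tau_pow_le : ∀ i : ℕ, 1.126 * tau ^ (i + 3) ≤ ((vh (i + 2)).1 : ℝ) ∧
    1.126 * (tau - 3) * tau ^ (i + 3) ≤ ((vh (i + 2)).2 : ℝ)
  | 0 => by
    have h1 := tau_lt
    have h2 := tau_gt
    have e1 : (vh 2).1 = 83 := by decide
    have e2 : (vh 2).2 = 98 := by decide
    have e3 : tau ^ (0 + 3) ≤ 4.1862 ^ 3 := pow_le_pow_left₀ tau_pos.le h1.le 3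
    have e4 : tau ^ (0 + 3) * (tau - 3) ≤ 4.1862 ^ 3 * 1.1862 := by
      refine mul_le_mul e3 (by linarith) (by linarith) (by norm_num)
    rw [e1, e2]
    constructor
    · refine (mul_le_mul_of_nonneg_left e3 (by norm_num)).trans ?_
      norm_num
    · have e5 : 1.126 * (tau - 3) * tau ^ (0 + 3) = 1.126 * (tau ^ (0 + 3) * (tau - 3)) := by ring
      rw [e5]
      refine (mul_le_mul_of_nonneg_left e4 (by norm_num)).trans ?_
      norm_num
  | (i + 1) => by
    obtain ⟨h1, h2⟩ := tau_pow_le i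
    have hs := tau_sq
    have hp : 0 < tau ^ (i + 3) := pow_pos tau_pos _
    have e0 : vh (i + 1 + 2) = (3 * (vh (i + 2)).1 + (vh (i + 2)).2,
      (4 * (vh (i + 2)).1 + 5 * (vh (i + 2)).2 + 1) / 2) := rfl
    have h3 : 4 * (vh (i + 2)).1 + 5 * (vh (i + 2)).2 ≤
        2 * ((4 * (vh (i + 2)).1 + 5 * (vh (i + 2)).2 + 1) / 2) := by omega
    have h4 : 4 * ((vh (i + 2)).1 : ℝ) + 5 * ((vh (i + 2)).2 : ℝ) ≤
        2 * (((4 * (vh (i + 2)).1 + 5 * (vh (i + 2)).2 + 1) / 2 : ℕ) : ℝ) := by exact_mod_cast h3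
    rw [e0]
    constructor
    · have e : 1.126 * tau ^ (i + 1 + 3) =
          3 * (1.126 * tau ^ (i + 3)) + 1.126 * (tau - 3) * tau ^ (i + 3) := by ring
      rw [e]
      push_cast
      linarith
    · have e : 1.126 * (tau - 3) * tau ^ (i + 1 + 3) =
          2 * (1.126 * tau ^ (i + 3)) + 5 / 2 * (1.126 * (tau - 3) * tau ^ (i + 3)) := by
        have : 1.126 * (tau - 3) * tau ^ (i + 1 + 3) =
          1.126 * tau ^ (i + 3) * (tau * (tau - 3)) := by ring
        rw [this, hs]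
        ring
      rw [e]
      linarith

/-- The numbers for all the widths. -/
theorem tau_pow_le2 (i : ℕ) : tau ^ (i + 2) ≤ 15 / 4 * ((vh i).1 : ℝ) := by
  have h1 := tau_lt
  have h2 := tau_gt
  rcases i with _ | _ | i
  · have e1 : (vh 0).1 = 5 := rfl
    rw [e1]
    refine (pow_le_pow_left₀ tau_pos.le h1.le 2).trans ?_
    norm_num
  · have e1 : (vh (0 + 1)).1 = 20 := by decide
    rw [e1]
    refine (pow_le_pow_left₀ tau_pos.le h1.le 3).trans ?_
    norm_num
  · obtain ⟨h3, -⟩ := tau_pow_le i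
    have e1 : tau ^ (i + 1 + 1 + 2) = tau * tau ^ (i + 3) := by ring
    have e2 : vh (i + 1 + 1) = vh (i + 2) := rfl
    have h8 : 0 < tau ^ (i + 3) := pow_pos tau_pos _
    rw [e1, e2]
    nlinarith

/-- The exponent. -/
noncomputable def beta2 : ℝ := Real.logb 2 tau

theorem two_rpow_beta2 : (2 : ℝ) ^ beta2 = tau := by
  unfold beta2
  exact Real.rpow_logb (by norm_num) (by norm_num) tau_pos

theorem beta2_gt : (2.0656 : ℝ) < beta2 := by
  have h1 : (787 / 381 : ℝ) < beta2 := by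
    unfold beta2
    rw [Real.lt_logb_iff_rpow_lt (by norm_num) tau_pos]
    have h2 : ((2 : ℝ) ^ (787 / 381 : ℝ)) ^ 381 = 2 ^ 787 := by
      rw [← Real.rpow_natCast, ← Real.rpow_mul (by norm_num), ← Real.rpow_natCast]
      norm_num
    have h3 : (2 : ℝ) ^ 787 < tau ^ 381 := by
      have h4 : (4.18614 : ℝ) ^ 381 < tau ^ 381 :=
        pow_lt_pow_left₀ tau_gt (by norm_num) (by norm_num)
      have h5 : (2 : ℝ) ^ 787 < 4.18614 ^ 381 := by
        have e1 : (2 : ℝ) ^ 787 = 2 * (((2 : ℝ) ^ 131) ^ 2) ^ 3 := by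
          rw [← pow_mul, ← pow_mul, ← pow_succ']
        have e2 : (4.18614 : ℝ) ^ 381 = ((4.18614 : ℝ) ^ 127) ^ 3 := by
          rw [← pow_mul]
        rw [e1, e2]
        norm_num
      exact h5.trans h4
    rw [← h2] at h3
    exact lt_of_pow_lt_pow_left₀ 381 tau_pos.le h3
  have h2 : (2.0656 : ℝ) < 787 / 381 := by norm_num
  exact h2.trans h1

theorem beta2_pos : 0 < beta2 := by have := beta2_gt; linarith

/-- The general bound. -/
theorem bound (w k : ℕ) (h : Suffices w k) : (w : ℝ) ^ beta2 ≤ 15 / 4 * (k : ℝ) := by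
  rcases Nat.eq_zero_or_pos w with rfl | hw
  · rw [Nat.cast_zero, Real.zero_rpow beta2_pos.ne']
    exact mul_nonneg (by norm_num) (Nat.cast_nonneg k)
  · have h1 : 2 ^ Nat.log 2 w ≤ w := Nat.pow_log_le_self 2 hw.ne'
    have h2 : w < 2 ^ (Nat.log 2 w + 1) := Nat.lt_pow_succ_log_self (by norm_num) w
    rcases Nat.eq_zero_or_pos (Nat.log 2 w) with h0 | h0
    · rw [h0] at h2
      have : w = 1 := by omega
      subst this
      have h3 : 1 ≤ k := le_of_suffices fg_one h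
      have h3' : (1 : ℝ) ≤ (k : ℝ) := by exact_mod_cast h3
      rw [Nat.cast_one, Real.one_rpow]
      linarith
    obtain ⟨i, hi⟩ : ∃ i, Nat.log 2 w = i + 1 := ⟨Nat.log 2 w - 1, by omega⟩
    rw [hi] at h1 h2
    have h3 : (vh i).1 ≤ k := le_of_suffices ((vh_all i).1.mono h1 le_rfl) h
    have h3' : ((vh i).1 : ℝ) ≤ (k : ℝ) := by exact_mod_cast h3
    have h4 : (w : ℝ) ^ beta2 ≤ ((2 : ℝ) ^ (i + 1 + 1)) ^ beta2 := by
      refine Real.rpow_le_rpow (Nat.cast_nonneg w) ?_ beta2_pos.le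
      exact_mod_cast h2.le
    have h5 : ((2 : ℝ) ^ (i + 1 + 1)) ^ beta2 = tau ^ (i + 2) := by
      rw [← Real.rpow_natCast, ← Real.rpow_mul (by norm_num), mul_comm, Real.rpow_mul (by norm_num),
        two_rpow_beta2, Real.rpow_natCast]
    have h6 := tau_pow_le2 i
    rw [h5] at h4
    linarith

/-- A covering of all computable posets of width `w` needs at least `(4 / 15) w ^ 2.0656`
chains. -/
theorem bound_num (w k : ℕ) (h : Suffices w k) :
    (w : ℝ) ^ (2.0656 : ℝ) ≤ 15 / 4 * (k : ℝ) := by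
  rcases Nat.eq_zero_or_pos w with rfl | hw
  · rw [Nat.cast_zero, Real.zero_rpow (by norm_num)]
    exact mul_nonneg (by norm_num) (Nat.cast_nonneg k)
  · refine (Real.rpow_le_rpow_of_exponent_le ?_ beta2_gt.le).trans (bound w k h)
    exact_mod_cast hw

end Pool.Agent.Helper26.SQ2
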