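import Pool.Agent.Helper26.SQ2.Main2

/-!
The recursion `v' = 3 v + g`, `g' = ⌊(17 v + 11 g + 5) / 6⌋` and the resulting lower bound
`w ^ β ≤ (37 / 10) k` with `β = log₂ σ`, `σ = (29 + √457) / 12 > 4.1981`.
-/

set_option autoImplicit false

namespace Pool.Agent.Helper26.SQ2.Car

open Pool.Agent.Helper3.DW Pool.Agent.Helper26.SQ
open Pool.Agent.Helper18.SQ (TopR VG vg_base fg_one)

/-- The numbers of colours for the widths `2, 4, 8, …`. -/
def vg : ℕ → ℕ × ℕ
  | 0 => (5, 5)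
  | (i + 1) => (3 * (vg i).1 + (vg i).2, (17 * (vg i).1 + 11 * (vg i).2 + 5) / 6)

theorem vg_all : ∀ i : ℕ, VG (2 ^ (i + 1)) 1 (vg i).1 (vg i).2
  | 0 => vg_base
  | (i + 1) => by
    have h := vg_car (g' := (17 * (vg i).1 + 11 * (vg i).2 + 5) / 6) (vg_all i) (by omega)
    have e : 2 ^ (i + 1 + 1) = 2 * 2 ^ (i + 1) := by ring
    rw [e]
    exact h

/-- The growth rate of the recursion. -/
noncomputable def sig : ℝ := (29 + Real.sqrt 457) / 12

theorem sig_sq : sig * (sig - 3) = 17 / 6 + 11 / 6 * (sig - 3) := by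
  have h : Real.sqrt 457 ^ 2 = 457 := Real.sq_sqrt (by norm_num)
  unfold sig
  nlinarith [h]

theorem sig_gt : (4.1981 : ℝ) < sig := by
  have : (21.3773 : ℝ) < Real.sqrt 457 := by
    rw [Real.lt_sqrt (by norm_num)]
    norm_num
  unfold sig
  linarith

theorem sig_lt : sig < 4.1982 := by
  have : Real.sqrt 457 < 21.378 := by
    rw [Real.sqrt_lt' (by norm_num)]
    norm_num
  unfold sig
  linarith

theorem sig_pos : 0 < sig := by have := sig_gt; linarith

theorem sig_pow_le : ∀ i : ℕ, 1.1347 * sig ^ (i + 2) ≤ ((vg (i + 1)).1 : ℝ) ∧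
    1.1347 * (sig - 3) * sig ^ (i + 2) ≤ ((vg (i + 1)).2 : ℝ)
  | 0 => by
    have h1 := sig_lt
    have h2 := sig_gt
    have e1 : (vg (0 + 1)).1 = 20 := by decide
    have e2 : (vg (0 + 1)).2 = 24 := by decide
    have e3 : sig ^ (0 + 2) ≤ 4.1982 ^ 2 := pow_le_pow_left₀ sig_pos.le h1.le 2
    have e4 : sig ^ (0 + 2) * (sig - 3) ≤ 4.1982 ^ 2 * 1.1982 := by
      refine mul_le_mul e3 (by linarith) (by linarith) (by norm_num)
    rw [e1, e2]
    constructor
    · refine (mul_le_mul_of_nonneg_left e3 (by norm_num)).trans ?_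
      norm_num
    · have e5 : 1.1347 * (sig - 3) * sig ^ (0 + 2) = 1.1347 * (sig ^ (0 + 2) * (sig - 3)) := by
        ring
      rw [e5]
      refine (mul_le_mul_of_nonneg_left e4 (by norm_num)).trans ?_
      norm_num
  | (i + 1) => by
    obtain ⟨h1, h2⟩ := sig_pow_le i
    have hs := sig_sq
    have hp : 0 < sig ^ (i + 2) := pow_pos sig_pos _
    have e0 : vg (i + 1 + 1) = (3 * (vg (i + 1)).1 + (vg (i + 1)).2,
      (17 * (vg (i + 1)).1 + 11 * (vg (i + 1)).2 + 5) / 6) := rfl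
    have h3 : 17 * (vg (i + 1)).1 + 11 * (vg (i + 1)).2 ≤
        6 * ((17 * (vg (i + 1)).1 + 11 * (vg (i + 1)).2 + 5) / 6) := by omega
    have h4 : 17 * ((vg (i + 1)).1 : ℝ) + 11 * ((vg (i + 1)).2 : ℝ) ≤
        6 * (((17 * (vg (i + 1)).1 + 11 * (vg (i + 1)).2 + 5) / 6 : ℕ) : ℝ) := by
      exact_mod_cast h3
    rw [e0]
    constructor
    · have e : 1.1347 * sig ^ (i + 1 + 2) =
          3 * (1.1347 * sig ^ (i + 2)) + 1.1347 * (sig - 3) * sig ^ (i + 2) := by ring
      rw [e]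
      push_cast
      linarith
    · have e : 1.1347 * (sig - 3) * sig ^ (i + 1 + 2) =
          17 / 6 * (1.1347 * sig ^ (i + 2)) + 11 / 6 * (1.1347 * (sig - 3) * sig ^ (i + 2)) := by
        have : 1.1347 * (sig - 3) * sig ^ (i + 1 + 2) =
          1.1347 * sig ^ (i + 2) * (sig * (sig - 3)) := by ring
        rw [this, hs]
        ring
      rw [e]
      linarith

/-- The numbers for all the widths. -/
theorem sig_pow_le2 (i : ℕ) : sig ^ (i + 2) ≤ 37 / 10 * ((vg i).1 : ℝ) := by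
  have h1 := sig_lt
  have h2 := sig_gt
  rcases i with _ | i
  · have e1 : (vg 0).1 = 5 := rfl
    rw [e1]
    refine (pow_le_pow_left₀ sig_pos.le h1.le 2).trans ?_
    norm_num
  · obtain ⟨h3, -⟩ := sig_pow_le i
    have e1 : sig ^ (i + 1 + 2) = sig * sig ^ (i + 2) := by ring
    have h8 : 0 < sig ^ (i + 2) := pow_pos sig_pos _
    have h9 : sig * sig ^ (i + 2) ≤ 4.1982 * sig ^ (i + 2) :=
      mul_le_mul_of_nonneg_right h1.le h8.le
    rw [e1]
    linarith

/-- The exponent. -/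
noncomputable def beta : ℝ := Real.logb 2 sig

theorem two_rpow_beta : (2 : ℝ) ^ beta = sig := by
  unfold beta
  exact Real.rpow_logb (by norm_num) (by norm_num) sig_pos

theorem beta_gt : (2.0697 : ℝ) < beta := by
  have h1 : (772 / 373 : ℝ) < beta := by
    unfold beta
    rw [Real.lt_logb_iff_rpow_lt (by norm_num) sig_pos]
    have h2 : ((2 : ℝ) ^ (772 / 373 : ℝ)) ^ 373 = 2 ^ 772 := by
      rw [← Real.rpow_natCast, ← Real.rpow_mul (by norm_num), ← Real.rpow_natCast]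
      norm_num
    have h3 : (2 : ℝ) ^ 772 < sig ^ 373 := by
      have h4 : (4.1981 : ℝ) ^ 373 < sig ^ 373 :=
        pow_lt_pow_left₀ sig_gt (by norm_num) (by norm_num)
      have h5 : (2 : ℝ) ^ 772 < 4.1981 ^ 373 := by
        have e1 : (2 : ℝ) ^ 772 = (((2 : ℝ) ^ 193) ^ 2) ^ 2 := by
          rw [← pow_mul, ← pow_mul]
        have e2 : (4.1981 : ℝ) ^ 373 = 4.1981 * ((4.1981 : ℝ) ^ 124) ^ 3 := by
          rw [← pow_mul, ← pow_succ']
        rw [e1, e2]
        norm_num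
      exact h5.trans h4
    rw [← h2] at h3
    exact lt_of_pow_lt_pow_left₀ 373 sig_pos.le h3
  have h2 : (2.0697 : ℝ) < 772 / 373 := by norm_num
  exact h2.trans h1

theorem beta_pos : 0 < beta := by have := beta_gt; linarith

/-- The general bound. -/
theorem bound (w k : ℕ) (h : Suffices w k) : (w : ℝ) ^ beta ≤ 37 / 10 * (k : ℝ) := by
  rcases Nat.eq_zero_or_pos w with rfl | hw
  · rw [Nat.cast_zero, Real.zero_rpow beta_pos.ne']
    exact mul_nonneg (by norm_num) (Nat.cast_nonneg k)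
  · have h1 : 2 ^ Nat.log 2 w ≤ w := Nat.pow_log_le_self 2 hw.ne'
    have h2 : w < 2 ^ (Nat.log 2 w + 1) := Nat.lt_pow_succ_log_self (by norm_num) w
    rcases Nat.eq_zero_or_pos (Nat.log 2 w) with h0 | h0
    · rw [h0] at h2
      have : w = 1 := by omega
      subst this
      have h3 : 1 ≤ k := le_of_suffices fg_one h
      have h3' : (1 : ℝ) ≤ (k : ℝ) := by exact_mod_cast h3
      rw [Nat.cast_one, Real.one_rpow]
      linarith
    obtain ⟨i, hi⟩ : ∃ i, Nat.log 2 w = i + 1 := ⟨Nat.log 2 w - 1, by omega⟩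
    rw [hi] at h1 h2
    have h3 : (vg i).1 ≤ k := le_of_suffices ((vg_all i).1.mono h1 le_rfl) h
    have h3' : ((vg i).1 : ℝ) ≤ (k : ℝ) := by exact_mod_cast h3
    have h4 : (w : ℝ) ^ beta ≤ ((2 : ℝ) ^ (i + 1 + 1)) ^ beta := by
      refine Real.rpow_le_rpow (Nat.cast_nonneg w) ?_ beta_pos.le
      exact_mod_cast h2.le
    have h5 : ((2 : ℝ) ^ (i + 1 + 1)) ^ beta = sig ^ (i + 2) := by
      rw [← Real.rpow_natCast, ← Real.rpow_mul (by norm_num), mul_comm, Real.rpow_mul (by norm_num),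
        two_rpow_beta, Real.rpow_natCast]
    have h6 := sig_pow_le2 i
    rw [h5] at h4
    linarith

/-- A covering of all computable posets of width `w` needs at least `(10 / 37) w ^ 2.0697`
chains. -/
theorem bound_num (w k : ℕ) (h : Suffices w k) :
    (w : ℝ) ^ (2.0697 : ℝ) ≤ 37 / 10 * (k : ℝ) := by
  rcases Nat.eq_zero_or_pos w with rfl | hw
  · rw [Nat.cast_zero, Real.zero_rpow (by norm_num)]
    exact mul_nonneg (by norm_num) (Nat.cast_nonneg k)
  · refine (Real.rpow_le_rpow_of_exponent_le ?_ beta_gt.le).trans (bound w k h)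
    exact_mod_cast hw

end Pool.Agent.Helper26.SQ2.Car
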