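import Pool.Agent.Helper26.SQ2.Step3

/-!
The recursion `v' = 3 v + g`, `g' = 2 v + 3 g` and the resulting lower bound
`w ^ β ≤ (23 / 5) k` with `β = log₂ (3 + √2)`.
-/

set_option autoImplicit false

namespace Pool.Agent.Helper26.SQ2.Col

open Pool.Agent.Helper3.DW Pool.Agent.Helper26.SQ
open Pool.Agent.Helper18.SQ (TopR VG vg_base fg_one)

/-- The numbers of colours for the widths `2, 4, 8, …`. -/
def vg : ℕ → ℕ × ℕ
  | 0 => (5, 5)
  | (i + 1) => (3 * (vg i).1 + (vg i).2, 2 * (vg i).1 + 3 * (vg i).2)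

theorem vg_all : ∀ i : ℕ, VG (2 ^ (i + 1)) 1 (vg i).1 (vg i).2
  | 0 => vg_base
  | (i + 1) => by
    have h := vg_col (vg_all i)
    have e : 2 ^ (i + 1 + 1) = 2 * 2 ^ (i + 1) := by ring
    rw [e]
    exact h

/-- The growth rate of the recursion. -/
noncomputable def sig : ℝ := 3 + Real.sqrt 2

theorem sq2 : Real.sqrt 2 * Real.sqrt 2 = 2 := Real.mul_self_sqrt (by norm_num)

theorem sq_gt : (1.41421 : ℝ) < Real.sqrt 2 := by
  rw [Real.lt_sqrt (by norm_num)]
  norm_num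

theorem sq_lt : Real.sqrt 2 < 1.41422 := by
  rw [Real.sqrt_lt' (by norm_num)]
  norm_num

theorem sig_gt : (4.4142 : ℝ) < sig := by
  have := sq_gt
  unfold sig
  linarith

theorem sig_pos : 0 < sig := by have := sig_gt; linarith

theorem sum_eq : ∀ i : ℕ, Real.sqrt 2 * ((vg i).1 : ℝ) + ((vg i).2 : ℝ) =
    (5 * Real.sqrt 2 + 5) * sig ^ i
  | 0 => by
    simp only [vg]
    push_cast
    ring
  | (i + 1) => by
    have h := sum_eq i
    have e : (5 * Real.sqrt 2 + 5) * sig ^ (i + 1) = sig * ((5 * Real.sqrt 2 + 5) * sig ^ i) := by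
      ring
    rw [e, ← h]
    have h2 := sq2
    simp only [vg]
    unfold sig
    push_cast
    have e2 : (3 + Real.sqrt 2) * (Real.sqrt 2 * ((vg i).1 : ℝ) + ((vg i).2 : ℝ)) =
      3 * Real.sqrt 2 * ((vg i).1 : ℝ) + (Real.sqrt 2 * Real.sqrt 2) * ((vg i).1 : ℝ) +
        3 * ((vg i).2 : ℝ) + Real.sqrt 2 * ((vg i).2 : ℝ) := by ring
    rw [e2, h2]
    ring

theorem le_mul : ∀ i : ℕ, ((vg i).2 : ℝ) ≤ Real.sqrt 2 * ((vg i).1 : ℝ)
  | 0 => by
    have := sq_gt
    simp only [vg]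
    push_cast
    linarith
  | (i + 1) => by
    have h := le_mul i
    have h1 := sq_gt
    have h3 := sq_lt
    simp only [vg]
    push_cast
    have e2 : Real.sqrt 2 * (3 * ((vg i).1 : ℝ) + ((vg i).2 : ℝ)) -
        (2 * ((vg i).1 : ℝ) + 3 * ((vg i).2 : ℝ)) =
        (3 - Real.sqrt 2) * (Real.sqrt 2 * ((vg i).1 : ℝ) - ((vg i).2 : ℝ)) +
          (Real.sqrt 2 * Real.sqrt 2 - 2) * ((vg i).1 : ℝ) := by ring
    have h4 : 0 ≤ (3 - Real.sqrt 2) * (Real.sqrt 2 * ((vg i).1 : ℝ) - ((vg i).2 : ℝ)) :=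
      mul_nonneg (by linarith) (by linarith)
    rw [sq2] at e2
    linarith

/-- The numbers for all the widths. -/
theorem sig_pow_le (i : ℕ) : sig ^ (i + 2) ≤ 457 / 100 * ((vg i).1 : ℝ) := by
  have h1 := sum_eq i
  have h2 := le_mul i
  have h3 := sq_gt
  have h4 := sq_lt
  have h5 := sq2
  have hv : (0 : ℝ) ≤ ((vg i).1 : ℝ) := Nat.cast_nonneg _
  have hp : 0 < sig ^ i := pow_pos sig_pos _
  -- `5 (√2 + 1) σ ^ i ≤ 2 √2 v`
  have h6 : (5 * Real.sqrt 2 + 5) * sig ^ i ≤ 2 * Real.sqrt 2 * ((vg i).1 : ℝ) := by linarith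
  have e1 : sig ^ (i + 2) = (20 + 2 * Real.sqrt 2) / 5 / (2 * Real.sqrt 2) *
      ((5 * Real.sqrt 2 + 5) * sig ^ i) := by
    have h7 : (2 * Real.sqrt 2) ≠ 0 := by positivity
    have e2 : sig ^ (i + 2) = sig ^ 2 * sig ^ i := by ring
    rw [e2]
    field_simp
    unfold sig
    have e3 : Real.sqrt 2 ^ 2 = 2 := by rw [sq]; exact h5
    have e4 : Real.sqrt 2 ^ 3 = 2 * Real.sqrt 2 := by rw [pow_succ, e3]
    ring_nf
    rw [e4, e3]
    ring
  have h8 : 0 ≤ (20 + 2 * Real.sqrt 2) / 5 / (2 * Real.sqrt 2) := by positivity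
  rw [e1]
  refine (mul_le_mul_of_nonneg_left h6 h8).trans ?_
  have e5 : (20 + 2 * Real.sqrt 2) / 5 / (2 * Real.sqrt 2) * (2 * Real.sqrt 2 * ((vg i).1 : ℝ)) =
      (20 + 2 * Real.sqrt 2) / 5 * ((vg i).1 : ℝ) := by
    have h7 : (2 * Real.sqrt 2) ≠ 0 := by positivity
    field_simp
  rw [e5]
  refine mul_le_mul_of_nonneg_right ?_ hv
  linarith

/-- The exponent. -/
noncomputable def beta : ℝ := Real.logb 2 sig

theorem two_rpow_beta : (2 : ℝ) ^ beta = sig := by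
  unfold beta
  exact Real.rpow_logb (by norm_num) (by norm_num) sig_pos

theorem beta_gt : (2.1421 : ℝ) < beta := by
  have h1 : (407 / 190 : ℝ) < beta := by
    unfold beta
    rw [Real.lt_logb_iff_rpow_lt (by norm_num) sig_pos]
    have h2 : ((2 : ℝ) ^ (407 / 190 : ℝ)) ^ 190 = 2 ^ 407 := by
      rw [← Real.rpow_natCast, ← Real.rpow_mul (by norm_num), ← Real.rpow_natCast]
      norm_num
    have h3 : (2 : ℝ) ^ 407 < sig ^ 190 := by
      have h4 : (4.4142 : ℝ) ^ 190 < sig ^ 190 :=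
        pow_lt_pow_left₀ sig_gt (by norm_num) (by norm_num)
      have h5 : (2 : ℝ) ^ 407 < 4.4142 ^ 190 := by
        have e1 : (2 : ℝ) ^ 407 = 2 * ((2 : ℝ) ^ 203) ^ 2 := by
          rw [← pow_mul, ← pow_succ']
        have e2 : (4.4142 : ℝ) ^ 190 = ((4.4142 : ℝ) ^ 95) ^ 2 := by
          rw [← pow_mul]
        rw [e1, e2]
        norm_num
      exact h5.trans h4
    rw [← h2] at h3
    exact lt_of_pow_lt_pow_left₀ 190 sig_pos.le h3
  have h2 : (2.1421 : ℝ) < 407 / 190 := by norm_num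
  exact h2.trans h1

theorem beta_pos : 0 < beta := by have := beta_gt; linarith

/-- The general bound. -/
theorem bound (w k : ℕ) (h : Suffices w k) : (w : ℝ) ^ beta ≤ 457 / 100 * (k : ℝ) := by
  rcases Nat.eq_zero_or_pos w with rfl | hw
  · rw [Nat.cast_zero, Real.zero_rpow beta_pos.ne']
    exact mul_nonneg (by norm_num) (Nat.cast_nonneg k)
  · have h1 : 2 ^ Nat.log 2 w ≤ w := Nat.pow_log_le_self 2 hw.ne'
    have h2 : w < 2 ^ (Nat.log 2 w + 1) := Nat.lt_pow_succ_log_self (by norm_num) w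
    rcases Nat.eq_zero_or_pos (Nat.log 2 w) with h0 | h0
    · rw [h0] at h2
      have : w = 1 := by omega
      subst this
      have h3 : 1 ≤ k := le_of_suffices fg_one h
      have h3' : (1 : ℝ) ≤ (k : ℝ) := by exact_mod_cast h3
      rw [Nat.cast_one, Real.one_rpow]
      linarith
    obtain ⟨i, hi⟩ : ∃ i, Nat.log 2 w = i + 1 := ⟨Nat.log 2 w - 1, by omega⟩
    rw [hi] at h1 h2
    have h3 : (vg i).1 ≤ k := le_of_suffices ((vg_all i).1.mono h1 le_rfl) h
    have h3' : ((vg i).1 : ℝ) ≤ (k : ℝ) := by exact_mod_cast h3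
    have h4 : (w : ℝ) ^ beta ≤ ((2 : ℝ) ^ (i + 1 + 1)) ^ beta := by
      refine Real.rpow_le_rpow (Nat.cast_nonneg w) ?_ beta_pos.le
      exact_mod_cast h2.le
    have h5 : ((2 : ℝ) ^ (i + 1 + 1)) ^ beta = sig ^ (i + 2) := by
      rw [← Real.rpow_natCast, ← Real.rpow_mul (by norm_num), mul_comm, Real.rpow_mul (by norm_num),
        two_rpow_beta, Real.rpow_natCast]
    have h6 := sig_pow_le i
    rw [h5] at h4
    linarith

/-- A covering of all computable posets of width `w` needs at least `(100 / 457) w ^ 2.1421`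
chains. -/
theorem bound_num (w k : ℕ) (h : Suffices w k) :
    (w : ℝ) ^ (2.1421 : ℝ) ≤ 457 / 100 * (k : ℝ) := by
  rcases Nat.eq_zero_or_pos w with rfl | hw
  · rw [Nat.cast_zero, Real.zero_rpow (by norm_num)]
    exact mul_nonneg (by norm_num) (Nat.cast_nonneg k)
  · refine (Real.rpow_le_rpow_of_exponent_le ?_ beta_gt.le).trans (bound w k h)
    exact_mod_cast hw

end Pool.Agent.Helper26.SQ2.Col
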