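import Pool.Agent.Helper26.SQ2.MainA

/-!
The recursion `v' = 3 v + g`, `g' = 2 v + g + d`, `d' = 6 v + 3 g + d` and the resulting lower
bound `w ^ β ≤ (467 / 100) k` with `β = log₂ (2 + √6)`.
-/

set_option autoImplicit false

namespace Pool.Agent.Helper26.SQ2.Six

open Pool.Agent.Helper3.DW Pool.Agent.Helper26.SQ
open Pool.Agent.Helper18.SQ (TopR VG vg_base fg_one)

/-- The numbers of colours for the widths `2, 4, 8, …`. -/
def vg : ℕ → ℕ × ℕ × ℕ
  | 0 => (5, 5, 10)
  | (i + 1) => (3 * (vg i).1 + (vg i).2.1, 2 * (vg i).1 + (vg i).2.1 + (vg i).2.2,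
      6 * (vg i).1 + 3 * (vg i).2.1 + (vg i).2.2)

theorem vg_all : ∀ i : ℕ, VGD (2 ^ (i + 1)) 1 (vg i).1 (vg i).2.1 (vg i).2.2
  | 0 => vgd_of_vg vg_base
  | (i + 1) => by
    have h := vgd_step (vg_all i)
    have e : 2 ^ (i + 1 + 1) = 2 * 2 ^ (i + 1) := by ring
    rw [e]
    exact h

theorem sq6 : Real.sqrt 6 * Real.sqrt 6 = 6 := Real.mul_self_sqrt (by norm_num)

theorem sq_gt : (2.4494 : ℝ) < Real.sqrt 6 := by
  rw [Real.lt_sqrt (by norm_num)]
  norm_num

theorem sq_lt : Real.sqrt 6 < 2.4495 := by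
  rw [Real.sqrt_lt' (by norm_num)]
  norm_num

/-- The growth rate of the recursion. -/
noncomputable def sig : ℝ := 2 + Real.sqrt 6

/-- The second eigenvalue. -/
noncomputable def mu : ℝ := 2 - Real.sqrt 6

noncomputable def al : ℝ := 2 + 11 * Real.sqrt 6 / 12
noncomputable def be : ℝ := 2 - 11 * Real.sqrt 6 / 12

theorem sig_gt : (4.4494 : ℝ) < sig := by
  have := sq_gt
  unfold sig
  linarith

theorem sig_pos : 0 < sig := by have := sig_gt; linarith

theorem closed : ∀ i : ℕ, ((vg i).1 : ℝ) = al * sig ^ i + be * mu ^ i + 1 ∧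
    ((vg i).2.1 : ℝ) = (Real.sqrt 6 - 1) * (al * sig ^ i) - (Real.sqrt 6 + 1) * (be * mu ^ i) - 2 ∧
    ((vg i).2.2 : ℝ) = 3 * (al * sig ^ i) + 3 * (be * mu ^ i) - 2
  | 0 => by
    have h := sq6
    simp only [vg, al, be, pow_zero]
    refine ⟨?_, ?_, ?_⟩
    · push_cast
      ring
    · push_cast
      nlinarith
    · push_cast
      ring
  | (i + 1) => by
    obtain ⟨h1, h2, h3⟩ := closed i
    have h := sq6
    have e1 : al * sig ^ (i + 1) = (2 + Real.sqrt 6) * (al * sig ^ i) := by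
      rw [pow_succ]
      unfold sig
      ring
    have e2 : be * mu ^ (i + 1) = (2 - Real.sqrt 6) * (be * mu ^ i) := by
      rw [pow_succ]
      unfold mu
      ring
    rw [e1, e2]
    generalize al * sig ^ i = x at *
    generalize be * mu ^ i = y at *
    simp only [vg]
    push_cast
    rw [h1, h2, h3]
    refine ⟨by ring, ?_, by ring⟩
    have e3 : (Real.sqrt 6 - 1) * ((2 + Real.sqrt 6) * x) -
        (Real.sqrt 6 + 1) * ((2 - Real.sqrt 6) * y) =
        (Real.sqrt 6 * Real.sqrt 6) * (x + y) + Real.sqrt 6 * (x - y) - 2 * (x + y) := by ring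
    rw [e3, h]
    ring

theorem low (i : ℕ) : al * sig ^ i ≤ ((vg i).1 : ℝ) := by
  obtain ⟨h1, -, -⟩ := closed i
  have h3 := sq_gt
  have h4 := sq_lt
  have e1 : |be| ≤ 1 := by
    unfold be
    rw [abs_le]
    constructor <;> linarith
  have e2 : |mu| ≤ 1 := by
    unfold mu
    rw [abs_le]
    constructor <;> linarith
  have e3 : |be * mu ^ i| ≤ 1 := by
    rw [abs_mul, abs_pow]
    have := pow_le_one₀ (n := i) (abs_nonneg mu) e2
    exact mul_le_one₀ e1 (by positivity) this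
  have e4 := (abs_le.1 e3).1
  linarith

/-- The numbers for all the widths. -/
theorem sig_pow_le (i : ℕ) : sig ^ (i + 2) ≤ 467 / 100 * ((vg i).1 : ℝ) := by
  have h1 := low i
  have h3 := sq_gt
  have h4 := sq_lt
  have h5 := sq6
  have hp : 0 < sig ^ i := pow_pos sig_pos _
  have e1 : sig ^ (i + 2) = (10 + 4 * Real.sqrt 6) * sig ^ i := by
    have e2 : sig ^ (i + 2) = (sig * sig) * sig ^ i := by ring
    have e3 : sig * sig = 4 + 4 * Real.sqrt 6 + Real.sqrt 6 * Real.sqrt 6 := by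
      unfold sig
      ring
    rw [e2, e3, h5]
    ring
  have e4 : 10 + 4 * Real.sqrt 6 ≤ 467 / 100 * al := by
    unfold al
    linarith
  rw [e1]
  calc (10 + 4 * Real.sqrt 6) * sig ^ i ≤ 467 / 100 * al * sig ^ i :=
        mul_le_mul_of_nonneg_right e4 hp.le
    _ = 467 / 100 * (al * sig ^ i) := by ring
    _ ≤ 467 / 100 * ((vg i).1 : ℝ) := by linarith

/-- The exponent. -/
noncomputable def beta : ℝ := Real.logb 2 sig

theorem two_rpow_beta : (2 : ℝ) ^ beta = sig := by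
  unfold beta
  exact Real.rpow_logb (by norm_num) (by norm_num) sig_pos

theorem beta_gt : (2.1536 : ℝ) < beta := by
  have h1 : (687 / 319 : ℝ) < beta := by
    unfold beta
    rw [Real.lt_logb_iff_rpow_lt (by norm_num) sig_pos]
    have h2 : ((2 : ℝ) ^ (687 / 319 : ℝ)) ^ 319 = 2 ^ 687 := by
      rw [← Real.rpow_natCast, ← Real.rpow_mul (by norm_num), ← Real.rpow_natCast]
      norm_num
    have h3 : (2 : ℝ) ^ 687 < sig ^ 319 := by
      have h4 : (4.4494 : ℝ) ^ 319 < sig ^ 319 :=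
        pow_lt_pow_left₀ sig_gt (by norm_num) (by norm_num)
      have h5 : (2 : ℝ) ^ 687 < 4.4494 ^ 319 := by
        have e1 : (2 : ℝ) ^ 687 = ((2 : ℝ) ^ 229) ^ 3 := by
          rw [← pow_mul]
        have e2 : (4.4494 : ℝ) ^ 319 = ((4.4494 : ℝ) ^ 29) ^ 11 := by
          rw [← pow_mul]
        rw [e1, e2]
        norm_num
      exact h5.trans h4
    rw [← h2] at h3
    exact lt_of_pow_lt_pow_left₀ 319 sig_pos.le h3
  have h2 : (2.1536 : ℝ) < 687 / 319 := by norm_num
  exact h2.trans h1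

theorem beta_pos : 0 < beta := by have := beta_gt; linarith

/-- The general bound. -/
theorem bound (w k : ℕ) (h : Suffices w k) : (w : ℝ) ^ beta ≤ 467 / 100 * (k : ℝ) := by
  rcases Nat.eq_zero_or_pos w with rfl | hw
  · rw [Nat.cast_zero, Real.zero_rpow beta_pos.ne']
    exact mul_nonneg (by norm_num) (Nat.cast_nonneg k)
  · have h1 : 2 ^ Nat.log 2 w ≤ w := Nat.pow_log_le_self 2 hw.ne'
    have h2 : w < 2 ^ (Nat.log 2 w + 1) := Nat.lt_pow_succ_log_self (by norm_num) w
    rcases Nat.eq_zero_or_pos (Nat.log 2 w) with h0 | h0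
    · rw [h0] at h2
      have : w = 1 := by omega
      subst this
      have h3 : 1 ≤ k := le_of_suffices fg_one h
      have h3' : (1 : ℝ) ≤ (k : ℝ) := by exact_mod_cast h3
      rw [Nat.cast_one, Real.one_rpow]
      linarith
    obtain ⟨i, hi⟩ : ∃ i, Nat.log 2 w = i + 1 := ⟨Nat.log 2 w - 1, by omega⟩
    rw [hi] at h1 h2
    have h3 : (vg i).1 ≤ k := le_of_suffices ((vg_all i).vg.1.mono h1 le_rfl) h
    have h3' : ((vg i).1 : ℝ) ≤ (k : ℝ) := by exact_mod_cast h3
    have h4 : (w : ℝ) ^ beta ≤ ((2 : ℝ) ^ (i + 1 + 1)) ^ beta := by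
      refine Real.rpow_le_rpow (Nat.cast_nonneg w) ?_ beta_pos.le
      exact_mod_cast h2.le
    have h5 : ((2 : ℝ) ^ (i + 1 + 1)) ^ beta = sig ^ (i + 2) := by
      rw [← Real.rpow_natCast, ← Real.rpow_mul (by norm_num), mul_comm, Real.rpow_mul (by norm_num),
        two_rpow_beta, Real.rpow_natCast]
    have h6 := sig_pow_le i
    rw [h5] at h4
    linarith

/-- A covering of all computable posets of width `w` needs at least `(100 / 467) w ^ 2.1536`
chains. -/
theorem bound_num (w k : ℕ) (h : Suffices w k) :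
    (w : ℝ) ^ (2.1536 : ℝ) ≤ 467 / 100 * (k : ℝ) := by
  rcases Nat.eq_zero_or_pos w with rfl | hw
  · rw [Nat.cast_zero, Real.zero_rpow (by norm_num)]
    exact mul_nonneg (by norm_num) (Nat.cast_nonneg k)
  · refine (Real.rpow_le_rpow_of_exponent_le ?_ beta_gt.le).trans (bound w k h)
    exact_mod_cast hw

end Pool.Agent.Helper26.SQ2.Six
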