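import Pool.Agent.Helper26.SQ2.MainM

/-!
The numbers of the recursion `vgt_step`, and the resulting lower bound `w ^ 2.18 ≤ (59 / 10) k`.
-/

set_option autoImplicit false

namespace Pool.Agent.Helper26.SQ2.Slo

open Pool.Agent.Helper3.DW Pool.Agent.Helper26.SQ
open Pool.Agent.Helper18.SQ (TopR VG vg_base fg_one)

/-- The state with its numbers, in the unit `2 ^ (i + 1)`. -/
def Gd (i : ℕ) (R : ℝ) : Prop := ∃ v g t : ℕ, VGT (2 ^ (i + 1)) 1 v g t ∧ R ≤ (v : ℝ) ∧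
  1.5316 * R ≤ (g : ℝ) ∧ 1.682 * R ≤ (t : ℝ)

theorem gd_step {i : ℕ} {R : ℝ} (hR : 300 ≤ R) (h0 : Gd i R) (h1 : Gd (i + 1) (4.5316 * R))
    (h3 : Gd (i + 3) (4.5316 ^ 3 * R)) : Gd (i + 4) (4.5316 ^ 4 * R) := by
  obtain ⟨v0, g0, t0, s0, a0, b0, c0⟩ := h0
  obtain ⟨v1, g1, t1, s1, a1, b1, c1⟩ := h1
  obtain ⟨v3, g3, t3, s3, a3, b3, c3⟩ := h3
  have e1 : 2 ^ (i + 1 + 1) = 2 * 2 ^ (i + 1) := by ring
  have e3 : 2 ^ (i + 3 + 1) = 8 * 2 ^ (i + 1) := by ring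
  have e4 : 2 ^ (i + 4 + 1) = 16 * 2 ^ (i + 1) := by ring
  rw [e1] at s1
  rw [e3] at s3
  have s4 := vgt_step s0 s1 s3
  rw [← e4] at s4
  refine ⟨_, _, _, s4, ?_, ?_, ?_⟩
  · push_cast
    norm_num at a3 b3 ⊢
    linarith
  · obtain ⟨k8, q8⟩ : ∃ k, k = kap v0 g0 t0 8 := ⟨_, rfl⟩
    obtain ⟨k9, q9⟩ : ∃ k, k = kap v0 g0 t0 9 := ⟨_, rfl⟩
    obtain ⟨k10, q10⟩ : ∃ k, k = kap v0 g0 t0 10 := ⟨_, rfl⟩
    obtain ⟨k11, q11⟩ : ∃ k, k = kap v0 g0 t0 11 := ⟨_, rfl⟩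
    obtain ⟨k12, q12⟩ : ∃ k, k = kap v0 g0 t0 12 := ⟨_, rfl⟩
    obtain ⟨k13, q13⟩ : ∃ k, k = kap v0 g0 t0 13 := ⟨_, rfl⟩
    obtain ⟨k14, q14⟩ : ∃ k, k = kap v0 g0 t0 14 := ⟨_, rfl⟩
    obtain ⟨k15, q15⟩ : ∃ k, k = kap v0 g0 t0 15 := ⟨_, rfl⟩
    obtain ⟨k16, q16⟩ : ∃ k, k = kap v0 g0 t0 16 := ⟨_, rfl⟩
    rw [← q8, ← q9, ← q10, ← q11, ← q12, ← q13, ← q14, ← q15, ← q16]
    norm_num [kap] at q8 q9 q10 q11 q12 q13 q14 q15 q16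
    have f8 : 7 * (g0 + v0) + 36 * t0 ≤ 4 * k8 + 3 := by omega
    have f9 : 7 * (g0 + v0) + 43 * t0 ≤ 4 * k9 + 3 := by omega
    have f10 : 7 * (g0 + v0) + 50 * t0 ≤ 4 * k10 + 3 := by omega
    have f11 : 9 * (g0 + v0) + 71 * t0 ≤ 5 * k11 + 4 := by omega
    have f12 : 9 * (g0 + v0) + 80 * t0 ≤ 5 * k12 + 4 := by omega
    have f13 : 9 * (g0 + v0) + 89 * t0 ≤ 5 * k13 + 4 := by omega
    have f14 : 9 * (g0 + v0) + 98 * t0 ≤ 5 * k14 + 4 := by omega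
    have f15 : 9 * (g0 + v0) + 107 * t0 ≤ 5 * k15 + 4 := by omega
    have f16 : 11 * (g0 + v0) + 139 * t0 ≤ 6 * k16 + 5 := by omega
    have r8 : (7 * (g0 + v0) + 36 * t0 : ℝ) ≤ 4 * k8 + 3 := by exact_mod_cast f8
    have r9 : (7 * (g0 + v0) + 43 * t0 : ℝ) ≤ 4 * k9 + 3 := by exact_mod_cast f9
    have r10 : (7 * (g0 + v0) + 50 * t0 : ℝ) ≤ 4 * k10 + 3 := by exact_mod_cast f10
    have r11 : (9 * (g0 + v0) + 71 * t0 : ℝ) ≤ 5 * k11 + 4 := by exact_mod_cast f11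
    have r12 : (9 * (g0 + v0) + 80 * t0 : ℝ) ≤ 5 * k12 + 4 := by exact_mod_cast f12
    have r13 : (9 * (g0 + v0) + 89 * t0 : ℝ) ≤ 5 * k13 + 4 := by exact_mod_cast f13
    have r14 : (9 * (g0 + v0) + 98 * t0 : ℝ) ≤ 5 * k14 + 4 := by exact_mod_cast f14
    have r15 : (9 * (g0 + v0) + 107 * t0 : ℝ) ≤ 5 * k15 + 4 := by exact_mod_cast f15
    have r16 : (11 * (g0 + v0) + 139 * t0 : ℝ) ≤ 6 * k16 + 5 := by exact_mod_cast f16
    clear f8 f9 f10 f11 f12 f13 f14 f15 f16 q8 q9 q10 q11 q12 q13 q14 q15 q16 s4 s0 s1 s3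
    push_cast
    norm_num at b3 b0 c0 ⊢
    linarith
  · obtain ⟨k8, q8⟩ : ∃ k, k = kap v1 g1 t1 8 := ⟨_, rfl⟩
    rw [← q8]
    norm_num [kap] at q8
    have f8 : 7 * (g1 + v1) + 36 * t1 ≤ 4 * k8 + 3 := by omega
    have r8 : (7 * (g1 + v1) + 36 * t1 : ℝ) ≤ 4 * k8 + 3 := by exact_mod_cast f8
    push_cast
    norm_num at a1 b1 c1 ⊢
    linarith

theorem vgt0 : VGT (2 ^ (0 + 1)) 1 5 5 5 := vgt_of_vg vg_base

theorem vgt_up {i v g t v' g' t' : ℕ} (h : VGT (2 ^ (i + 1)) 1 v g t) (e1 : 3 * v + g = v')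
    (e2 : 2 * v + 2 * g + t = g') (e3 : 2 * (2 * v + g) = t') :
    VGT (2 ^ (i + 1 + 1)) 1 v' g' t' := by
  have h1 := vgt_one h
  rw [e1, e2, e3] at h1
  have e : 2 ^ (i + 1 + 1) = 2 * 2 ^ (i + 1) := by ring
  rw [e]
  exact h1

theorem vgt1 : VGT (2 ^ (1 + 1)) 1 20 25 30 := vgt_up (i := 0) vgt0 rfl rfl rfl
theorem vgt2 : VGT (2 ^ (2 + 1)) 1 85 120 130 := vgt_up vgt1 rfl rfl rfl
theorem vgt3 : VGT (2 ^ (3 + 1)) 1 375 540 580 := vgt_up vgt2 rfl rfl rfl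
theorem vgt4 : VGT (2 ^ (4 + 1)) 1 1665 2410 2580 := vgt_up vgt3 rfl rfl rfl
theorem vgt5 : VGT (2 ^ (5 + 1)) 1 7405 10730 11480 := vgt_up vgt4 rfl rfl rfl
theorem vgt6 : VGT (2 ^ (6 + 1)) 1 32945 47750 51080 := vgt_up vgt5 rfl rfl rfl

theorem gd_all : ∀ i : ℕ, Gd (3 + i) (4.5316 ^ i * 326) := by
  intro i
  induction i using Nat.strong_induction_on with
  | _ i ih =>
    rcases Nat.lt_or_ge i 4 with hi | hi
    · obtain rfl | rfl | rfl | rfl : i = 0 ∨ i = 1 ∨ i = 2 ∨ i = 3 := by omega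
      · exact ⟨_, _, _, vgt3, by norm_num, by norm_num, by norm_num⟩
      · exact ⟨_, _, _, vgt4, by norm_num, by norm_num, by norm_num⟩
      · exact ⟨_, _, _, vgt5, by norm_num, by norm_num, by norm_num⟩
      · exact ⟨_, _, _, vgt6, by norm_num, by norm_num, by norm_num⟩
    · obtain ⟨n, rfl⟩ : ∃ n, i = n + 4 := ⟨i - 4, by omega⟩
      have h0 := ih n (by omega)
      have h1 := ih (n + 1) (by omega)
      have h3 := ih (n + 3) (by omega)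
      have e1 : (4.5316 : ℝ) ^ (n + 1) * 326 = 4.5316 * (4.5316 ^ n * 326) := by ring
      have e3 : (4.5316 : ℝ) ^ (n + 3) * 326 = 4.5316 ^ 3 * (4.5316 ^ n * 326) := by ring
      have e4 : (4.5316 : ℝ) ^ (n + 4) * 326 = 4.5316 ^ 4 * (4.5316 ^ n * 326) := by ring
      rw [e1] at h1
      rw [e3] at h3
      rw [e4]
      refine gd_step (i := 3 + n) ?_ h0 h1 h3
      have h5 : (1 : ℝ) ≤ 4.5316 ^ n := one_le_pow₀ (by norm_num)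
      linarith

/-- The exponent. -/
theorem two_rpow : (2 : ℝ) ^ (2.18 : ℝ) ≤ 4.5316 := by
  have h2 : ((2 : ℝ) ^ (2.18 : ℝ)) ^ 50 = 2 ^ 109 := by
    rw [← Real.rpow_natCast, ← Real.rpow_mul (by norm_num), ← Real.rpow_natCast]
    norm_num
  have h3 : ((2 : ℝ) ^ (2.18 : ℝ)) ^ 50 ≤ 4.5316 ^ 50 := by
    rw [h2]
    norm_num
  exact le_of_pow_le_pow_left₀ (by norm_num) (by norm_num) h3

theorem low (i : ℕ) : ∃ v : ℕ, FG (2 ^ (i + 1)) 1 v ∧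
    (4.5316 : ℝ) ^ (i + 2) ≤ 59 / 10 * (v : ℝ) := by
  rcases Nat.lt_or_ge i 3 with hi | hi
  · obtain rfl | rfl | rfl : i = 0 ∨ i = 1 ∨ i = 2 := by omega
    · exact ⟨_, vgt0.vg.1, by norm_num⟩
    · exact ⟨_, vgt1.vg.1, by norm_num⟩
    · exact ⟨_, vgt2.vg.1, by norm_num⟩
  · obtain ⟨n, rfl⟩ : ∃ n, i = 3 + n := ⟨i - 3, by omega⟩
    obtain ⟨v, g, t, h, h1, -, -⟩ := gd_all n
    refine ⟨v, h.vg.1, ?_⟩
    have hp : (0 : ℝ) < 4.5316 ^ n := by positivity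
    have e : (4.5316 : ℝ) ^ (3 + n + 2) = 4.5316 ^ 5 * 4.5316 ^ n := by ring
    have e5 : (4.5316 : ℝ) ^ 5 ≤ 59 / 10 * 326 := by norm_num
    rw [e]
    calc (4.5316 : ℝ) ^ 5 * 4.5316 ^ n ≤ 59 / 10 * 326 * 4.5316 ^ n :=
          mul_le_mul_of_nonneg_right e5 hp.le
      _ = 59 / 10 * (4.5316 ^ n * 326) := by ring
      _ ≤ 59 / 10 * (v : ℝ) := by linarith

/-- A covering of all computable posets of width `w` needs at least `(10 / 59) w ^ 2.18` chains. -/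
theorem bound (w k : ℕ) (h : Suffices w k) : (w : ℝ) ^ (2.18 : ℝ) ≤ 59 / 10 * (k : ℝ) := by
  rcases Nat.eq_zero_or_pos w with rfl | hw
  · rw [Nat.cast_zero, Real.zero_rpow (by norm_num)]
    exact mul_nonneg (by norm_num) (Nat.cast_nonneg k)
  · have h1 : 2 ^ Nat.log 2 w ≤ w := Nat.pow_log_le_self 2 hw.ne'
    have h2 : w < 2 ^ (Nat.log 2 w + 1) := Nat.lt_pow_succ_log_self (by norm_num) w
    rcases Nat.eq_zero_or_pos (Nat.log 2 w) with h0 | h0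
    · rw [h0] at h2
      have : w = 1 := by omega
      subst this
      have h3 : 1 ≤ k := le_of_suffices fg_one h
      have h3' : (1 : ℝ) ≤ (k : ℝ) := by exact_mod_cast h3
      rw [Nat.cast_one, Real.one_rpow]
      linarith
    obtain ⟨i, hi⟩ : ∃ i, Nat.log 2 w = i + 1 := ⟨Nat.log 2 w - 1, by omega⟩
    rw [hi] at h1 h2
    obtain ⟨v, hv, hv2⟩ := low i
    have h3 : v ≤ k := le_of_suffices (hv.mono h1 le_rfl) h
    have h3' : (v : ℝ) ≤ (k : ℝ) := by exact_mod_cast h3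
    have h4 : (w : ℝ) ^ (2.18 : ℝ) ≤ ((2 : ℝ) ^ (i + 1 + 1)) ^ (2.18 : ℝ) := by
      refine Real.rpow_le_rpow (Nat.cast_nonneg w) ?_ (by norm_num)
      exact_mod_cast h2.le
    have h5 : ((2 : ℝ) ^ (i + 1 + 1)) ^ (2.18 : ℝ) = ((2 : ℝ) ^ (2.18 : ℝ)) ^ (i + 2) := by
      rw [← Real.rpow_natCast, ← Real.rpow_mul (by norm_num), mul_comm,
        Real.rpow_mul (by norm_num), Real.rpow_natCast]
    have h6 : ((2 : ℝ) ^ (2.18 : ℝ)) ^ (i + 2) ≤ 4.5316 ^ (i + 2) :=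
      pow_le_pow_left₀ (by positivity) two_rpow _
    rw [h5] at h4
    linarith

end Pool.Agent.Helper26.SQ2.Slo
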