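import Pool.Agent.Helper26.SQ2.MainM

/-!
The widths `5 j`, `6 j`, `7 j` from a column and a block beside it; the recursion started in the
unit one.
-/

set_option autoImplicit false

namespace Pool.Agent.Helper26.SQ2

open Pool.Agent.Helper3.DW Pool.Agent.Helper26.SQ
open Pool.Agent.Helper18.SQ (TopR VG vg_base fg_one fg_of_vg)

/-- A block beside a column. -/
theorem fg_col {w p r m q v : ℕ} (hr : r + p ≤ w) (hC : CF w m p q) (hv : FG r m v) :
    FG w m (q + v) := by
  refine ((hC (q + v)).inv (inv_nil w m)).bind ?_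
  rintro P ⟨hP, hI, -⟩
  rcases hP with hP | hP
  swap
  · exact Force.here _ hP
  obtain ⟨L, K, H, h1, h2, h3, h4, h5, h6, h7⟩ := hP
  have hl : ∀ y, y < P.length ↔ y ∈ L ∨ y ∈ K ∨ y ∈ H := by
    intro y
    rw [← h1 y, Finset.mem_range]
  have hh : IsHole w r P L H := by
    refine ⟨fun d hd => (hl d).2 (Or.inl hd), fun u hu => (hl u).2 (Or.inr (Or.inr hu)), ?_, ?_,
      h5, ?_⟩
    · intro a d had hd
      exact h3 d hd a (Finset.mem_range.2 (hI.good.lt_len _ _ had).1) had
    · intro u b hub hu
      exact h4 u hu b (Finset.mem_range.2 (hI.good.lt_len _ _ hub).2) hub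
    · intro s hs ha
      have : s ⊆ K := by
        intro y hy
        obtain ⟨e1, e2, e3⟩ := hs y hy
        rcases (hl y).1 e1 with h | h | h
        · exact absurd h e2
        · exact h
        · exact absurd h e3
      have h8 := h6 s this ha
      omega
  refine (Force.hole0 hI hh hv).imp ?_
  rintro P' ⟨hI', R, hR, hRI, rfl⟩
  have eK : ∀ i ∈ K, i < P.length := fun y hy => (hl y).2 (Or.inr (Or.inl hy))
  have d : Disjoint (colU (glue P L H R) K) (colU (glue P L H R)
      (sh P.length (Finset.range R.length))) := by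
    refine hI'.disj_colU ?_ ?_ ?_
    · intro i hi
      rw [glue_length]
      have := eK i hi
      omega
    · intro i hi
      obtain ⟨j, hj, rfl⟩ := mem_sh.1 hi
      rw [glue_length]
      have := Finset.mem_range.1 hj
      omega
    · intro i hi j hj
      obtain ⟨j, hj', rfl⟩ := mem_sh.1 hj
      have e1 := eK i hi
      refine ⟨by omega, ?_, ?_⟩
      · rw [plt_glue]
        rintro (h | ⟨a, b, h, -, -⟩ | ⟨h, -⟩ | ⟨h, -⟩)
        · have := (hI.good.lt_len _ _ h).2
          omega
        · omega
        · exact (h2 i hi).1 h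
        · have := (hl (P.length + j)).2 (Or.inr (Or.inr h))
          omega
      · rw [plt_glue]
        rintro (h | ⟨a, b, -, h, -⟩ | ⟨h, -⟩ | ⟨h, -⟩)
        · have := (hI.good.lt_len _ _ h).1
          omega
        · omega
        · have := (hl (P.length + j)).2 (Or.inl h)
          omega
        · exact (h2 i hi).2 h
  have e1 : colU (glue P L H R) K = colU P K := colU_suffix (suffix_glue P L H R) eK
  have e2 : colU (glue P L H R) (sh P.length (Finset.range R.length)) = cols R :=
    colU_sh_glue P L H R _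
  rw [e1, e2] at d
  have e3 : colU P K ∪ cols R ⊆ cols (glue P L H R) := by
    rw [← e1, ← e2]
    exact Finset.union_subset (colU_subset_cols _) (colU_subset_cols _)
  have e4 := Finset.card_le_card e3
  rw [Finset.card_union_of_disjoint d] at e4
  have hR' : v ≤ (cols R).card := hR
  show q + v ≤ (cols (glue P L H R)).card
  omega

/-- The top structure with an empty upper part. -/
theorem tg_zero (b m : ℕ) : TG 0 b m 0 := by
  intro M
  refine Force.here _ (Or.inl ⟨fun _ => ∅, fun _ => ∅, ⟨?_, ?_, ?_, ?_, ?_⟩, wd_empty _ _,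
    wd_empty _ _, Finset.Subset.refl _, Nat.zero_le _⟩)
  · intro x; simp
  · intro a _ b _ x hx; simp at hx
  · intro a _; simp [colU]
  · intro a _ b _ _ x hx; simp at hx
  · intro a _ b _ _ x hx; simp at hx

theorem tg_one : TG 1 1 1 1 := by
  have h := tg_upM (p := 1) (c := 1) (q := 1) (cf_of_fg fg_one) (tg_zero 1 1) (by omega) (by omega)
  simpa using h

/-- The unit one. -/
theorem vgt_a : VGT 1 1 1 1 1 := vgt_of_vg (vg_of fg_one tg_one)

/-- The unit two. -/
theorem vgt_b : VGT 2 1 5 5 6 := by
  have h := vgt_one vgt_a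
  exact ⟨⟨fg_five, h.vg.2⟩, h.lo, h.up⟩

theorem fg_three : FG 3 1 9 := by
  have h : CF 3 1 1 4 := by
    have h1 := colK vgt_a 2 2 (K := 4) (by omega) (by omega) (by
      simp only [Finset.sum_range_succ, Finset.sum_range_zero]
      norm_num)
    simpa using h1
  exact fg_col (r := 2) (by omega) h fg_five

/-- The widths between `4 j` and `8 j`. -/
theorem fg_mid {j m v g t v1 g1 t1 v2 : ℕ} (h : VGT j m v g t) (h1 : VGT (2 * j) m v1 g1 t1)
    (h2 : FG (4 * j) m v2) :
    FG (5 * j) m ((5 * (g + v) + 12 * t) / 3 + v2) ∧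
    FG (6 * j) m ((3 * (g1 + v1) + 2 * t1) / 2 + v2) ∧
    FG (7 * j) m ((5 * (g + v) + 22 * t) / 3 + ((3 * (g1 + v1) + 2 * t1) / 2 + v2)) := by
  have c5 : CF (5 * j) m j ((5 * (g + v) + 12 * t) / 3) := by
    refine colK h 4 3 (by omega) (by omega) ?_
    simp only [Finset.sum_range_succ, Finset.sum_range_zero]
    norm_num
    omega
  have c7 : CF (7 * j) m j ((5 * (g + v) + 22 * t) / 3) := by
    refine colK h 6 3 (by omega) (by omega) ?_
    simp only [Finset.sum_range_succ, Finset.sum_range_zero]
    norm_num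
    omega
  have c6 : CF (3 * (2 * j)) m (2 * j) ((3 * (g1 + v1) + 2 * t1) / 2) := by
    refine colK h1 2 2 (by omega) (by omega) ?_
    simp only [Finset.sum_range_succ, Finset.sum_range_zero]
    norm_num
    omega
  have e6 : 3 * (2 * j) = 6 * j := by ring
  rw [e6] at c6
  have f6 := fg_col (r := 4 * j) (by omega) c6 h2
  exact ⟨fg_col (r := 4 * j) (by omega) c5 h2, f6, fg_col (r := 6 * j) (by omega) c7 f6⟩

end Pool.Agent.Helper26.SQ2
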