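import Pool.Agent.Helper26.SQ2.NumM
import Pool.Agent.Helper26.SQ2.Wid

/-!
The lower bound `w ^ 2.18 ≤ 2 k` for all widths.
-/

set_option autoImplicit false

namespace Pool.Agent.Helper26.SQ2.Wide

open Pool.Agent.Helper3.DW Pool.Agent.Helper26.SQ Pool.Agent.Helper26.SQ2.Slo
open Pool.Agent.Helper18.SQ (TopR VG vg_base fg_one)

theorem u0 : VGT (2 ^ (0 + 1)) 1 5 5 6 := vgt_b
theorem u1 : VGT (2 ^ (1 + 1)) 1 20 26 30 := vgt_up (i := 0) u0 rfl rfl rfl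
theorem u2 : VGT (2 ^ (2 + 1)) 1 86 122 132 := vgt_up u1 rfl rfl rfl
theorem u3 : VGT (2 ^ (3 + 1)) 1 380 548 588 := vgt_up u2 rfl rfl rfl
theorem u4 : VGT (2 ^ (4 + 1)) 1 1688 2444 2616 := vgt_up u3 rfl rfl rfl
theorem u5 : VGT (2 ^ (5 + 1)) 1 7508 11449 12416 := by
  have h := vgt_step (j := 4) u1 u2 u4
  norm_num [kap] at h
  exact h
theorem u6 : VGT (2 ^ (6 + 1)) 1 33973 51270 55328 := by
  have h := vgt_step (j := 8) u2 u3 u5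
  norm_num [kap] at h
  exact h

theorem gd_all : ∀ i : ℕ, Gd (3 + i) (4.5316 ^ i * 343.2) := by
  intro i
  induction i using Nat.strong_induction_on with
  | _ i ih =>
    rcases Nat.lt_or_ge i 4 with hi | hi
    · obtain rfl | rfl | rfl | rfl : i = 0 ∨ i = 1 ∨ i = 2 ∨ i = 3 := by omega
      · exact ⟨_, _, _, u3, by norm_num, by norm_num, by norm_num⟩
      · exact ⟨_, _, _, u4, by norm_num, by norm_num, by norm_num⟩
      · exact ⟨_, _, _, u5, by norm_num, by norm_num, by norm_num⟩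
      · exact ⟨_, _, _, u6, by norm_num, by norm_num, by norm_num⟩
    · obtain ⟨n, rfl⟩ : ∃ n, i = n + 4 := ⟨i - 4, by omega⟩
      have h0 := ih n (by omega)
      have h1 := ih (n + 1) (by omega)
      have h3 := ih (n + 3) (by omega)
      have e1 : (4.5316 : ℝ) ^ (n + 1) * 343.2 = 4.5316 * (4.5316 ^ n * 343.2) := by ring
      have e3 : (4.5316 : ℝ) ^ (n + 3) * 343.2 = 4.5316 ^ 3 * (4.5316 ^ n * 343.2) := by ring
      have e4 : (4.5316 : ℝ) ^ (n + 4) * 343.2 = 4.5316 ^ 4 * (4.5316 ^ n * 343.2) := by ring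
      rw [e1] at h1
      rw [e3] at h3
      rw [e4]
      refine gd_step (i := 3 + n) ?_ h0 h1 h3
      have h5 : (1 : ℝ) ≤ 4.5316 ^ n := one_le_pow₀ (by norm_num)
      linarith

/-- The bounds in the widths `4 · 2 ^ i`, …, `7 · 2 ^ i`. -/
def Mid (i : ℕ) : Prop := ∃ a4 a5 a6 a7 : ℕ,
  FG (4 * 2 ^ i) 1 a4 ∧ FG (5 * 2 ^ i) 1 a5 ∧ FG (6 * 2 ^ i) 1 a6 ∧ FG (7 * 2 ^ i) 1 a7 ∧
  33.402 * (4.5316 : ℝ) ^ i ≤ 2 * (a4 : ℝ) ∧ 49.71 * (4.5316 : ℝ) ^ i ≤ 2 * (a5 : ℝ) ∧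
  69.57 * (4.5316 : ℝ) ^ i ≤ 2 * (a6 : ℝ) ∧ 93.1 * (4.5316 : ℝ) ^ i ≤ 2 * (a7 : ℝ)

theorem mid_of {i v g t v1 g1 t1 v2 g2 t2 : ℕ} (h : VGT (2 ^ i) 1 v g t)
    (h1 : VGT (2 ^ (i + 1)) 1 v1 g1 t1) (h2 : VGT (2 ^ (i + 2)) 1 v2 g2 t2)
    (b4 : 33.402 * (4.5316 : ℝ) ^ i ≤ 2 * (v2 : ℝ))
    (b5 : 49.71 * (4.5316 : ℝ) ^ i ≤ 2 * (((5 * (g + v) + 12 * t) / 3 + v2 : ℕ) : ℝ))
    (b6 : 69.57 * (4.5316 : ℝ) ^ i ≤ 2 * (((3 * (g1 + v1) + 2 * t1) / 2 + v2 : ℕ) : ℝ))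
    (b7 : 93.1 * (4.5316 : ℝ) ^ i ≤
      2 * (((5 * (g + v) + 22 * t) / 3 + ((3 * (g1 + v1) + 2 * t1) / 2 + v2) : ℕ) : ℝ)) :
    Mid i := by
  have e1 : 2 ^ (i + 1) = 2 * 2 ^ i := by ring
  have e2 : 2 ^ (i + 2) = 4 * 2 ^ i := by ring
  rw [e1] at h1
  rw [e2] at h2
  obtain ⟨f5, f6, f7⟩ := fg_mid h h1 h2.vg.1
  exact ⟨_, _, _, _, h2.vg.1, f5, f6, f7, b4, b5, b6, b7⟩

theorem mid_all (i : ℕ) : Mid i := by
  rcases Nat.lt_or_ge i 4 with hi | hi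
  · obtain rfl | rfl | rfl | rfl : i = 0 ∨ i = 1 ∨ i = 2 ∨ i = 3 := by omega
    · exact mid_of (i := 0) vgt_a u0 u1 (by norm_num) (by norm_num) (by norm_num) (by norm_num)
    · exact mid_of (i := 1) u0 u1 u2 (by norm_num) (by norm_num) (by norm_num) (by norm_num)
    · exact mid_of (i := 2) u1 u2 u3 (by norm_num) (by norm_num) (by norm_num) (by norm_num)
    · exact mid_of (i := 3) u2 u3 u4 (by norm_num) (by norm_num) (by norm_num) (by norm_num)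
  · obtain ⟨n, rfl⟩ : ∃ n, i = 4 + n := ⟨i - 4, by omega⟩
    obtain ⟨v, g, t, h, x1, x2, x3⟩ := gd_all n
    obtain ⟨v1, g1, t1, h1, y1, y2, y3⟩ := gd_all (n + 1)
    obtain ⟨v2, g2, t2, h2, z1, z2, z3⟩ := gd_all (n + 2)
    have i0 : 3 + n + 1 = 4 + n := by omega
    have i1 : 3 + (n + 1) + 1 = 4 + n + 1 := by omega
    have i2 : 3 + (n + 2) + 1 = 4 + n + 2 := by omega
    rw [i0] at h
    rw [i1] at h1
    rw [i2] at h2
    obtain ⟨X, hX⟩ : ∃ X : ℝ, X = 4.5316 ^ n := ⟨_, rfl⟩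
    have hX1 : 1 ≤ X := by rw [hX]; exact one_le_pow₀ (by norm_num)
    have e1 : (4.5316 : ℝ) ^ (n + 1) = 4.5316 * X := by rw [hX]; ring
    have e2 : (4.5316 : ℝ) ^ (n + 2) = 4.5316 ^ 2 * X := by rw [hX]; ring
    have e4 : (4.5316 : ℝ) ^ (4 + n) = 4.5316 ^ 4 * X := by rw [hX]; ring
    rw [← hX] at x1 x2 x3
    rw [e1] at y1 y2 y3
    rw [e2] at z1 z2 z3
    obtain ⟨k5, hk5⟩ : ∃ k, k = (5 * (g + v) + 12 * t) / 3 := ⟨_, rfl⟩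
    obtain ⟨k6, hk6⟩ : ∃ k, k = (3 * (g1 + v1) + 2 * t1) / 2 := ⟨_, rfl⟩
    obtain ⟨k7, hk7⟩ : ∃ k, k = (5 * (g + v) + 22 * t) / 3 := ⟨_, rfl⟩
    have q5 : 5 * (g + v) + 12 * t ≤ 3 * k5 + 2 := by omega
    have q6 : 3 * (g1 + v1) + 2 * t1 ≤ 2 * k6 + 1 := by omega
    have q7 : 5 * (g + v) + 22 * t ≤ 3 * k7 + 2 := by omega
    have r5 : (5 * (g + v) + 12 * t : ℝ) ≤ 3 * k5 + 2 := by exact_mod_cast q5
    have r6 : (3 * (g1 + v1) + 2 * t1 : ℝ) ≤ 2 * k6 + 1 := by exact_mod_cast q6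
    have r7 : (5 * (g + v) + 22 * t : ℝ) ≤ 3 * k7 + 2 := by exact_mod_cast q7
    refine mid_of h h1 h2 ?_ ?_ ?_ ?_
    · rw [e4]
      norm_num at z1 ⊢
      linarith
    · rw [← hk5, e4]
      push_cast
      norm_num at x1 x2 x3 z1 ⊢
      linarith
    · rw [← hk6, e4]
      push_cast
      norm_num at y1 y2 y3 z1 ⊢
      linarith
    · rw [← hk6, ← hk7, e4]
      push_cast
      norm_num at x1 x2 x3 y1 y2 y3 z1 ⊢
      linarith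

theorem rpow_le {a c : ℝ} (ha : 0 ≤ a) (hc : 0 ≤ c) (h : a ^ 109 ≤ c ^ 50) :
    a ^ (2.18 : ℝ) ≤ c := by
  have h2 : (a ^ (2.18 : ℝ)) ^ 50 = a ^ 109 := by
    rw [← Real.rpow_natCast, ← Real.rpow_mul ha, ← Real.rpow_natCast]
    norm_num
  exact le_of_pow_le_pow_left₀ (by norm_num) hc (h2.trans_le h)

theorem up {w n i : ℕ} {c : ℝ} (hw : w ≤ n * 2 ^ i) (hc : 0 ≤ c) (h : (n : ℝ) ^ 109 ≤ c ^ 50) :
    (w : ℝ) ^ (2.18 : ℝ) ≤ c * 4.5316 ^ i := by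
  have h1 : (w : ℝ) ^ (2.18 : ℝ) ≤ ((n : ℝ) * 2 ^ i) ^ (2.18 : ℝ) := by
    refine Real.rpow_le_rpow (Nat.cast_nonneg w) ?_ (by norm_num)
    exact_mod_cast hw
  have h2 : ((n : ℝ) * 2 ^ i) ^ (2.18 : ℝ) = (n : ℝ) ^ (2.18 : ℝ) * ((2 : ℝ) ^ (2.18 : ℝ)) ^ i := by
    rw [Real.mul_rpow (Nat.cast_nonneg n) (by positivity)]
    congr 1
    rw [← Real.rpow_natCast, ← Real.rpow_mul (by norm_num), mul_comm,
      Real.rpow_mul (by norm_num), Real.rpow_natCast]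
  have h3 : ((2 : ℝ) ^ (2.18 : ℝ)) ^ i ≤ 4.5316 ^ i :=
    pow_le_pow_left₀ (by positivity) two_rpow _
  have h4 : (n : ℝ) ^ (2.18 : ℝ) ≤ c := rpow_le (Nat.cast_nonneg n) hc h
  rw [h2] at h1
  refine h1.trans (mul_le_mul h4 h3 (by positivity) hc)

/-- A covering of all computable posets of width `w` needs at least `w ^ 2.18 / 2` chains. -/
theorem bound (w k : ℕ) (h : Suffices w k) : (w : ℝ) ^ (2.18 : ℝ) ≤ 2 * (k : ℝ) := by
  have key : ∀ a : ℕ, FG w 1 a → (w : ℝ) ^ (2.18 : ℝ) ≤ 2 * (a : ℝ) →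
      (w : ℝ) ^ (2.18 : ℝ) ≤ 2 * (k : ℝ) := by
    intro a ha hb
    have h3 : a ≤ k := le_of_suffices ha h
    have h3' : (a : ℝ) ≤ (k : ℝ) := by exact_mod_cast h3
    linarith
  rcases Nat.lt_or_ge w 4 with hw | hw
  · obtain rfl | rfl | rfl | rfl : w = 0 ∨ w = 1 ∨ w = 2 ∨ w = 3 := by omega
    · rw [Nat.cast_zero, Real.zero_rpow (by norm_num)]
      exact mul_nonneg (by norm_num) (Nat.cast_nonneg k)
    · refine key 1 fg_one ?_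
      rw [Nat.cast_one, Real.one_rpow]
      norm_num
    · exact key 5 fg_five (rpow_le (by norm_num) (by norm_num) (by norm_num))
    · exact key 9 fg_three (rpow_le (by norm_num) (by norm_num) (by norm_num))
  · have h1 : 2 ^ Nat.log 2 w ≤ w := Nat.pow_log_le_self 2 (by omega)
    have h2 : w < 2 ^ (Nat.log 2 w + 1) := Nat.lt_pow_succ_log_self (by norm_num) w
    have h0 : 2 ≤ Nat.log 2 w := by
      by_contra hc
      have : 2 ^ (Nat.log 2 w + 1) ≤ 2 ^ 2 := Nat.pow_le_pow_right (by norm_num) (by omega)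
      omega
    obtain ⟨i, hi⟩ : ∃ i, Nat.log 2 w = i + 2 := ⟨Nat.log 2 w - 2, by omega⟩
    rw [hi] at h1 h2
    have e1 : 2 ^ (i + 2) = 4 * 2 ^ i := by ring
    have e2 : 2 ^ (i + 2 + 1) = 8 * 2 ^ i := by ring
    rw [e1] at h1
    rw [e2] at h2
    obtain ⟨a4, a5, a6, a7, f4, f5, f6, f7, b4, b5, b6, b7⟩ := mid_all i
    rcases Nat.lt_or_ge w (5 * 2 ^ i) with hw5 | hw5
    · exact key a4 (f4.mono h1 le_rfl) ((up (n := 5) hw5.le (by norm_num) (by norm_num)).trans b4)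
    rcases Nat.lt_or_ge w (6 * 2 ^ i) with hw6 | hw6
    · exact key a5 (f5.mono hw5 le_rfl) ((up (n := 6) hw6.le (by norm_num) (by norm_num)).trans b5)
    rcases Nat.lt_or_ge w (7 * 2 ^ i) with hw7 | hw7
    · exact key a6 (f6.mono hw6 le_rfl) ((up (n := 7) hw7.le (by norm_num) (by norm_num)).trans b6)
    · exact key a7 (f7.mono hw7 le_rfl) ((up (n := 8) h2.le (by norm_num) (by norm_num)).trans b7)

end Pool.Agent.Helper26.SQ2.Wide
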