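import Pool.Agent.Helper26.SQ2.RepG

/-!
A region together with the number of all colours: `2 |N| + 3 |C| ≥ 11 v + 4 g`.
-/

set_option autoImplicit false

namespace Pool.Agent.Helper26.SQ2

open Pool.Agent.Helper3.DW Pool.Agent.Helper26.SQ
open Pool.Agent.Helper18.SQ (TopR VG fg_of_vg region_top St top_region oo Rl Sl sub_un)

/-- The count. -/
theorem count_trade {X T r s z n n2 n3 n4 : Finset ℕ} {v : ℕ} (hn : v ≤ n.card)
    (hn2 : v ≤ n2.card) (hn3 : v ≤ n3.card) (hn4 : v ≤ n4.card) (hr : v ≤ r.card)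
    (hs : v ≤ s.card) (hz : v ≤ z.card) (hT : v ≤ T.card) (d1 : Disjoint n X)
    (d2 : Disjoint n2 r) (d3 : Disjoint n4 T) (d4 : Disjoint n4 r) (d5 : Disjoint n4 z)
    (d6 : Disjoint r T) (d7 : Disjoint z T) (d8 : Disjoint z X) :
    9 * v + X.card ≤ (X ∪ n3 ∪ r).card + (T ∪ z ∪ r ∪ s).card + (n ∪ s).card + (n2 ∪ s).card +
      (n3 ∪ s).card + (n4 ∪ s).card := by
  have two : ∀ p q Y : Finset ℕ, Disjoint p Y → p.card + (q ∩ Y).card ≤ (p ∪ q).card := by
    intro p q Y h
    have h1 : Disjoint p (q ∩ Y) := h.mono_right Finset.inter_subset_right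
    rw [← Finset.card_union_of_disjoint h1]
    exact Finset.card_le_card (Finset.union_subset_union subset_rfl Finset.inter_subset_left)
  have a1 := two n s X d1
  have a2 := two n2 s r d2
  have a4 := two n4 s (T ∪ z ∪ r) (by
    rw [Finset.disjoint_union_right, Finset.disjoint_union_right]
    exact ⟨⟨d3, d5⟩, d4⟩)
  have a3 : n3.card + (X ∪ r ∪ s).card ≤ (X ∪ n3 ∪ r).card + (n3 ∪ s).card := by
    rw [← Finset.card_union_add_card_inter (X ∪ n3 ∪ r) (n3 ∪ s), add_comm]
    refine add_le_add (Finset.card_le_card ?_) (Finset.card_le_card ?_)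
    · intro c hc
      simp only [Finset.mem_union] at hc ⊢
      tauto
    · intro c hc
      simp only [Finset.mem_inter, Finset.mem_union]
      tauto
  have b := Finset.card_union_add_card_inter (T ∪ z ∪ r) s
  have b' : (T ∪ z ∪ r) ∩ s = s ∩ (T ∪ z ∪ r) := Finset.inter_comm _ _
  rw [b'] at b
  have c : T.card + (z ∪ r).card ≤ (T ∪ z ∪ r).card := by
    have h1 : Disjoint T (z ∪ r) := by
      rw [Finset.disjoint_union_right]
      exact ⟨d7.symm, d6.symm⟩
    rw [← Finset.card_union_of_disjoint h1]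
    refine Finset.card_le_card ?_
    intro c hc
    simp only [Finset.mem_union] at hc ⊢
    tauto
  have d := two z r X d8
  have e1 := Finset.card_union_add_card_inter (X ∪ r) s
  have e2 := Finset.card_union_add_card_inter X r
  have e3 : ((X ∪ r) ∩ s).card ≤ (s ∩ X).card + (s ∩ r).card := by
    refine (Finset.card_le_card ?_).trans (Finset.card_union_le _ _)
    intro c hc
    simp only [Finset.mem_inter, Finset.mem_union] at hc ⊢
    tauto
  have e4 : X ∩ r = r ∩ X := Finset.inter_comm _ _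
  rw [e4] at e2
  omega

section

variable {j m : ℕ} {Q : Ps → Prop} {P₀ P : Ps} {q : ℕ} {C : ℕ → Finset ℕ} {R S : ℕ → ℕ → Bool}

/-- The estimate for a region with the upper part of the top structure. -/
theorem top3 (h : St j m Q P₀ P q C R S) {x : ℕ}
    (hmax : ∀ P', P₀ <:+ P' → Safe (2 * j) m Q P' → ¬ Blk j 0 x P' (Finset.range P'.length))
    (A : ℕ → Bool) (hA0 : A 0 = false)
    (hup : ∀ a < q, ∀ b < q, A a = true → A b = false → S a b = true)
    (hlin : ∀ a < q, ∀ b < q, (!A a || !A b || a == b || R a b || R b a) = true)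
    (a1 a2 a3 a0 : ℕ)
    (hb : (decide (a1 < q) && decide (a2 < q) && decide (a3 < q) && decide (a0 < q) &&
      A a1 && A a2 && A a3 && !(a0 == a2) && !(a0 == a3) && S a0 a2 && S a2 a0 && S a0 a3 &&
      S a3 a0) = true)
    {S2 s n S1 : Finset ℕ} (e1 : C a1 = S2) (e2 : C a2 = s) (e3 : C a3 = n) (e0 : C a0 = S1)
    (hS : S2 ⊆ S1) : S2.card + (n ∪ s).card < x := by
  simp only [Bool.and_eq_true, decide_eq_true_eq, Bool.not_eq_true', beq_eq_false_iff_ne] at hb
  obtain ⟨⟨⟨⟨⟨⟨⟨⟨⟨⟨⟨⟨b1, b2⟩, b3⟩, b4⟩, b5⟩, b6⟩, b7⟩, b8⟩, b9⟩, b10⟩, b11⟩, b12⟩, b13⟩ := hb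
  refine lt_of_le_of_lt ?_ (h.reg hmax A hA0 hup hlin)
  have f1 : Disjoint S1 s := by
    rw [← e0, ← e2]
    exact h.disj _ _ b4 b2 b8 b10 b11
  have f2 : Disjoint S1 n := by
    rw [← e0, ← e3]
    exact h.disj _ _ b4 b3 b9 b12 b13
  have f3 : Disjoint S2 (n ∪ s) := by
    rw [Finset.disjoint_union_right]
    exact ⟨f2.mono_left hS, f1.mono_left hS⟩
  rw [← Finset.card_union_of_disjoint f3]
  refine Finset.card_le_card (Finset.union_subset ?_ (Finset.union_subset ?_ ?_))
  · rw [← e1]
    exact sub_un _ b1 b5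
  · rw [← e3]
    exact sub_un _ b3 b7
  · rw [← e2]
    exact sub_un _ b2 b6

end

/-- The description of a position with an upper region. -/
theorem st_two {j m x : ℕ} {Q : Ps → Prop} {P₀ P1 : Ps} (hsafe1 : Safe (2 * j) m Q P1)
    (hsuf1 : P₀ <:+ P1) (h : Blk j 0 x P1 (Finset.range P1.length)) :
    ∃ C : ℕ → Finset ℕ, St j m Q P₀ P1 2 C oo (fun a b => a == 1 && b == 0) ∧ x ≤ (C 1).card := by
  obtain ⟨X, hX1, hX2, hX3, -, hX5⟩ := h
  refine ⟨fun a => if a = 0 then colU P1 (Finset.range P1.length \ X) else colU P1 X,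
    ⟨hsafe1, hsuf1, fun a => if a = 0 then Finset.range P1.length \ X else X, ?_, ?_⟩, ?_⟩
  · constructor
    · intro y
      constructor
      · intro hy
        by_cases hyX : y ∈ X
        · exact ⟨1, by omega, by simpa using hyX⟩
        · exact ⟨0, by omega, by simpa using ⟨hy, hyX⟩⟩
      · rintro ⟨a, ha, hy⟩
        by_cases ha0 : a = 0
        · rw [if_pos ha0] at hy
          exact Finset.mem_range.1 (Finset.mem_sdiff.1 hy).1
        · rw [if_neg ha0] at hy
          exact Finset.mem_range.1 (hX1 hy)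
    · intro a ha b hb y hya hyb
      by_cases ha0 : a = 0
      · rw [if_pos ha0] at hya
        by_cases hb0 : b = 0
        · omega
        · rw [if_neg hb0] at hyb
          exact absurd hyb (Finset.mem_sdiff.1 hya).2
      · rw [if_neg ha0] at hya
        by_cases hb0 : b = 0
        · rw [if_pos hb0] at hyb
          exact absurd hya (Finset.mem_sdiff.1 hyb).2
        · omega
    · intro a ha
      by_cases ha0 : a = 0
      · simp only [if_pos ha0]
      · simp only [if_neg ha0]
    · intro a ha b hb hab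
      simp [oo] at hab
    · intro a ha b hb hab y hy z hz hlt
      simp only [Bool.and_eq_true, beq_iff_eq] at hab
      rw [if_neg (by omega)] at hy
      rw [if_pos hab.2] at hz
      rw [Finset.mem_sdiff] at hz
      exact hz.2 (hX2 y hy z hz.1 hlt)
  · intro a ha1 ha
    have e : (fun a => if a = 0 then Finset.range P1.length \ X else X) a = X :=
      if_neg (by omega)
    rw [e]
    exact hX3
  · simpa using hX5

theorem blkD_up {j a b c y : ℕ} {P : Ps} (h : Blk j 0 y P (Finset.range P.length))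
    (h1 : a ≤ 2 * (cols P).card + 3 * y) (h2 : b ≤ y) (h3 : c ≤ (cols P).card) :
    BlkD j a b c P (Finset.range P.length) := by
  obtain ⟨C, g1, g2, g3, -, g5⟩ := h
  have e : colU P (Finset.range P.length) = cols P := rfl
  exact ⟨C, g1, g2, g3, by rw [e]; omega, by omega, by rw [e]; exact h3⟩

end Pool.Agent.Helper26.SQ2
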