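import Pool.Agent.Helper26.SQ2.Split

/-!
Repeated blocks with the same set of colours, for a general property of the blocks.
-/

set_option autoImplicit false

namespace Pool.Agent.Helper26.SQ2

open Pool.Agent.Helper3.DW Pool.Agent.Helper26.SQ

/-- A property of the blocks which is stable under extensions. -/
structure Cls (B : Ps → Finset ℕ → Prop) : Prop where
  old : ∀ (P P' : Ps) (N : Finset ℕ), B P N → P <:+ P' → (∀ y ∈ N, y < P.length) → B P' N
  new : ∀ (P N : Ps) (D U Y : Finset ℕ), B N Y →
    (∀ x y, plt P x y → x < P.length ∧ y < P.length) → (∀ d ∈ D, d < P.length) →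
    (∀ d ∈ U, d < P.length) → B (glue P D U N) (sh P.length Y)
  whole : ∀ (P : Ps) (N : Finset ℕ), B P N → (∀ y ∈ N, ∀ z, plt P y z → z ∈ N) →
    (∀ y ∈ N, y < P.length) → B P (Finset.range P.length)

/-- The position is a linear sum of `n + 1` blocks, the blocks `1, …, n` have the same set of
colours and the property `B`. -/
def RepG (B : Ps → Finset ℕ → Prop) (n : ℕ) (P : Ps) : Prop :=
  ∃ (F C : ℕ → Finset ℕ) (T : Finset ℕ),
    Sys P (n + 1) F C (fun a b => decide (a < b)) (fun a b => decide (b < a)) ∧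
    ∀ i, 1 ≤ i → i < n + 1 → C i = T ∧ B P (F i)

/-- The intermediate positions. -/
def SeqG (B : Ps → Finset ℕ → Prop) (n c : ℕ) (P : Ps) : Prop :=
  ∃ F C : ℕ → Finset ℕ,
    Sys P (n + 1) F C (fun a b => decide (a < b)) (fun a b => decide (b < a)) ∧
    ∀ i, 1 ≤ i → i < n + 1 → c ≤ (C i).card ∧ B P (F i)

/-- Old points below a repeated sequence belong to the junk. -/
theorem repG_below {B : Ps → Finset ℕ → Prop} (hB : Cls B) {n w : ℕ} {P R : Ps}
    (hP : Good w P) (hR : Good w R) (h : RepG B n R) :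
    RepG B n (glue P (Finset.range P.length) ∅ R) := by
  obtain ⟨F, C, T, hS, hC⟩ := h
  have h1 := (sys_one' P).glu hS (fun _ => true) (fun _ => false) hP.lt_len hR.lt_len
  rw [(sys_one' P).un_all (fun _ _ => rfl), un_none (fun _ _ => rfl)] at h1
  have h2 := h1.coarse (q' := n + 1) (R' := fun a b => decide (a < b))
    (S' := fun a b => decide (b < a)) (fun a => a - 1) (by intro a ha; omega) (by
      intro a ha b hb hab
      simp only [decide_eq_true_eq] at hab
      by_cases h3 : a < 1
      · simp [catR, h3, show ¬ b < 1 by omega]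
      · simp only [catR, if_neg h3, if_neg (show ¬ b < 1 by omega), decide_eq_true_eq]
        exact hab) (by
      intro a ha b hb hab
      simp only [decide_eq_true_eq] at hab
      by_cases h3 : b < 1
      · simp [catS, h3, show ¬ a < 1 by omega]
      · simp only [catS, if_neg h3, if_neg (show ¬ a < 1 by omega), decide_eq_true_eq]
        exact hab)
  have key : ∀ i, 1 ≤ i → i < n + 1 → ∀ (G : ℕ → Finset ℕ),
      un (1 + (n + 1)) G (fun a => a - 1 == i) = G (i + 1) := by
    intro i hi hi' G
    ext x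
    rw [mem_un]
    constructor
    · rintro ⟨a, _, h4, h5⟩
      simp only [beq_iff_eq] at h4
      have : a = i + 1 := by omega
      rwa [← this]
    · intro hx
      exact ⟨i + 1, by omega, by simp, hx⟩
  refine ⟨_, _, T, h2, fun i hi hi' => ?_⟩
  obtain ⟨h4, h5⟩ := hC i hi hi'
  simp only [key i hi hi', catC, catF, if_neg (show ¬ i + 1 < 1 by omega), Nat.add_sub_cancel]
  exact ⟨h4, hB.new _ _ _ _ _ h5 hP.lt_len (fun d hd => Finset.mem_range.1 hd) (by simp)⟩

theorem repG_zero (B : Ps → Finset ℕ → Prop) (P : Ps) : RepG B 0 P := by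
  refine ⟨fun _ => Finset.range P.length, fun _ => cols P, ∅, (sys_one' P).congr
    (fun _ _ => rfl) (fun _ _ => rfl) ?_ ?_, fun i h1 h2 => by omega⟩
  · intro a ha b hb hab
    simp only [decide_eq_true_eq] at hab
    omega
  · intro a ha b hb hab
    simp only [decide_eq_true_eq] at hab
    omega

theorem seqG_succ {B : Ps → Finset ℕ → Prop} (hB : Cls B) {n c w : ℕ} {P R : Ps}
    (hP : Good w P) (hR : Good w R) (h : SeqG B n c P) (hc : c ≤ (cols R).card)
    (hBR : B R (Finset.range R.length)) :
    SeqG B (n + 1) c (glue P (Finset.range P.length) ∅ R) := by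
  obtain ⟨F, C, hS, hC⟩ := h
  have h1 := hS.glu (sys_one' R) (fun _ => true) (fun _ => false) hP.lt_len hR.lt_len
  rw [hS.un_all (fun _ _ => rfl), un_none (fun _ _ => rfl)] at h1
  refine ⟨_, _, h1.congr (fun _ _ => rfl) (fun _ _ => rfl) ?_ ?_, fun i hi hi' => ?_⟩
  · intro a ha b hb hab
    simp only [decide_eq_true_eq] at hab
    by_cases h3 : b < n + 1
    · simp only [catR, if_pos h3, if_pos (show a < n + 1 by omega), decide_eq_true_eq]
      exact hab
    · simp [catR, h3, show a < n + 1 by omega]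
  · intro a ha b hb hab
    simp only [decide_eq_true_eq] at hab
    by_cases h3 : a < n + 1
    · simp only [catS, if_pos h3, if_pos (show b < n + 1 by omega), decide_eq_true_eq]
      exact hab
    · simp [catS, h3, show b < n + 1 by omega]
  · by_cases h3 : i < n + 1
    · obtain ⟨h4, h5⟩ := hC i hi h3
      simp only [catC, catF, if_pos h3]
      exact ⟨h4, hB.old _ _ _ h5 (suffix_glue _ _ _ _) (hS.len h3)⟩
    · simp only [catC, catF, if_neg h3]
      exact ⟨hc, hB.new _ _ _ _ _ hBR hP.lt_len (fun d hd => Finset.mem_range.1 hd) (by simp)⟩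

theorem repG {B : Ps → Finset ℕ → Prop} (hB : Cls B) {k m : ℕ}
    (h : Force k m (fun P => B P (Finset.range P.length)) []) (n c : ℕ) :
    Force k m (fun P => RepG B n P ∨ c ≤ (cols P).card) [] := by
  rcases Nat.eq_zero_or_pos n with rfl | hn
  · exact Force.here _ (Or.inl (repG_zero B []))
  suffices hs : ∀ c, Force k m (fun P => RepG B n P ∨ (c ≤ (cols P).card ∧
      B P (Finset.range P.length))) [] from
    (hs c).imp fun P hP => hP.imp id fun h => h.1
  intro c
  induction c with
  | zero => exact h.imp fun P hP => Or.inr ⟨Nat.zero_le _, hP⟩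
  | succ c ih =>
    have inner : ∀ i, Force k m (fun P => RepG B n P ∨ SeqG B i c P) [] := by
      intro i
      induction i with
      | zero =>
        refine Force.here _ (Or.inr ⟨fun _ => Finset.range 0, fun _ => cols [],
          (sys_one' []).congr (fun _ _ => rfl) (fun _ _ => rfl) ?_ ?_, fun i h1 h2 => by omega⟩)
        · intro a ha b hb hab
          simp only [decide_eq_true_eq] at hab
          omega
        · intro a ha b hb hab
          simp only [decide_eq_true_eq] at hab
          omega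
      | succ i ihi =>
        refine (ihi.inv (inv_nil k m)).bind fun P hP => ?_
        obtain ⟨hP1, hP2, _⟩ := hP
        rcases hP1 with hP1 | hP1
        · exact Force.here _ (Or.inl hP1)
        · refine (Force.hole0 hP2 (hole_top hP2.good) ih).imp ?_
          rintro P' ⟨_, R, hR, hRI, rfl⟩
          rcases hR with hR | ⟨hR1, hR2⟩
          · exact Or.inl (repG_below hB hP2.good hRI.good hR)
          · exact Or.inr (seqG_succ hB hP2.good hRI.good hP1 hR1 hR2)
    refine ((inner n).inv (inv_nil k m)).imp ?_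
    rintro P ⟨hP1 | hP1, hP2, _⟩
    · exact Or.inl hP1
    · obtain ⟨F, C, hS, hC⟩ := hP1
      by_cases hc : c + 1 ≤ (cols P).card
      · refine Or.inr ⟨hc, hB.whole _ _ (hC n hn (by omega)).2 ?_ (hS.len (by omega))⟩
        intro y hy z hlt
        obtain ⟨i, hi, hz⟩ := (hS.cov z).1 (hP2.good.lt_len _ _ hlt).2
        by_cases hin : i = n
        · rwa [← hin]
        · exact absurd hlt (hS.nb n (by omega) i hi (by simp; omega) y hy z hz)
      · refine Or.inl ⟨F, C, cols P, hS, fun i h1 h2 => ⟨?_, (hC i h1 h2).2⟩⟩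
        exact Finset.eq_of_subset_of_card_le (hS.sub_cols h2) (by have := (hC i h1 h2).1; omega)

/-- The set `N` contains an upset `C` of width at most `j` with `a ≤ 2 |N| + 3 |C|`, `b ≤ |C|` and
`c ≤ |N|`. -/
def BlkD (j a b c : ℕ) (P : Ps) (N : Finset ℕ) : Prop :=
  ∃ C ⊆ N, (∀ y ∈ C, ∀ z ∈ N, plt P y z → z ∈ C) ∧ Wd P C j ∧
    a ≤ 2 * (colU P N).card + 3 * (colU P C).card ∧ b ≤ (colU P C).card ∧ c ≤ (colU P N).card

theorem blkD_cls (j a b c : ℕ) : Cls (BlkD j a b c) where
  old P P' N h hs hl := by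
    obtain ⟨C, h1, h2, h3, h4, h5, h6⟩ := h
    refine ⟨C, h1, ?_, h3.old hs fun y hy => hl y (h1 hy), ?_, ?_, ?_⟩
    · intro y hy z hz hlt
      exact h2 y hy z hz ((plt_suffix hs (hl y (h1 hy)) (hl z hz)).1 hlt)
    · rw [colU_suffix hs hl, colU_suffix hs fun y hy => hl y (h1 hy)]
      exact h4
    · rw [colU_suffix hs fun y hy => hl y (h1 hy)]
      exact h5
    · rw [colU_suffix hs hl]
      exact h6
  new P N D U Y h hP hD hU := by
    obtain ⟨C, h1, h2, h3, h4, h5, h6⟩ := h
    refine ⟨sh P.length C, ?_, ?_, Wd.new h3, ?_, ?_, ?_⟩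
    · intro x hx
      obtain ⟨i, hi, rfl⟩ := mem_sh.1 hx
      exact add_mem_sh.2 (h1 hi)
    · intro y hy z hz hlt
      obtain ⟨i, hi, rfl⟩ := mem_sh.1 hy
      obtain ⟨i', hi', rfl⟩ := mem_sh.1 hz
      rcases (plt_glue _ _ _ _ _ _).1 hlt with h7 | ⟨a, b, h7, h8, h9⟩ | ⟨h7, _⟩ | ⟨h7, _⟩
      · have := (hP _ _ h7).1; omega
      · have e1 : a = i := by omega
        have e2 : b = i' := by omega
        subst e1 e2
        exact add_mem_sh.2 (h2 _ hi _ hi' h9)
      · have := hD _ h7; omega
      · have := hU _ h7; omega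
    · rw [colU_sh_glue, colU_sh_glue]
      exact h4
    · rw [colU_sh_glue]
      exact h5
    · rw [colU_sh_glue]
      exact h6
  whole P N h hN hl := by
    obtain ⟨C, h1, h2, h3, h4, h5, h6⟩ := h
    have hr : N ⊆ Finset.range P.length := fun y hy => Finset.mem_range.2 (hl y hy)
    have h7 := Finset.card_le_card (colU_mono (P := P) hr)
    exact ⟨C, h1.trans hr, fun y hy z _ hlt => h2 y hy z (hN y (h1 hy) z hlt) hlt, h3, by omega,
      h5, by omega⟩

end Pool.Agent.Helper26.SQ2
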