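import Pool.Agent.Helper26.SQ2.Col

/-!
Repeated blocks with the same set of colours, for a property of the blocks which passes to the
whole position when the block is above all the other points.
-/

set_option autoImplicit false

namespace Pool.Agent.Helper26.SQ2

open Pool.Agent.Helper3.DW Pool.Agent.Helper26.SQ

theorem repH_below {B : Ps → Finset ℕ → Prop} (hB : Cls2 B) {n w : ℕ} {P R : Ps}
    (hP : Good w P) (hR : Good w R) (h : RepG B n R) :
    RepG B n (glue P (Finset.range P.length) ∅ R) := by
  obtain ⟨F, C, T, hS, hC⟩ := h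
  have h1 := (sys_one' P).glu hS (fun _ => true) (fun _ => false) hP.lt_len hR.lt_len
  rw [(sys_one' P).un_all (fun _ _ => rfl), un_none (fun _ _ => rfl)] at h1
  have h2 := h1.coarse (q' := n + 1) (R' := fun a b => decide (a < b))
    (S' := fun a b => decide (b < a)) (fun a => a - 1) (by intro a ha; omega) (by
      intro a ha b hb hab
      simp only [decide_eq_true_eq] at hab
      by_cases h3 : a < 1
      · simp [catR, h3, show ¬ b < 1 by omega]
      · simp only [catR, if_neg h3, if_neg (show ¬ b < 1 by omega), decide_eq_true_eq]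
        exact hab) (by
      intro a ha b hb hab
      simp only [decide_eq_true_eq] at hab
      by_cases h3 : b < 1
      · simp [catS, h3, show ¬ a < 1 by omega]
      · simp only [catS, if_neg h3, if_neg (show ¬ a < 1 by omega), decide_eq_true_eq]
        exact hab)
  have key : ∀ i, 1 ≤ i → i < n + 1 → ∀ (G : ℕ → Finset ℕ),
      un (1 + (n + 1)) G (fun a => a - 1 == i) = G (i + 1) := by
    intro i hi hi' G
    ext x
    rw [mem_un]
    constructor
    · rintro ⟨a, _, h4, h5⟩
      simp only [beq_iff_eq] at h4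
      have : a = i + 1 := by omega
      rwa [← this]
    · intro hx
      exact ⟨i + 1, by omega, by simp, hx⟩
  refine ⟨_, _, T, h2, fun i hi hi' => ?_⟩
  obtain ⟨h4, h5⟩ := hC i hi hi'
  simp only [key i hi hi', catC, catF, if_neg (show ¬ i + 1 < 1 by omega), Nat.add_sub_cancel]
  exact ⟨h4, hB.new _ _ _ _ _ h5 hP.lt_len (fun d hd => Finset.mem_range.1 hd) (by simp)⟩

theorem seqH_succ {B : Ps → Finset ℕ → Prop} (hB : Cls2 B) {n c w : ℕ} {P R : Ps}
    (hP : Good w P) (hR : Good w R) (h : SeqG B n c P) (hc : c ≤ (cols R).card)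
    (hBR : B R (Finset.range R.length)) :
    SeqG B (n + 1) c (glue P (Finset.range P.length) ∅ R) := by
  obtain ⟨F, C, hS, hC⟩ := h
  have h1 := hS.glu (sys_one' R) (fun _ => true) (fun _ => false) hP.lt_len hR.lt_len
  rw [hS.un_all (fun _ _ => rfl), un_none (fun _ _ => rfl)] at h1
  refine ⟨_, _, h1.congr (fun _ _ => rfl) (fun _ _ => rfl) ?_ ?_, fun i hi hi' => ?_⟩
  · intro a ha b hb hab
    simp only [decide_eq_true_eq] at hab
    by_cases h3 : b < n + 1
    · simp only [catR, if_pos h3, if_pos (show a < n + 1 by omega), decide_eq_true_eq]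
      exact hab
    · simp [catR, h3, show a < n + 1 by omega]
  · intro a ha b hb hab
    simp only [decide_eq_true_eq] at hab
    by_cases h3 : a < n + 1
    · simp only [catS, if_pos h3, if_pos (show b < n + 1 by omega), decide_eq_true_eq]
      exact hab
    · simp [catS, h3, show b < n + 1 by omega]
  · by_cases h3 : i < n + 1
    · obtain ⟨h4, h5⟩ := hC i hi h3
      simp only [catC, catF, if_pos h3]
      exact ⟨h4, hB.old _ _ _ h5 (suffix_glue _ _ _ _) (hS.len h3)⟩
    · simp only [catC, catF, if_neg h3]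
      exact ⟨hc, hB.new _ _ _ _ _ hBR hP.lt_len (fun d hd => Finset.mem_range.1 hd) (by simp)⟩

theorem repH {B : Ps → Finset ℕ → Prop} (hB : Cls2 B) {k m : ℕ}
    (h : Force k m (fun P => B P (Finset.range P.length)) []) (n c : ℕ) :
    Force k m (fun P => RepG B n P ∨ c ≤ (cols P).card) [] := by
  rcases Nat.eq_zero_or_pos n with rfl | hn
  · exact Force.here _ (Or.inl (repG_zero B []))
  suffices hs : ∀ c, Force k m (fun P => RepG B n P ∨ (c ≤ (cols P).card ∧
      B P (Finset.range P.length))) [] from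
    (hs c).imp fun P hP => hP.imp id fun h => h.1
  intro c
  induction c with
  | zero => exact h.imp fun P hP => Or.inr ⟨Nat.zero_le _, hP⟩
  | succ c ih =>
    have inner : ∀ i, Force k m (fun P => RepG B n P ∨ SeqG B i c P) [] := by
      intro i
      induction i with
      | zero =>
        refine Force.here _ (Or.inr ⟨fun _ => Finset.range 0, fun _ => cols [],
          (sys_one' []).congr (fun _ _ => rfl) (fun _ _ => rfl) ?_ ?_, fun i h1 h2 => by omega⟩)
        · intro a ha b hb hab
          simp only [decide_eq_true_eq] at hab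
          omega
        · intro a ha b hb hab
          simp only [decide_eq_true_eq] at hab
          omega
      | succ i ihi =>
        refine (ihi.inv (inv_nil k m)).bind fun P hP => ?_
        obtain ⟨hP1, hP2, _⟩ := hP
        rcases hP1 with hP1 | hP1
        · exact Force.here _ (Or.inl hP1)
        · refine (Force.hole0 hP2 (hole_top hP2.good) ih).imp ?_
          rintro P' ⟨_, R, hR, hRI, rfl⟩
          rcases hR with hR | ⟨hR1, hR2⟩
          · exact Or.inl (repH_below hB hP2.good hRI.good hR)
          · exact Or.inr (seqH_succ hB hP2.good hRI.good hP1 hR1 hR2)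
    refine ((inner n).inv (inv_nil k m)).imp ?_
    rintro P ⟨hP1 | hP1, hP2, _⟩
    · exact Or.inl hP1
    · obtain ⟨F, C, hS, hC⟩ := hP1
      by_cases hc : c + 1 ≤ (cols P).card
      · refine Or.inr ⟨hc, hB.whole k _ _ hP2.good (hC n hn (by omega)).2 (hS.len (by omega)) ?_⟩
        intro x hx hxn y hy
        obtain ⟨i, hi, hxi⟩ := (hS.cov x).1 hx
        have hin : i ≠ n := by
          rintro rfl
          exact hxn hxi
        exact hS.lt i hi n (by omega) (by simp; omega) x hxi y hy
      · refine Or.inl ⟨F, C, cols P, hS, fun i h1 h2 => ⟨?_, (hC i h1 h2).2⟩⟩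
        exact Finset.eq_of_subset_of_card_le (hS.sub_cols h2) (by have := (hC i h1 h2).1; omega)

/-- Five blocks: `0 < 1 < 2, 3, 4` and `2 < 4`. -/
def RH (a b : ℕ) : Bool := decide (a < b) && !(a == 2 && b == 3) && !(a == 3 && b == 4)
def SH (a b : ℕ) : Bool := decide (b < a)

theorem splitH {N : Ps} {j a : ℕ} (h : RepG (ColB j a) 2 N) :
    ∃ F C : ℕ → Finset ℕ, Sys N 5 F C RH SH ∧ Wd N (F 3) j ∧
      a ≤ (C 3).card ∧ C 3 ⊆ C 1 ∧ C 4 ⊆ C 1 := by
  obtain ⟨F, C, T, hS, hC⟩ := h
  obtain ⟨hC2, L, K, H, h1, h2, h3, h4, h5, h6, h7⟩ := hC 2 (by norm_num) (by norm_num)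
  obtain ⟨hC1, -⟩ := hC 1 (by norm_num) (by norm_num)
  have iL : ∀ y ∈ L, y ∈ F 2 := fun y hy => (h1 y).2 (Or.inl hy)
  have iK : ∀ y ∈ K, y ∈ F 2 := fun y hy => (h1 y).2 (Or.inr (Or.inl hy))
  have iH : ∀ y ∈ H, y ∈ F 2 := fun y hy => (h1 y).2 (Or.inr (Or.inr hy))
  obtain ⟨F', hF'⟩ : ∃ F' : ℕ → Finset ℕ,
      F' = fun a => if a = 2 then L \ H else if a = 3 then K else if a = 4 then H
        else F a := ⟨_, rfl⟩
  have f0 : F' 0 = F 0 := by rw [hF']; simp
  have f1 : F' 1 = F 1 := by rw [hF']; simp
  have f2 : F' 2 = L \ H := by rw [hF']; simp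
  have f3 : F' 3 = K := by rw [hF']; simp
  have f4 : F' 4 = H := by rw [hF']; simp
  have key : ∀ a < 5, ∀ y ∈ F' a, y ∈ F (if a ≤ 2 then a else 2) := by
    intro a ha y hy
    obtain rfl | rfl | rfl | rfl | rfl : a = 0 ∨ a = 1 ∨ a = 2 ∨ a = 3 ∨ a = 4 := by omega
    · rw [f0] at hy
      simpa using hy
    · rw [f1] at hy
      simpa using hy
    · rw [f2] at hy
      simpa using iL y (Finset.mem_sdiff.1 hy).1
    · rw [f3] at hy
      simpa using iK y hy
    · rw [f4] at hy
      simpa using iH y hy
  have e1 : colU N (F 1) = T := by rw [hS.col 1 (by norm_num), hC1]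
  have e2 : ∀ Y : Finset ℕ, (∀ y ∈ Y, y ∈ F 2) → colU N Y ⊆ T := by
    intro Y hY
    rw [← hC2, ← hS.col 2 (by norm_num)]
    exact colU_mono hY
  refine ⟨F', fun a => colU N (F' a), ⟨?_, ?_, ?_, ?_, ?_⟩, ?_, ?_, ?_, ?_⟩
  · intro y
    constructor
    · intro hy
      obtain ⟨a, ha, hya⟩ := (hS.cov y).1 hy
      obtain rfl | rfl | rfl : a = 0 ∨ a = 1 ∨ a = 2 := by omega
      · exact ⟨0, by norm_num, by rwa [f0]⟩
      · exact ⟨1, by norm_num, by rwa [f1]⟩
      · by_cases hH : y ∈ H
        · exact ⟨4, by norm_num, by rwa [f4]⟩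
        · rcases (h1 y).1 hya with h8 | h8 | h8
          · exact ⟨2, by norm_num, by rw [f2]; exact Finset.mem_sdiff.2 ⟨h8, hH⟩⟩
          · exact ⟨3, by norm_num, by rwa [f3]⟩
          · exact absurd h8 hH
    · rintro ⟨a, ha, hya⟩
      exact hS.len (by split_ifs <;> omega) y (key a ha y hya)
  · intro a ha b hb y hya hyb
    have e := hS.dj _ (by split_ifs <;> omega) _ (by split_ifs <;> omega) y (key a ha y hya)
      (key b hb y hyb)
    have e' : a = b ∨ (2 ≤ a ∧ 2 ≤ b) := by
      split_ifs at e <;> omega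
    rcases e' with e' | ⟨ea, eb⟩
    · exact e'
    · have xLH : y ∈ L \ H → y ∉ H := fun h => (Finset.mem_sdiff.1 h).2
      have xL : y ∈ L \ H → y ∈ L := fun h => (Finset.mem_sdiff.1 h).1
      have xK := h2 y
      obtain rfl | rfl | rfl : a = 2 ∨ a = 3 ∨ a = 4 := by omega
      · rw [f2] at hya
        obtain rfl | rfl | rfl : b = 2 ∨ b = 3 ∨ b = 4 := by omega
        · rfl
        · rw [f3] at hyb
          exact absurd (xL hya) (xK hyb).1
        · rw [f4] at hyb
          exact absurd hyb (xLH hya)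
      · rw [f3] at hya
        obtain rfl | rfl | rfl : b = 2 ∨ b = 3 ∨ b = 4 := by omega
        · rw [f2] at hyb
          exact absurd (xL hyb) (xK hya).1
        · rfl
        · rw [f4] at hyb
          exact absurd hyb (xK hya).2
      · rw [f4] at hya
        obtain rfl | rfl | rfl : b = 2 ∨ b = 3 ∨ b = 4 := by omega
        · rw [f2] at hyb
          exact absurd hya (xLH hyb)
        · rw [f3] at hyb
          exact absurd hya (xK hyb).2
        · rfl
  · intro a _
    rfl
  · intro a ha b hb hab y hy z hz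
    simp only [RH, Bool.and_eq_true, decide_eq_true_eq, Bool.not_eq_true',
      Bool.and_eq_false_iff, beq_eq_false_iff_ne] at hab
    by_cases e : a = 2 ∧ b = 4
    · obtain ⟨rfl, rfl⟩ := e
      rw [f2] at hy
      rw [f4] at hz
      exact h5 y (Finset.mem_sdiff.1 hy).1 z hz
    · refine hS.lt _ (by split_ifs <;> omega) _ (by split_ifs <;> omega) ?_ y (key a ha y hy) z
        (key b hb z hz)
      simp only [decide_eq_true_eq]
      split_ifs <;> omega
  · intro a ha b hb hab y hy z hz
    simp only [SH, decide_eq_true_eq] at hab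
    by_cases e : 2 ≤ b
    · have yF := key a ha y hy
      have zF := key b hb z hz
      obtain rfl | rfl : a = 3 ∨ a = 4 := by omega
      · obtain rfl : b = 2 := by omega
        rw [f3] at hy
        rw [f2] at hz
        exact fun hlt => (h2 y hy).1 (h3 z (Finset.mem_sdiff.1 hz).1 y (iK y hy) hlt)
      · rw [f4] at hy
        obtain rfl | rfl : b = 2 ∨ b = 3 := by omega
        · rw [f2] at hz
          exact fun hlt => (Finset.mem_sdiff.1 hz).2
            (h4 y hy z (iL z (Finset.mem_sdiff.1 hz).1) hlt)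
        · rw [f3] at hz
          exact fun hlt => (h2 z hz).2 (h4 y hy z (iK z hz) hlt)
    · refine hS.nb _ (by split_ifs <;> omega) _ (by split_ifs <;> omega) ?_ y (key a ha y hy) z
        (key b hb z hz)
      simp only [decide_eq_true_eq]
      split_ifs <;> omega
  · rw [f3]
    exact h6
  · simp only [f3]
    exact h7
  · simp only [f3, f1, e1]
    exact e2 K iK
  · simp only [f4, f1, e1]
    exact e2 H iH

end Pool.Agent.Helper26.SQ2
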