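import Pool.Agent.Helper26.SQ2.MainA

/-!
Repeated blocks and columns, with the alternative of many colours.
-/

set_option autoImplicit false

namespace Pool.Agent.Helper26.SQ2

open Pool.Agent.Helper3.DW Pool.Agent.Helper26.SQ

/-- One forces a column of width `p` with `q` colours in width `c`, or many colours. -/
def CF (c m p q : ℕ) : Prop := ∀ M : ℕ, Force c m
  (fun P => ColB p q P (Finset.range P.length) ∨ M ≤ (cols P).card) []

theorem cf_of {c m p q : ℕ} (h : Force c m (fun P => ColB p q P (Finset.range P.length)) []) :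
    CF c m p q := fun _ => h.imp fun _ hP => Or.inl hP

theorem card_glue_new (P R : Ps) (D U : Finset ℕ) :
    (cols R).card ≤ (cols (glue P D U R)).card :=
  Finset.card_le_card (cols_glue_new P R D U)

theorem repM {B : Ps → Finset ℕ → Prop} (hB : Cls2 B) {k m : ℕ}
    (h : ∀ M : ℕ, Force k m (fun P => B P (Finset.range P.length) ∨ M ≤ (cols P).card) [])
    (n M : ℕ) : Force k m (fun P => RepG B n P ∨ M ≤ (cols P).card) [] := by
  rcases Nat.eq_zero_or_pos n with rfl | hn
  · exact Force.here _ (Or.inl (repG_zero B []))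
  suffices hs : ∀ c, Force k m (fun P => RepG B n P ∨ (c ≤ (cols P).card ∧
      B P (Finset.range P.length)) ∨ M ≤ (cols P).card) [] from
    (hs M).imp fun P hP => by
      rcases hP with hP | hP | hP
      · exact Or.inl hP
      · exact Or.inr hP.1
      · exact Or.inr hP
  intro c
  induction c with
  | zero => exact (h M).imp fun P hP => Or.inr (hP.imp (fun h => ⟨Nat.zero_le _, h⟩) id)
  | succ c ih =>
    have inner : ∀ i, Force k m
        (fun P => RepG B n P ∨ SeqG B i c P ∨ M ≤ (cols P).card) [] := by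
      intro i
      induction i with
      | zero =>
        refine Force.here _ (Or.inr (Or.inl ⟨fun _ => Finset.range 0, fun _ => cols [],
          (sys_one' []).congr (fun _ _ => rfl) (fun _ _ => rfl) ?_ ?_, fun i h1 h2 => by omega⟩))
        · intro a ha b hb hab
          simp only [decide_eq_true_eq] at hab
          omega
        · intro a ha b hb hab
          simp only [decide_eq_true_eq] at hab
          omega
      | succ i ihi =>
        refine (ihi.inv (inv_nil k m)).bind fun P hP => ?_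
        obtain ⟨hP1, hP2, _⟩ := hP
        rcases hP1 with hP1 | hP1 | hP1
        · exact Force.here _ (Or.inl hP1)
        · refine (Force.hole0 hP2 (hole_top hP2.good) ih).imp ?_
          rintro P' ⟨_, R, hR, hRI, rfl⟩
          rcases hR with hR | ⟨hR1, hR2⟩ | hR
          · exact Or.inl (repH_below hB hP2.good hRI.good hR)
          · exact Or.inr (Or.inl (seqH_succ hB hP2.good hRI.good hP1 hR1 hR2))
          · exact Or.inr (Or.inr (hR.trans (card_glue_new _ _ _ _)))
        · exact Force.here _ (Or.inr (Or.inr hP1))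
    refine ((inner n).inv (inv_nil k m)).imp ?_
    rintro P ⟨hP1 | hP1 | hP1, hP2, _⟩
    · exact Or.inl hP1
    · obtain ⟨F, C, hS, hC⟩ := hP1
      by_cases hc : c + 1 ≤ (cols P).card
      · refine Or.inr (Or.inl ⟨hc, hB.whole k _ _ hP2.good (hC n hn (by omega)).2
          (hS.len (by omega)) ?_⟩)
        intro x hx hxn y hy
        obtain ⟨i, hi, hxi⟩ := (hS.cov x).1 hx
        have hin : i ≠ n := by
          rintro rfl
          exact hxn hxi
        exact hS.lt i hi n (by omega) (by simp; omega) x hxi y hy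
      · refine Or.inl ⟨F, C, cols P, hS, fun i h1 h2 => ⟨?_, (hC i h1 h2).2⟩⟩
        exact Finset.eq_of_subset_of_card_le (hS.sub_cols h2) (by have := (hC i h1 h2).1; omega)
    · exact Or.inr (Or.inr hP1)

/-- The common part of the two plays: a column and a top structure beside it. -/
theorem col_topM {w a' a b c m p q g M : ℕ} {Q : Ps → Prop} (hP0 : Safe w m Q [])
    (hQB : ∀ P, Blk a' 0 M P (Finset.range P.length) → Q P)
    (hcol : CF c m p q) (hT : TG a b m g)
    (h1 : c ≤ a') (h2 : c ≤ w) (h3 : p + (a + b) ≤ w) (h4 : a ≤ a') :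
    ∃ P : Ps, Safe w m Q P ∧ ∃ F C : ℕ → Finset ℕ, Sys P 8 F C G8.R1 G8.S1 ∧
      Wd P (un 8 F (fun a => decide (a < 6))) c ∧ Wd P (un 8 F (fun a => a == 3)) p ∧
      Wd P (un 8 F (fun a => a == 6)) b ∧ Wd P (un 8 F (fun a => a == 7)) a ∧
      C 3 ⊆ C 1 ∧ C 4 ⊆ C 1 ∧ C 5 = C 1 ∧ C 7 ⊆ C 6 ∧ q ≤ (C 3).card ∧ g ≤ (C 7).card := by
  -- the repeated blocks
  obtain ⟨P1, hP1a, hP1b, hP1⟩ := first hP0 h2 (repM (colB_cls p q) hcol 3 M)
  rcases hP1a with hP1a | hP1a
  swap
  · exact absurd (hQB _ (Blk.wide (blk_of_card hP1b hP1a) h1)) hP1.not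
  obtain ⟨F0, C0, hS0, hW3, hq, hC3, hC4, hC5⟩ := splitH3 hP1a
  have wN0 : ∀ A : ℕ → Bool, Wd P1 (un 6 F0 A) c := fun A =>
    (wd_range hP1b.good).mono (fun y hy => Finset.mem_range.2 (hS0.un_len y hy)) le_rfl
  have w3 : Wd P1 (un 6 F0 (fun a => a == 3)) p := by
    refine hW3.mono ?_ le_rfl
    intro x hx
    obtain ⟨a, _, hAa, hxa⟩ := mem_un.1 hx
    simp only [beq_iff_eq] at hAa
    rwa [← hAa]
  have hT' : Force (a + b) m (fun N => TopA a b g N ∨ Blk a' 0 M N (Finset.range N.length)) [] :=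
    (hT M).imp fun N hN => hN.imp id fun h => Blk.wide h h4
  -- the top structure: blocks `6`, `7`
  obtain ⟨N1, hN1, hN1I, hP2⟩ := ins_alt hP1 hQB hS0 G8.D1 G8.U1 (by decide) (by decide)
    (by decide) (i := p) (wdSub w3 (by decide)) h3 ((wN0 G8.U1).mono subset_rfl h1) hT'
  obtain ⟨Fa, Ca, hSa, hWa0, hWa1, hCa, hga⟩ := hN1
  have hS1 : Sys _ 8 _ _ G8.R1 G8.S1 := hS0.glu (S2 := G8.Tt) hSa G8.D1 G8.U1
    hP1.inv.good.lt_len hN1I.good.lt_len
  have wN := wdOld (N := N1) (D := un 6 F0 G8.D1) (U := un 6 F0 G8.U1) (q2 := 2) (F2 := Fa)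
    hS0 (wN0 (fun a => decide (a < 6))) (by decide)
  have w3' := wdOld (N := N1) (D := un 6 F0 G8.D1) (U := un 6 F0 G8.U1) (q2 := 2) (F2 := Fa)
    hS0 w3 (by decide)
  have w6 := wdOne (P := P1) (N := N1) (q := 6) (F := F0) (D := un 6 F0 G8.D1)
    (U := un 6 F0 G8.U1) (F2 := Fa) (q2 := 2) 0 hWa0
  have w7 := wdOne (P := P1) (N := N1) (q := 6) (F := F0) (D := un 6 F0 G8.D1)
    (U := un 6 F0 G8.U1) (F2 := Fa) (q2 := 2) 1 hWa1
  exact ⟨_, hP2, _, _, hS1, wN, w3', w6, w7, hC3, hC4, hC5, hCa, hq, hga⟩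

/-- The column belongs to the upper part. -/
theorem tg_upM {a b c m p q g : ℕ} (hcol : CF c m p q) (hT : TG a b m g)
    (h1 : c ≤ a + p) (h2 : c ≤ b) : TG (a + p) b m (q + g) := by
  intro M
  by_contra hn
  obtain ⟨Q, hQ⟩ : ∃ Q : Ps → Prop,
    Q = fun P => TopA (a + p) b (q + g) P ∨ Blk (a + p) 0 M P (Finset.range P.length) := ⟨_, rfl⟩
  rw [← hQ] at hn
  have hQB : ∀ P, Blk (a + p) 0 M P (Finset.range P.length) → Q P := by
    intro P hP
    rw [hQ]
    exact Or.inr hP
  obtain ⟨P, hP, F, C, hS, wN, w3, w6, w7, c3, c4, c5, c7, hq, hg⟩ := col_topM ⟨inv_nil _ _, hn⟩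
    hQB hcol hT h1 (by omega) (by omega) (by omega)
  refine hP.not ?_
  rw [hQ]
  left
  have d1 : Disjoint (C 3) (C 6) := hS.disj hP.inv (by omega) (by omega) (by omega) (by decide)
    (by decide)
  have d2 : Disjoint (C 3) (C 7) := d1.mono_right c7
  refine topa_of hS G8.A1 (by decide) ?_ ?_ ?_ ?_
  · have x1 : Wd P (un 8 F (fun a => a == 3 || a == 7)) (a + p) :=
      wdP w3 w7 (by decide) (by omega)
    have x2 : Wd P (un 8 F (fun a => a == 3 || a == 4 || a == 5)) (a + p) :=
      (wdSub wN (by decide)).mono subset_rfl h1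
    exact wd3 hS x1 x2 (by decide) (by decide)
  · have x1 : Wd P (un 8 F (fun a => a == 0 || a == 1 || a == 2)) b :=
      (wdSub wN (by decide)).mono subset_rfl h2
    exact wd3 hS x1 w6 (by decide) (by decide)
  · intro a ha hAa
    have : a = 3 ∨ a = 4 ∨ a = 5 ∨ a = 7 := by
      simp only [G8.A1, Bool.or_eq_true, beq_iff_eq] at hAa
      omega
    obtain rfl | rfl | rfl | rfl := this
    · exact ⟨1, by omega, by decide, c3⟩
    · exact ⟨1, by omega, by decide, c4⟩
    · exact ⟨1, by omega, by decide, c5.subset⟩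
    · exact ⟨6, by omega, by decide, c7⟩
  · have e := Finset.card_union_of_disjoint d2
    have e2 : C 3 ∪ C 7 ⊆ un 8 C G8.A1 := by
      intro c hc
      rcases Finset.mem_union.1 hc with hc | hc
      · exact mem_un.2 ⟨3, by omega, by decide, hc⟩
      · exact mem_un.2 ⟨7, by omega, by decide, hc⟩
    have e3 := Finset.card_le_card e2
    omega

/-- The column belongs to the lower part. -/
theorem tg_lowM {a b c m p q g : ℕ} (hcol : CF c m p q) (hT : TG a b m g)
    (h1 : c ≤ a) (h2 : c ≤ b + p) : TG a (b + p) m (q + g) := by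
  intro M
  by_contra hn
  obtain ⟨Q, hQ⟩ : ∃ Q : Ps → Prop,
    Q = fun P => TopA a (b + p) (q + g) P ∨ Blk a 0 M P (Finset.range P.length) := ⟨_, rfl⟩
  rw [← hQ] at hn
  have hQB : ∀ P, Blk a 0 M P (Finset.range P.length) → Q P := by
    intro P hP
    rw [hQ]
    exact Or.inr hP
  obtain ⟨P, hP, F, C, hS, wN, w3, w6, w7, c3, c4, c5, c7, hq, hg⟩ := col_topM ⟨inv_nil _ _, hn⟩
    hQB hcol hT h1 (by omega) (by omega) le_rfl
  refine hP.not ?_
  rw [hQ]
  left
  have d1 : Disjoint (C 3) (C 6) := hS.disj hP.inv (by omega) (by omega) (by omega) (by decide)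
    (by decide)
  have d2 : Disjoint (C 3) (C 7) := d1.mono_right c7
  refine topa_of hS G8.A2 (by decide) ?_ ?_ ?_ ?_
  · have x2 : Wd P (un 8 F (fun a => a == 4 || a == 5)) a :=
      (wdSub wN (by decide)).mono subset_rfl h1
    exact wd3 hS w7 x2 (by decide) (by decide)
  · have x1 : Wd P (un 8 F (fun a => a == 0 || a == 1 || a == 2 || a == 3)) (b + p) :=
      (wdSub wN (by decide)).mono subset_rfl h2
    have x2 : Wd P (un 8 F (fun a => a == 3 || a == 6)) (b + p) :=
      wdP w3 w6 (by decide) (by omega)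
    exact wd3 hS x1 x2 (by decide) (by decide)
  · intro a ha hAa
    have : a = 4 ∨ a = 5 ∨ a = 7 := by
      simp only [G8.A2, Bool.or_eq_true, beq_iff_eq] at hAa
      omega
    obtain rfl | rfl | rfl := this
    · exact ⟨1, by omega, by decide, c4⟩
    · exact ⟨1, by omega, by decide, c5.subset⟩
    · exact ⟨6, by omega, by decide, c7⟩
  · have e := Finset.card_union_of_disjoint d2
    have e2 : C 3 ∪ C 7 ⊆ un 8 C G8.A2 := by
      intro c hc
      rcases Finset.mem_union.1 hc with hc | hc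
      · exact mem_un.2 ⟨5, by omega, by decide, by rw [c5]; exact c3 hc⟩
      · exact mem_un.2 ⟨7, by omega, by decide, hc⟩
    have e3 := Finset.card_le_card e2
    omega

end Pool.Agent.Helper26.SQ2
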