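import Pool.Agent.Helper26.SQ2.Tools

/-!
Repeated blocks, the last one divided by its upper part.
-/

set_option autoImplicit false

namespace Pool.Agent.Helper26.SQ2

open Pool.Agent.Helper3.DW Pool.Agent.Helper26.SQ Pool.Agent.Helper18.SQ

/-- The block `2` is the lower part and the block `3` the upper part of the last block. -/
def RA (a b : ℕ) : Bool := decide (a < b) && !(a == 2)
def SA (a b : ℕ) : Bool := decide (b < a)

theorem split_rep {N : Ps} {j x : ℕ} (h : RepQ 2 j 0 x N) :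
    ∃ F C : ℕ → Finset ℕ, Sys N 4 F C RA SA ∧ Wd N (F 3) j ∧ x ≤ (C 3).card ∧ C 3 ⊆ C 1 := by
  obtain ⟨F, C, T, hS, hC⟩ := h
  obtain ⟨hC2, Cn, g1, g2, g3, g4, g5⟩ := hC 2 (by norm_num) (by norm_num)
  obtain ⟨hC1, -⟩ := hC 1 (by norm_num) (by norm_num)
  obtain ⟨F', hF'⟩ : ∃ F' : ℕ → Finset ℕ,
      F' = fun a => if a = 2 then F 2 \ Cn else if a = 3 then Cn else F a := ⟨_, rfl⟩
  have f0 : F' 0 = F 0 := by rw [hF']; simp
  have f1 : F' 1 = F 1 := by rw [hF']; simp
  have f2 : F' 2 = F 2 \ Cn := by rw [hF']; simp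
  have f3 : F' 3 = Cn := by rw [hF']; simp
  have key : ∀ a < 4, ∀ y ∈ F' a, y ∈ F (if a = 3 then 2 else a) := by
    intro a ha y hy
    obtain rfl | rfl | rfl | rfl : a = 0 ∨ a = 1 ∨ a = 2 ∨ a = 3 := by omega
    · rw [f0] at hy
      simpa using hy
    · rw [f1] at hy
      simpa using hy
    · rw [f2] at hy
      simpa using (Finset.mem_sdiff.1 hy).1
    · rw [f3] at hy
      simpa using g1 hy
  refine ⟨F', fun a => colU N (F' a), ⟨?_, ?_, ?_, ?_, ?_⟩, ?_, ?_, ?_⟩
  · intro y
    constructor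
    · intro hy
      obtain ⟨a, ha, hya⟩ := (hS.cov y).1 hy
      obtain rfl | rfl | rfl : a = 0 ∨ a = 1 ∨ a = 2 := by omega
      · exact ⟨0, by norm_num, by rwa [f0]⟩
      · exact ⟨1, by norm_num, by rwa [f1]⟩
      · by_cases hc : y ∈ Cn
        · exact ⟨3, by norm_num, by rwa [f3]⟩
        · exact ⟨2, by norm_num, by rw [f2]; exact Finset.mem_sdiff.2 ⟨hya, hc⟩⟩
    · rintro ⟨a, ha, hya⟩
      exact hS.len (by split_ifs <;> omega) y (key a ha y hya)
  · intro a ha b hb y hya hyb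
    have e := hS.dj _ (by split_ifs <;> omega) _ (by split_ifs <;> omega) y (key a ha y hya)
      (key b hb y hyb)
    by_contra hab
    have e2 : (a = 2 ∧ b = 3) ∨ (a = 3 ∧ b = 2) := by
      split_ifs at e <;> omega
    rcases e2 with ⟨rfl, rfl⟩ | ⟨rfl, rfl⟩
    · rw [f2] at hya
      rw [f3] at hyb
      exact (Finset.mem_sdiff.1 hya).2 hyb
    · rw [f3] at hya
      rw [f2] at hyb
      exact (Finset.mem_sdiff.1 hyb).2 hya
  · intro a _
    rfl
  · intro a ha b hb hab y hy z hz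
    simp only [RA, Bool.and_eq_true, decide_eq_true_eq, Bool.not_eq_true', beq_eq_false_iff_ne]
      at hab
    refine hS.lt _ (by split_ifs <;> omega) _ (by split_ifs <;> omega) ?_ y (key a ha y hy) z
      (key b hb z hz)
    simp only [decide_eq_true_eq]
    split_ifs <;> omega
  · intro a ha b hb hab y hy z hz
    simp only [SA, decide_eq_true_eq] at hab
    by_cases e : a = 3 ∧ b = 2
    · obtain ⟨rfl, rfl⟩ := e
      rw [f3] at hy
      rw [f2] at hz
      exact fun hlt => (Finset.mem_sdiff.1 hz).2 (g2 y hy z (Finset.mem_sdiff.1 hz).1 hlt)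
    · refine hS.nb _ (by split_ifs <;> omega) _ (by split_ifs <;> omega) ?_ y (key a ha y hy) z
        (key b hb z hz)
      simp only [decide_eq_true_eq]
      split_ifs <;> omega
  · rw [f3]
    exact g3
  · simp only [f3]
    exact g5
  · simp only [f3, f1]
    rw [hS.col 1 (by norm_num), hC1, ← hC2, ← hS.col 2 (by norm_num)]
    exact colU_mono g1

end Pool.Agent.Helper26.SQ2
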