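import Pool.Agent.Helper26.SQ2.Split

/-!
The recursion for the top structure: in width `2 k`, `k = 2 j`, with
`2 g' ≤ v' + v + 4 g + 1`.
-/

set_option autoImplicit false

namespace Pool.Agent.Helper26.SQ2

open Pool.Agent.Helper3.DW Pool.Agent.Helper26.SQ
open Pool.Agent.Helper18.SQ (TopR VG fg_of_vg region_top)

namespace G5

/-- Blocks `0`, `1`, `2`: a linear sum; `1` and `2` have the same colours. -/
def R0 (a b : ℕ) : Bool := decide (a < b)
def S0 (a b : ℕ) : Bool := decide (b < a)
def Tt (a b : ℕ) : Bool := a == 1 && b == 0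
def D1 (a : ℕ) : Bool := a == 0 || a == 1
def U1 (a : ℕ) : Bool := a == 2
/-- After the first top structure: `3`, `4`. -/
def R1 : ℕ → ℕ → Bool := catR 3 R0 ff D1 U1
def S1 : ℕ → ℕ → Bool := catS 3 S0 Tt D1 U1
def D2 (a : ℕ) : Bool := a == 0 || a == 1
def U2 (a : ℕ) : Bool := a == 2 || a == 4
/-- After the second top structure: `5`, `6`. -/
def R2 : ℕ → ℕ → Bool := catR 5 R1 ff D2 U2
def S2 : ℕ → ℕ → Bool := catS 5 S1 Tt D2 U2
def D3 (a : ℕ) : Bool := a == 0 || a == 1 || a == 3 || a == 5
def U3 (a : ℕ) : Bool := a == 2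
/-- After the repeated blocks: `7`, `8`, `9`, `10`. -/
def R3 : ℕ → ℕ → Bool := catR 7 R2 RA D3 U3
def S3 : ℕ → ℕ → Bool := catS 7 S2 SA D3 U3
def D4 (a : ℕ) : Bool := a == 0 || a == 1 || a == 3 || a == 5 || a == 7 || a == 8 || a == 9
def U4 (a : ℕ) : Bool := a == 2
/-- After the third top structure: `11`, `12`. -/
def R4 : ℕ → ℕ → Bool := catR 11 R3 ff D4 U4
def S4 : ℕ → ℕ → Bool := catS 11 S3 Tt D4 U4
/-- The blocks of width at most `j`. -/
def nn (_ : ℕ) : Bool := false
def K1 : ℕ → Bool := catK 3 nn tt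
def K2 : ℕ → Bool := catK 5 K1 tt
def K3 : ℕ → Bool := catK 7 K2 (fun a => a == 3)
def K4 : ℕ → Bool := catK 11 K3 tt
/-- The two choices of the upper part. -/
def A1 (a : ℕ) : Bool := a == 2 || a == 4 || a == 6 || a == 10
def A2 (a : ℕ) : Bool := a == 2 || a == 4 || a == 6 || a == 12

end G5

open G5

/-- The count. -/
theorem count_two {X2 X4 X6 X10 X12 : Finset ℕ} (d1 : Disjoint X4 X6) (d2 : Disjoint X10 X4)
    (d3 : Disjoint X10 X6) (d4 : Disjoint X12 X4) (d5 : Disjoint X12 X6) (d6 : Disjoint X12 X10) :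
    X2.card + X4.card + X6.card + X10.card + X12.card ≤
      (X2 ∪ X4 ∪ X6 ∪ X10).card + (X2 ∪ X4 ∪ X6 ∪ X12).card := by
  have e1 := Finset.card_union_add_card_inter (X2 ∪ X4 ∪ X6 ∪ X10) (X2 ∪ X4 ∪ X6 ∪ X12)
  have e2 : X2 ⊆ (X2 ∪ X4 ∪ X6 ∪ X10) ∩ (X2 ∪ X4 ∪ X6 ∪ X12) := by
    intro c hc
    simp only [Finset.mem_inter, Finset.mem_union]
    tauto
  have e3 : (X4 ∪ X6) ∪ (X10 ∪ X12) ⊆ (X2 ∪ X4 ∪ X6 ∪ X10) ∪ (X2 ∪ X4 ∪ X6 ∪ X12) := by
    intro c hc
    simp only [Finset.mem_union] at hc ⊢
    tauto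
  have e4 : ((X4 ∪ X6) ∪ (X10 ∪ X12)).card = (X4.card + X6.card) + (X10.card + X12.card) := by
    rw [Finset.card_union_of_disjoint, Finset.card_union_of_disjoint d1,
      Finset.card_union_of_disjoint d6.symm]
    rw [Finset.disjoint_union_left, Finset.disjoint_union_right, Finset.disjoint_union_right]
    exact ⟨⟨d2.symm, d4.symm⟩, ⟨d3.symm, d5.symm⟩⟩
  have e5 := Finset.card_le_card e2
  have e6 := Finset.card_le_card e3
  omega

/-- The last position contains the top structure. -/
theorem final_top {w m : ℕ} {P : Ps} {F C : ℕ → Finset ℕ} {j k v v' g g' : ℕ} (hk : k = 2 * j)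
    (hI : Inv w m P) (hS : Sys P 13 F C R4 S4) (hWk : ∀ a < 13, Wd P (F a) k)
    (hWj : ∀ a < 13, K4 a = true → Wd P (F a) j)
    (w9 : Wd P (un 13 F (fun a => a == 9 || a == 10)) k)
    (c2 : C 2 = C 1) (c4 : C 4 ⊆ C 3) (c6 : C 6 ⊆ C 5) (c10 : C 10 ⊆ C 8) (c12 : C 12 ⊆ C 11)
    (h2 : v' ≤ (C 2).card) (h4 : g ≤ (C 4).card) (h6 : g ≤ (C 6).card)
    (h10 : v + g ≤ (C 10).card) (h12 : g ≤ (C 12).card) (hg' : 2 * g' ≤ v' + v + 4 * g + 1) :
    TopQ k g' P := by
  have hWt : ∀ a < 13, tt a = true → Wd P (F a) k := fun a ha _ => hWk a ha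
  -- the count
  have d1 : Disjoint (C 3) (C 6) := hS.disj hI (by omega) (by omega) (by omega) (by decide)
    (by decide)
  have d2 : Disjoint (C 10) (C 4) := hS.disj hI (by omega) (by omega) (by omega) (by decide)
    (by decide)
  have d3 : Disjoint (C 10) (C 6) := hS.disj hI (by omega) (by omega) (by omega) (by decide)
    (by decide)
  have d4 : Disjoint (C 12) (C 4) := hS.disj hI (by omega) (by omega) (by omega) (by decide)
    (by decide)
  have d5 : Disjoint (C 12) (C 6) := hS.disj hI (by omega) (by omega) (by omega) (by decide)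
    (by decide)
  have d6 : Disjoint (C 12) (C 10) := hS.disj hI (by omega) (by omega) (by omega) (by decide)
    (by decide)
  have hcount := count_two (X2 := C 2) (d1.mono_left c4) d2 d3 d4 d5 d6
  -- the widths
  have wU : ∀ b, b = 10 ∨ b = 12 → ∀ A : ℕ → Bool,
      (∀ a < 13, (!A a || (a == 2 || a == 4 || a == 6 || a == b)) = true) →
      Wd P (un 13 F A) k := by
    intro b hb A hA
    have e1 : Wd P (un 13 F (fun a => a == 4 || a == 6)) j :=
      hS.wdA hWj _ (by decide) (by decide)
    have e3 : Wd P (un 13 F (fun a => a == 2)) k := hS.wdA hWt _ (by decide) (by decide)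
    rcases hb with rfl | rfl
    · have e2 : Wd P (un 13 F (fun a => a == 10)) j := hS.wdA hWj _ (by decide) (by decide)
      have e4 : Wd P (un 13 F (fun a => a == 4 || a == 6 || a == 10)) k :=
        wdP e1 e2 (by decide) (by omega)
      exact wd3 hS e4 e3 (by decide) (fun a ha => by
        have := hA a ha
        revert this
        cases A a <;> cases (a == 2) <;> cases (a == 4) <;> cases (a == 6) <;>
          cases (a == 10) <;> simp)
    · have e2 : Wd P (un 13 F (fun a => a == 12)) j := hS.wdA hWj _ (by decide) (by decide)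
      have e4 : Wd P (un 13 F (fun a => a == 4 || a == 6 || a == 12)) k :=
        wdP e1 e2 (by decide) (by omega)
      exact wd3 hS e4 e3 (by decide) (fun a ha => by
        have := hA a ha
        revert this
        cases A a <;> cases (a == 2) <;> cases (a == 4) <;> cases (a == 6) <;>
          cases (a == 12) <;> simp)
  have w01 : Wd P (un 13 F (fun a => a == 0 || a == 1)) k := hS.wdA hWt _ (by decide) (by decide)
  have w3 : Wd P (un 13 F (fun a => a == 3)) j := hS.wdA hWj _ (by decide) (by decide)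
  have w5 : Wd P (un 13 F (fun a => a == 5)) j := hS.wdA hWj _ (by decide) (by decide)
  have w35 : Wd P (un 13 F (fun a => a == 3 || a == 5)) k := wdP w3 w5 (by decide) (by omega)
  have w0135 : Wd P (un 13 F (fun a => a == 0 || a == 1 || a == 3 || a == 5)) k :=
    wd3 hS w01 w35 (by decide) (by decide)
  have w10 : Wd P (un 13 F (fun a => a == 10)) j := hS.wdA hWj _ (by decide) (by decide)
  have w11 : Wd P (un 13 F (fun a => a == 11)) j := hS.wdA hWj _ (by decide) (by decide)
  have w12 : Wd P (un 13 F (fun a => a == 12)) j := hS.wdA hWj _ (by decide) (by decide)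
  by_cases hcase : g' ≤ (C 2 ∪ C 4 ∪ C 6 ∪ C 10).card
  · refine topq_of hS A1 (by decide) (wU 10 (Or.inl rfl) A1 (by decide)) ?_ ?_ ?_
    · have x1 : Wd P (un 13 F (fun a => a == 7 || a == 8 || a == 9)) k :=
        hS.wdA hWt _ (by decide) (by decide)
      have x2 : Wd P (un 13 F (fun a => a == 11 || a == 12)) k :=
        wdP w11 w12 (by decide) (by omega)
      have x3 : Wd P (un 13 F (fun a => a == 0 || a == 1 || a == 3 || a == 5 || a == 7 || a == 8
          || a == 9)) k := wd3 hS w0135 x1 (by decide) (by decide)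
      exact wd3 hS x3 x2 (by decide) (by decide)
    · intro a ha hAa
      have : a = 2 ∨ a = 4 ∨ a = 6 ∨ a = 10 := by
        simp only [A1, Bool.or_eq_true, beq_iff_eq] at hAa
        omega
      obtain rfl | rfl | rfl | rfl := this
      · exact ⟨1, by omega, by decide, c2.subset⟩
      · exact ⟨3, by omega, by decide, c4⟩
      · exact ⟨5, by omega, by decide, c6⟩
      · exact ⟨8, by omega, by decide, c10⟩
    · refine hcase.trans (Finset.card_le_card ?_)
      intro c hc
      simp only [Finset.mem_union] at hc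
      rcases hc with ((hc | hc) | hc) | hc
      · exact mem_un.2 ⟨2, by omega, by decide, hc⟩
      · exact mem_un.2 ⟨4, by omega, by decide, hc⟩
      · exact mem_un.2 ⟨6, by omega, by decide, hc⟩
      · exact mem_un.2 ⟨10, by omega, by decide, hc⟩
  · have hcase2 : g' ≤ (C 2 ∪ C 4 ∪ C 6 ∪ C 12).card := by omega
    refine topq_of hS A2 (by decide) (wU 12 (Or.inr rfl) A2 (by decide)) ?_ ?_ ?_
    · have x1 : Wd P (un 13 F (fun a => a == 7 || a == 8)) k :=
        hS.wdA hWt _ (by decide) (by decide)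
      have x2 : Wd P (un 13 F (fun a => a == 10 || a == 11)) k :=
        wdP w10 w11 (by decide) (by omega)
      have x3 : Wd P (un 13 F (fun a => a == 9 || a == 10 || a == 11)) k :=
        wd3 hS w9 x2 (by decide) (by decide)
      have x4 : Wd P (un 13 F (fun a => a == 0 || a == 1 || a == 3 || a == 5 || a == 7
          || a == 8)) k := wd3 hS w0135 x1 (by decide) (by decide)
      exact wd3 hS x4 x3 (by decide) (by decide)
    · intro a ha hAa
      have : a = 2 ∨ a = 4 ∨ a = 6 ∨ a = 12 := by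
        simp only [A2, Bool.or_eq_true, beq_iff_eq] at hAa
        omega
      obtain rfl | rfl | rfl | rfl := this
      · exact ⟨1, by omega, by decide, c2.subset⟩
      · exact ⟨3, by omega, by decide, c4⟩
      · exact ⟨5, by omega, by decide, c6⟩
      · exact ⟨11, by omega, by decide, c12⟩
    · refine hcase2.trans (Finset.card_le_card ?_)
      intro c hc
      simp only [Finset.mem_union] at hc
      rcases hc with ((hc | hc) | hc) | hc
      · exact mem_un.2 ⟨2, by omega, by decide, hc⟩
      · exact mem_un.2 ⟨4, by omega, by decide, hc⟩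
      · exact mem_un.2 ⟨6, by omega, by decide, hc⟩
      · exact mem_un.2 ⟨12, by omega, by decide, hc⟩

end Pool.Agent.Helper26.SQ2
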