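import Pool.Agent.Helper26.SQ2.Trade

/-!
The recursion for the top structure, second form: in width `2 k`, `k = 2 j`, with
`6 g' ≤ v' + 14 v + 10 g + 5`.
-/

set_option autoImplicit false

namespace Pool.Agent.Helper26.SQ2

open Pool.Agent.Helper3.DW Pool.Agent.Helper26.SQ
open Pool.Agent.Helper18.SQ (TopR VG fg_of_vg region_top)

/-- Five blocks: `0 < 1 < 2, 3 < 4`; the blocks `2` and `3` are the two parts of one block. -/
def RB (a b : ℕ) : Bool := decide (a < b) && !(a == 2 && b == 3)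
def SB (a b : ℕ) : Bool := decide (b < a)

theorem split3 {N : Ps} {j a b c : ℕ} (h : RepG (BlkD j a b c) 3 N) :
    ∃ F C : ℕ → Finset ℕ, Sys N 5 F C RB SB ∧ Wd N (F 3) j ∧
      a ≤ 2 * (C 1).card + 3 * (C 3).card ∧ c ≤ (C 1).card ∧ C 3 ⊆ C 1 ∧ C 4 = C 1 := by
  obtain ⟨F, C, T, hS, hC⟩ := h
  obtain ⟨hC2, Cn, g1, g2, g3, g4, g5, g6⟩ := hC 2 (by norm_num) (by norm_num)
  obtain ⟨hC1, -⟩ := hC 1 (by norm_num) (by norm_num)
  obtain ⟨hC3, -⟩ := hC 3 (by norm_num) (by norm_num)
  rw [hS.col 2 (by norm_num), hC2] at g4 g6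
  obtain ⟨F', hF'⟩ : ∃ F' : ℕ → Finset ℕ,
      F' = fun a => if a = 2 then F 2 \ Cn else if a = 3 then Cn else if a = 4 then F 3
        else F a := ⟨_, rfl⟩
  have f0 : F' 0 = F 0 := by rw [hF']; simp
  have f1 : F' 1 = F 1 := by rw [hF']; simp
  have f2 : F' 2 = F 2 \ Cn := by rw [hF']; simp
  have f3 : F' 3 = Cn := by rw [hF']; simp
  have f4 : F' 4 = F 3 := by rw [hF']; simp
  have key : ∀ a < 5, ∀ y ∈ F' a, y ∈ F (if a ≤ 2 then a else a - 1) := by
    intro a ha y hy
    obtain rfl | rfl | rfl | rfl | rfl : a = 0 ∨ a = 1 ∨ a = 2 ∨ a = 3 ∨ a = 4 := by omega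
    · rw [f0] at hy
      simpa using hy
    · rw [f1] at hy
      simpa using hy
    · rw [f2] at hy
      simpa using (Finset.mem_sdiff.1 hy).1
    · rw [f3] at hy
      simpa using g1 hy
    · rw [f4] at hy
      simpa using hy
  have e1 : colU N (F 1) = T := by rw [hS.col 1 (by norm_num), hC1]
  have e3 : colU N (F 3) = T := by rw [hS.col 3 (by norm_num), hC3]
  have e2 : colU N Cn ⊆ T := by
    rw [← hC2, ← hS.col 2 (by norm_num)]
    exact colU_mono g1
  refine ⟨F', fun a => colU N (F' a), ⟨?_, ?_, ?_, ?_, ?_⟩, ?_, ?_, ?_, ?_, ?_⟩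
  · intro y
    constructor
    · intro hy
      obtain ⟨a, ha, hya⟩ := (hS.cov y).1 hy
      obtain rfl | rfl | rfl | rfl : a = 0 ∨ a = 1 ∨ a = 2 ∨ a = 3 := by omega
      · exact ⟨0, by norm_num, by rwa [f0]⟩
      · exact ⟨1, by norm_num, by rwa [f1]⟩
      · by_cases hc : y ∈ Cn
        · exact ⟨3, by norm_num, by rwa [f3]⟩
        · exact ⟨2, by norm_num, by rw [f2]; exact Finset.mem_sdiff.2 ⟨hya, hc⟩⟩
      · exact ⟨4, by norm_num, by rwa [f4]⟩
    · rintro ⟨a, ha, hya⟩
      exact hS.len (by split_ifs <;> omega) y (key a ha y hya)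
  · intro a ha b hb y hya hyb
    have e := hS.dj _ (by split_ifs <;> omega) _ (by split_ifs <;> omega) y (key a ha y hya)
      (key b hb y hyb)
    by_contra hab
    have e2 : (a = 2 ∧ b = 3) ∨ (a = 3 ∧ b = 2) := by
      split_ifs at e <;> omega
    rcases e2 with ⟨rfl, rfl⟩ | ⟨rfl, rfl⟩
    · rw [f2] at hya
      rw [f3] at hyb
      exact (Finset.mem_sdiff.1 hya).2 hyb
    · rw [f3] at hya
      rw [f2] at hyb
      exact (Finset.mem_sdiff.1 hyb).2 hya
  · intro a _
    rfl
  · intro a ha b hb hab y hy z hz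
    simp only [RB, Bool.and_eq_true, decide_eq_true_eq, Bool.not_eq_true',
      Bool.and_eq_false_iff, beq_eq_false_iff_ne] at hab
    refine hS.lt _ (by split_ifs <;> omega) _ (by split_ifs <;> omega) ?_ y (key a ha y hy) z
      (key b hb z hz)
    simp only [decide_eq_true_eq]
    split_ifs <;> omega
  · intro a ha b hb hab y hy z hz
    simp only [SB, decide_eq_true_eq] at hab
    by_cases e : a = 3 ∧ b = 2
    · obtain ⟨rfl, rfl⟩ := e
      rw [f3] at hy
      rw [f2] at hz
      exact fun hlt => (Finset.mem_sdiff.1 hz).2 (g2 y hy z (Finset.mem_sdiff.1 hz).1 hlt)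
    · refine hS.nb _ (by split_ifs <;> omega) _ (by split_ifs <;> omega) ?_ y (key a ha y hy) z
        (key b hb z hz)
      simp only [decide_eq_true_eq]
      split_ifs <;> omega
  · rw [f3]
    exact g3
  · simp only [f3, f1, e1]
    exact g4
  · simp only [f1, e1]
    exact g6
  · simp only [f3, f1, e1]
    exact e2
  · simp only [f4, f1, e1, e3]

namespace G6

def Tt (a b : ℕ) : Bool := a == 1 && b == 0
def D1 (a : ℕ) : Bool := a == 0 || a == 1 || a == 2
def U1 (a : ℕ) : Bool := a == 4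
/-- After the repeated blocks: `5`, `6`, `7`, `8`. -/
def R1 : ℕ → ℕ → Bool := catR 5 RB RA D1 U1
def S1 : ℕ → ℕ → Bool := catS 5 SB SA D1 U1
def D2 (a : ℕ) : Bool := a == 0 || a == 1 || a == 2 || a == 5 || a == 6 || a == 7
def U2 (a : ℕ) : Bool := a == 4
/-- After the top structure: `9`, `10`. -/
def R2 : ℕ → ℕ → Bool := catR 9 R1 ff D2 U2
def S2 : ℕ → ℕ → Bool := catS 9 S1 Tt D2 U2
/-- The blocks of width at most `j`. -/
def K0 (a : ℕ) : Bool := a == 3
def K1 : ℕ → Bool := catK 5 K0 (fun a => a == 3)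
def K2 : ℕ → Bool := catK 9 K1 tt
/-- The two choices of the upper part. -/
def A1 (a : ℕ) : Bool := a == 3 || a == 4 || a == 8
def A2 (a : ℕ) : Bool := a == 3 || a == 4 || a == 10

end G6

open G6

/-- The count. -/
theorem count_car {T X Y Z : Finset ℕ} (d1 : Disjoint Y X) (d2 : Disjoint Z X)
    (d3 : Disjoint Z Y) : T.card + X.card + Y.card + Z.card ≤
      (T ∪ X ∪ Y).card + (T ∪ X ∪ Z).card := by
  have e1 := Finset.card_union_add_card_inter (T ∪ X ∪ Y) (T ∪ X ∪ Z)
  have e2 : T ⊆ (T ∪ X ∪ Y) ∩ (T ∪ X ∪ Z) := by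
    intro c hc
    simp only [Finset.mem_inter, Finset.mem_union]
    tauto
  have e3 : X ∪ (Y ∪ Z) ⊆ (T ∪ X ∪ Y) ∪ (T ∪ X ∪ Z) := by
    intro c hc
    simp only [Finset.mem_union] at hc ⊢
    tauto
  have e4 : (X ∪ (Y ∪ Z)).card = X.card + (Y.card + Z.card) := by
    rw [Finset.card_union_of_disjoint, Finset.card_union_of_disjoint d3.symm]
    rw [Finset.disjoint_union_right]
    exact ⟨d1.symm, d2.symm⟩
  have e5 := Finset.card_le_card e2
  have e6 := Finset.card_le_card e3
  omega

/-- The last position contains the top structure. -/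
theorem final_car {w m : ℕ} {P : Ps} {F C : ℕ → Finset ℕ} {j k v v' g g' : ℕ} (hk : k = 2 * j)
    (hI : Inv w m P) (hS : Sys P 11 F C G6.R2 G6.S2) (hWk : ∀ a < 11, Wd P (F a) k)
    (hWj : ∀ a < 11, G6.K2 a = true → Wd P (F a) j)
    (w7 : Wd P (un 11 F (fun a => a == 7 || a == 8)) k)
    (c4 : C 4 = C 1) (c3 : C 3 ⊆ C 1) (c8 : C 8 ⊆ C 6) (c10 : C 10 ⊆ C 9)
    (h1 : v' ≤ (C 1).card) (h2 : 11 * v + 4 * g ≤ 2 * (C 1).card + 3 * (C 3).card)
    (h8 : v + g ≤ (C 8).card) (h10 : g ≤ (C 10).card)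
    (hg' : 6 * g' ≤ v' + 14 * v + 10 * g + 5) : TopQ k g' P := by
  have hWt : ∀ a < 11, tt a = true → Wd P (F a) k := fun a ha _ => hWk a ha
  -- the count
  have d1 : Disjoint (C 8) (C 3) := hS.disj hI (by omega) (by omega) (by omega) (by decide)
    (by decide)
  have d2 : Disjoint (C 10) (C 3) := hS.disj hI (by omega) (by omega) (by omega) (by decide)
    (by decide)
  have d3 : Disjoint (C 10) (C 8) := hS.disj hI (by omega) (by omega) (by omega) (by decide)
    (by decide)
  have hcount := count_car (T := C 4) d1 d2 d3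
  rw [c4] at hcount
  -- the widths
  have u3 : Wd P (un 11 F (fun a => a == 3)) j := hS.wdA hWj _ (by decide) (by decide)
  have u8 : Wd P (un 11 F (fun a => a == 8)) j := hS.wdA hWj _ (by decide) (by decide)
  have u9 : Wd P (un 11 F (fun a => a == 9)) j := hS.wdA hWj _ (by decide) (by decide)
  have u10 : Wd P (un 11 F (fun a => a == 10)) j := hS.wdA hWj _ (by decide) (by decide)
  have u4 : Wd P (un 11 F (fun a => a == 4)) k := hS.wdA hWt _ (by decide) (by decide)
  have u012 : Wd P (un 11 F (fun a => a == 0 || a == 1 || a == 2)) k :=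
    hS.wdA hWt _ (by decide) (by decide)
  by_cases hcase : g' ≤ (C 1 ∪ C 3 ∪ C 8).card
  · refine topq_of hS G6.A1 (by decide) ?_ ?_ ?_ ?_
    · have x1 : Wd P (un 11 F (fun a => a == 3 || a == 8)) k := wdP u3 u8 (by decide) (by omega)
      exact wd3 hS x1 u4 (by decide) (by decide)
    · have x1 : Wd P (un 11 F (fun a => a == 5 || a == 6 || a == 7)) k :=
        hS.wdA hWt _ (by decide) (by decide)
      have x2 : Wd P (un 11 F (fun a => a == 9 || a == 10)) k := wdP u9 u10 (by decide) (by omega)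
      have x3 : Wd P (un 11 F (fun a => a == 0 || a == 1 || a == 2 || a == 5 || a == 6
          || a == 7)) k := wd3 hS u012 x1 (by decide) (by decide)
      exact wd3 hS x3 x2 (by decide) (by decide)
    · intro a ha hAa
      have : a = 3 ∨ a = 4 ∨ a = 8 := by
        simp only [G6.A1, Bool.or_eq_true, beq_iff_eq] at hAa
        omega
      obtain rfl | rfl | rfl := this
      · exact ⟨1, by omega, by decide, c3⟩
      · exact ⟨1, by omega, by decide, c4.subset⟩
      · exact ⟨6, by omega, by decide, c8⟩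
    · refine hcase.trans (Finset.card_le_card ?_)
      intro c hc
      simp only [Finset.mem_union] at hc
      rcases hc with (hc | hc) | hc
      · exact mem_un.2 ⟨4, by omega, by decide, by rw [c4]; exact hc⟩
      · exact mem_un.2 ⟨3, by omega, by decide, hc⟩
      · exact mem_un.2 ⟨8, by omega, by decide, hc⟩
  · have hcase2 : g' ≤ (C 1 ∪ C 3 ∪ C 10).card := by omega
    refine topq_of hS G6.A2 (by decide) ?_ ?_ ?_ ?_
    · have x1 : Wd P (un 11 F (fun a => a == 3 || a == 10)) k :=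
        wdP u3 u10 (by decide) (by omega)
      exact wd3 hS x1 u4 (by decide) (by decide)
    · have x1 : Wd P (un 11 F (fun a => a == 5 || a == 6)) k :=
        hS.wdA hWt _ (by decide) (by decide)
      have x2 : Wd P (un 11 F (fun a => a == 8 || a == 9)) k := wdP u8 u9 (by decide) (by omega)
      have x3 : Wd P (un 11 F (fun a => a == 7 || a == 8 || a == 9)) k :=
        wd3 hS w7 x2 (by decide) (by decide)
      have x4 : Wd P (un 11 F (fun a => a == 0 || a == 1 || a == 2 || a == 5 || a == 6)) k :=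
        wd3 hS u012 x1 (by decide) (by decide)
      exact wd3 hS x4 x3 (by decide) (by decide)
    · intro a ha hAa
      have : a = 3 ∨ a = 4 ∨ a = 10 := by
        simp only [G6.A2, Bool.or_eq_true, beq_iff_eq] at hAa
        omega
      obtain rfl | rfl | rfl := this
      · exact ⟨1, by omega, by decide, c3⟩
      · exact ⟨1, by omega, by decide, c4.subset⟩
      · exact ⟨9, by omega, by decide, c10⟩
    · refine hcase2.trans (Finset.card_le_card ?_)
      intro c hc
      simp only [Finset.mem_union] at hc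
      rcases hc with (hc | hc) | hc
      · exact mem_un.2 ⟨4, by omega, by decide, by rw [c4]; exact hc⟩
      · exact mem_un.2 ⟨3, by omega, by decide, hc⟩
      · exact mem_un.2 ⟨10, by omega, by decide, hc⟩

end Pool.Agent.Helper26.SQ2
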