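import Pool.Agent.Helper26.SQ2.RepH

/-!
The recursion for the top structure, third form: `g' = 2 v + 3 g`.
-/

set_option autoImplicit false

namespace Pool.Agent.Helper26.SQ2

open Pool.Agent.Helper3.DW Pool.Agent.Helper26.SQ
open Pool.Agent.Helper18.SQ (TopR VG fg_of_vg)

namespace G7

def Tt (a b : ℕ) : Bool := a == 1 && b == 0
def D1 (a : ℕ) : Bool := a == 0 || a == 1 || a == 2
def U1 (a : ℕ) : Bool := a == 4
/-- After the first top structure: `5`, `6`. -/
def R1 : ℕ → ℕ → Bool := catR 5 RH ff D1 U1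
def S1 : ℕ → ℕ → Bool := catS 5 SH Tt D1 U1
def D2 (a : ℕ) : Bool := a == 0 || a == 1 || a == 2
def U2 (a : ℕ) : Bool := a == 4 || a == 6
/-- After the second top structure: `7`, `8`. -/
def R2 : ℕ → ℕ → Bool := catR 7 R1 ff D2 U2
def S2 : ℕ → ℕ → Bool := catS 7 S1 Tt D2 U2
/-- The blocks of width at most `j`. -/
def K0 (a : ℕ) : Bool := a == 3
def K1 : ℕ → Bool := catK 5 K0 tt
def K2 : ℕ → Bool := catK 7 K1 tt
/-- The upper part. -/
def A1 (a : ℕ) : Bool := a == 3 || a == 4 || a == 6 || a == 8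

end G7

open G7

/-- The last position contains the top structure. -/
theorem final_col {w m : ℕ} {P : Ps} {F C : ℕ → Finset ℕ} {j k v g g' : ℕ} (hk : k = 2 * j)
    (hI : Inv w m P) (hS : Sys P 9 F C G7.R2 G7.S2)
    (hWj : ∀ a < 9, G7.K2 a = true → Wd P (F a) j)
    (wN : Wd P (un 9 F (fun a => decide (a < 5))) k)
    (c3 : C 3 ⊆ C 1) (c4 : C 4 ⊆ C 1) (c6 : C 6 ⊆ C 5) (c8 : C 8 ⊆ C 7)
    (h3 : 2 * v + g ≤ (C 3).card) (h6 : g ≤ (C 6).card) (h8 : g ≤ (C 8).card)
    (hg' : g' ≤ 2 * v + 3 * g) : TopQ k g' P := by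
  have d1 : Disjoint (C 3) (C 6) := hS.disj hI (by omega) (by omega) (by omega) (by decide)
    (by decide)
  have d2 : Disjoint (C 3) (C 8) := hS.disj hI (by omega) (by omega) (by omega) (by decide)
    (by decide)
  have d3 : Disjoint (C 5) (C 8) := hS.disj hI (by omega) (by omega) (by omega) (by decide)
    (by decide)
  have d4 : Disjoint (C 6) (C 8) := d3.mono_left c6
  -- the widths
  have u3 : Wd P (un 9 F (fun a => a == 3)) j := hS.wdA hWj _ (by decide) (by decide)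
  have u68 : Wd P (un 9 F (fun a => a == 6 || a == 8)) j := hS.wdA hWj _ (by decide) (by decide)
  have u5 : Wd P (un 9 F (fun a => a == 5)) j := hS.wdA hWj _ (by decide) (by decide)
  have u7 : Wd P (un 9 F (fun a => a == 7)) j := hS.wdA hWj _ (by decide) (by decide)
  have u34 : Wd P (un 9 F (fun a => a == 3 || a == 4)) k := wN.mono (by
    intro x hx
    obtain ⟨a, ha, hAa, hxa⟩ := mem_un.1 hx
    refine mem_un.2 ⟨a, ha, ?_, hxa⟩
    simp only [Bool.or_eq_true, beq_iff_eq] at hAa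
    simp only [decide_eq_true_eq]
    omega) le_rfl
  have u012 : Wd P (un 9 F (fun a => a == 0 || a == 1 || a == 2)) k := wN.mono (by
    intro x hx
    obtain ⟨a, ha, hAa, hxa⟩ := mem_un.1 hx
    refine mem_un.2 ⟨a, ha, ?_, hxa⟩
    simp only [Bool.or_eq_true, beq_iff_eq] at hAa
    simp only [decide_eq_true_eq]
    omega) le_rfl
  refine topq_of hS G7.A1 (by decide) ?_ ?_ ?_ ?_
  · have x1 : Wd P (un 9 F (fun a => a == 3 || a == 6 || a == 8)) k :=
      wdP u3 u68 (by decide) (by omega)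
    exact wd3 hS x1 u34 (by decide) (by decide)
  · have x1 : Wd P (un 9 F (fun a => a == 5 || a == 7)) k := wdP u5 u7 (by decide) (by omega)
    exact wd3 hS u012 x1 (by decide) (by decide)
  · intro a ha hAa
    have : a = 3 ∨ a = 4 ∨ a = 6 ∨ a = 8 := by
      simp only [G7.A1, Bool.or_eq_true, beq_iff_eq] at hAa
      omega
    obtain rfl | rfl | rfl | rfl := this
    · exact ⟨1, by omega, by decide, c3⟩
    · exact ⟨1, by omega, by decide, c4⟩
    · exact ⟨5, by omega, by decide, c6⟩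
    · exact ⟨7, by omega, by decide, c8⟩
  · have e : (C 3 ∪ (C 6 ∪ C 8)).card = (C 3).card + ((C 6).card + (C 8).card) := by
      rw [Finset.card_union_of_disjoint, Finset.card_union_of_disjoint d4]
      rw [Finset.disjoint_union_right]
      exact ⟨d1, d2⟩
    have e2 : C 3 ∪ (C 6 ∪ C 8) ⊆ un 9 C G7.A1 := by
      intro c hc
      simp only [Finset.mem_union] at hc
      rcases hc with hc | hc | hc
      · exact mem_un.2 ⟨3, by omega, by decide, hc⟩
      · exact mem_un.2 ⟨6, by omega, by decide, hc⟩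
      · exact mem_un.2 ⟨8, by omega, by decide, hc⟩
    have e3 := Finset.card_le_card e2
    omega

/-- The third recursion for the top structure. -/
theorem top_col {j m v g : ℕ} (h : VG j m v g) (M : ℕ) :
    Force (2 * (2 * j)) m (TopR (2 * j) (2 * v + 3 * g) M) [] := by
  by_contra hn
  have hcol := col_force h.1 h.2
  have htop := h.2 M
  obtain ⟨g', hg'⟩ : ∃ g', g' = 2 * v + 3 * g := ⟨_, rfl⟩
  obtain ⟨k, hk⟩ : ∃ k, k = 2 * j := ⟨_, rfl⟩
  rw [← hk, ← hg'] at hn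
  rw [← hk] at hcol htop
  obtain ⟨Q, hQ⟩ : ∃ Q : Ps → Prop, Q = TopR k g' M := ⟨_, rfl⟩
  rw [← hQ] at hn
  have hQB : ∀ P, Blk k 0 M P (Finset.range P.length) → Q P := by
    intro P hP
    rw [hQ]
    exact Or.inr hP
  have hP0 : Safe (2 * k) m Q [] := ⟨inv_nil _ _, hn⟩
  -- the repeated blocks
  obtain ⟨P1, hP1a, hP1b, hP1⟩ := first hP0 (by omega) (repH (colB_cls j _) hcol 2 M)
  rcases hP1a with hP1a | hP1a
  swap
  · exact hP1.not (hQB _ (blk_of_card hP1b hP1a))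
  obtain ⟨F0, C0, hS0, hW3, h3, hC3, hC4⟩ := splitH hP1a
  have hWj0 : ∀ a < 5, G7.K0 a = true → Wd P1 (F0 a) j := by
    intro a _ h3
    simp only [G7.K0, beq_iff_eq] at h3
    rw [h3]
    exact hW3
  have wN0 : ∀ A : ℕ → Bool, Wd P1 (un 5 F0 A) k := fun A =>
    (wd_range hP1b.good).mono (fun y hy => Finset.mem_range.2 (hS0.un_len y hy)) le_rfl
  -- the plays in width `k`
  have hT' : Force k m (fun N => TopQ j g N ∨ Blk k 0 M N (Finset.range N.length)) [] :=
    htop.imp fun N hN => hN.imp id fun h => Blk.wide h (by omega)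
  -- the first top structure: blocks `5`, `6`
  obtain ⟨N1, hN1, hN1I, hP2⟩ := ins_alt hP1 hQB hS0 G7.D1 G7.U1 (by decide) (by decide)
    (by decide) (i := j) (hS0.wdA hWj0 _ (by decide) (by decide)) (by omega)
    (wN0 G7.U1) hT'
  obtain ⟨Fa, Ca, hSa, hWa0, hWa1, hCa, hga⟩ := hN1
  have hWa : ∀ a < 2, tt a = true → Wd N1 (Fa a) j := by
    intro a ha _
    obtain rfl | rfl : a = 0 ∨ a = 1 := by omega
    · exact hWa0
    · exact hWa1
  have hS1 : Sys _ 7 _ _ G7.R1 G7.S1 := hS0.glu (S2 := G7.Tt) hSa G7.D1 G7.U1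
    hP1.inv.good.lt_len hN1I.good.lt_len
  have hWj1 := hS0.wdK (Q := N1) (q2 := 2) (F2 := Fa) (K2 := tt)
    (D := un 5 F0 G7.D1) (U := un 5 F0 G7.U1) hWj0 hWa
  have wN1 := wdOld (N := N1) (D := un 5 F0 G7.D1) (U := un 5 F0 G7.U1) (q2 := 2) (F2 := Fa)
    hS0 (wN0 (fun a => decide (a < 5))) (by decide)
  generalize hP2d : glue P1 (un 5 F0 G7.D1) (un 5 F0 G7.U1) N1 = P2 at *
  generalize hF1d : catF 5 P1.length F0 Fa = F1 at *
  -- the second top structure: blocks `7`, `8`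
  have wU2 : Wd P2 (un 7 F1 G7.U2) k := by
    have x4 : Wd P2 (un 7 F1 (fun a => a == 4)) k := wN1.mono (by
      intro x hx
      obtain ⟨a, ha, hAa, hxa⟩ := mem_un.1 hx
      refine mem_un.2 ⟨a, ha, ?_, hxa⟩
      simp only [beq_iff_eq] at hAa
      simp only [decide_eq_true_eq]
      omega) le_rfl
    have x6 : Wd P2 (un 7 F1 (fun a => a == 6)) k :=
      (hS1.wdA hWj1 (fun a => a == 6) (by decide) (by decide)).mono subset_rfl (by omega)
    exact wd3 hS1 x6 x4 (by decide) (by decide)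
  obtain ⟨N2, hN2, hN2I, hP3⟩ := ins_alt hP2 hQB hS1 G7.D2 G7.U2 (by decide) (by decide)
    (by decide) (i := k) (wdP (A := fun a => a == 3) (B := fun a => a == 5)
      (hS1.wdA hWj1 _ (by decide) (by decide)) (hS1.wdA hWj1 _ (by decide) (by decide))
      (by decide) (by omega)) (by omega) wU2 hT'
  obtain ⟨Fr, Cr, hSr, hWr0, hWr1, hCr, hgr⟩ := hN2
  have hWr : ∀ a < 2, tt a = true → Wd N2 (Fr a) j := by
    intro a ha _
    obtain rfl | rfl : a = 0 ∨ a = 1 := by omega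
    · exact hWr0
    · exact hWr1
  have hS2 : Sys _ 9 _ _ G7.R2 G7.S2 := hS1.glu (S2 := G7.Tt) hSr G7.D2 G7.U2
    hP2.inv.good.lt_len hN2I.good.lt_len
  have hWj2 := hS1.wdK (Q := N2) (q2 := 2) (F2 := Fr) (K2 := tt) (D := un 7 F1 G7.D2)
    (U := un 7 F1 G7.U2) hWj1 hWr
  have wN2 := wdOld (N := N2) (D := un 7 F1 G7.D2) (U := un 7 F1 G7.U2) (q2 := 2) (F2 := Fr)
    hS1 wN1 (by decide)
  have hfin := final_col hk hP3.inv hS2 hWj2 wN2 hC3 hC4 hCa hCr h3 hga hgr hg'.le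
  refine hP3.not ?_
  rw [hQ]
  exact Or.inl hfin

theorem vg_col {j m v g : ℕ} (h : VG j m v g) : VG (2 * j) m (3 * v + g) (2 * v + 3 * g) :=
  ⟨fg_of_vg h, top_col h⟩

end Pool.Agent.Helper26.SQ2
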