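import Pool.Agent.Helper26.SQ2.TopA

/-!
Enlarging a top structure by a column, on the side of the upper part or of the lower part.
-/

set_option autoImplicit false

namespace Pool.Agent.Helper26.SQ2

open Pool.Agent.Helper3.DW Pool.Agent.Helper26.SQ
open Pool.Agent.Helper18.SQ (TopR VG fg_of_vg)

/-- One new block. -/
theorem wdOne {P N : Ps} {D U : Finset ℕ} {q q2 k : ℕ} {F F2 : ℕ → Finset ℕ} (i : ℕ)
    (h : Wd N (F2 i) k) :
    Wd (glue P D U N) (un (q + q2) (catF q P.length F F2) (fun a => a == q + i)) k := by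
  refine (Wd.new (P := P) (D := D) (U := U) h).mono ?_ le_rfl
  intro x hx
  obtain ⟨a, _, hAa, hxa⟩ := mem_un.1 hx
  simp only [beq_iff_eq] at hAa
  rw [hAa, catF, if_neg (by omega), Nat.add_sub_cancel_left] at hxa
  exact hxa

/-- The common part of the two plays: a column and a top structure beside it. -/
theorem col_top {w a' a b c m p q g M : ℕ} {Q : Ps → Prop} (hP0 : Safe w m Q [])
    (hQB : ∀ P, Blk a' 0 M P (Finset.range P.length) → Q P)
    (hcol : Force c m (fun P => ColB p q P (Finset.range P.length)) []) (hT : TG a b m g)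
    (h1 : c ≤ a') (h2 : c ≤ w) (h3 : p + (a + b) ≤ w) (h4 : a ≤ a') :
    ∃ P : Ps, Safe w m Q P ∧ ∃ F C : ℕ → Finset ℕ, Sys P 8 F C G8.R1 G8.S1 ∧
      Wd P (un 8 F (fun a => decide (a < 6))) c ∧ Wd P (un 8 F (fun a => a == 3)) p ∧
      Wd P (un 8 F (fun a => a == 6)) b ∧ Wd P (un 8 F (fun a => a == 7)) a ∧
      C 3 ⊆ C 1 ∧ C 4 ⊆ C 1 ∧ C 5 = C 1 ∧ C 7 ⊆ C 6 ∧ q ≤ (C 3).card ∧ g ≤ (C 7).card := by
  -- the repeated blocks
  obtain ⟨P1, hP1a, hP1b, hP1⟩ := first hP0 h2 (repH (colB_cls p q) hcol 3 M)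
  rcases hP1a with hP1a | hP1a
  swap
  · exact absurd (hQB _ (Blk.wide (blk_of_card hP1b hP1a) h1)) hP1.not
  obtain ⟨F0, C0, hS0, hW3, hq, hC3, hC4, hC5⟩ := splitH3 hP1a
  have wN0 : ∀ A : ℕ → Bool, Wd P1 (un 6 F0 A) c := fun A =>
    (wd_range hP1b.good).mono (fun y hy => Finset.mem_range.2 (hS0.un_len y hy)) le_rfl
  have w3 : Wd P1 (un 6 F0 (fun a => a == 3)) p := by
    refine hW3.mono ?_ le_rfl
    intro x hx
    obtain ⟨a, _, hAa, hxa⟩ := mem_un.1 hx
    simp only [beq_iff_eq] at hAa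
    rwa [← hAa]
  have hT' : Force (a + b) m (fun N => TopA a b g N ∨ Blk a' 0 M N (Finset.range N.length)) [] :=
    (hT M).imp fun N hN => hN.imp id fun h => Blk.wide h h4
  -- the top structure: blocks `6`, `7`
  obtain ⟨N1, hN1, hN1I, hP2⟩ := ins_alt hP1 hQB hS0 G8.D1 G8.U1 (by decide) (by decide)
    (by decide) (i := p) (wdSub w3 (by decide)) h3 ((wN0 G8.U1).mono subset_rfl h1) hT'
  obtain ⟨Fa, Ca, hSa, hWa0, hWa1, hCa, hga⟩ := hN1
  have hS1 : Sys _ 8 _ _ G8.R1 G8.S1 := hS0.glu (S2 := G8.Tt) hSa G8.D1 G8.U1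
    hP1.inv.good.lt_len hN1I.good.lt_len
  have wN := wdOld (N := N1) (D := un 6 F0 G8.D1) (U := un 6 F0 G8.U1) (q2 := 2) (F2 := Fa)
    hS0 (wN0 (fun a => decide (a < 6))) (by decide)
  have w3' := wdOld (N := N1) (D := un 6 F0 G8.D1) (U := un 6 F0 G8.U1) (q2 := 2) (F2 := Fa)
    hS0 w3 (by decide)
  have w6 := wdOne (P := P1) (N := N1) (q := 6) (F := F0) (D := un 6 F0 G8.D1)
    (U := un 6 F0 G8.U1) (F2 := Fa) (q2 := 2) 0 hWa0
  have w7 := wdOne (P := P1) (N := N1) (q := 6) (F := F0) (D := un 6 F0 G8.D1)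
    (U := un 6 F0 G8.U1) (F2 := Fa) (q2 := 2) 1 hWa1
  exact ⟨_, hP2, _, _, hS1, wN, w3', w6, w7, hC3, hC4, hC5, hCa, hq, hga⟩

/-- The column belongs to the upper part. -/
theorem tg_up {a b c m p q g : ℕ}
    (hcol : Force c m (fun P => ColB p q P (Finset.range P.length)) []) (hT : TG a b m g)
    (h1 : c ≤ a + p) (h2 : c ≤ b) : TG (a + p) b m (q + g) := by
  intro M
  by_contra hn
  obtain ⟨Q, hQ⟩ : ∃ Q : Ps → Prop,
    Q = fun P => TopA (a + p) b (q + g) P ∨ Blk (a + p) 0 M P (Finset.range P.length) := ⟨_, rfl⟩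
  rw [← hQ] at hn
  have hQB : ∀ P, Blk (a + p) 0 M P (Finset.range P.length) → Q P := by
    intro P hP
    rw [hQ]
    exact Or.inr hP
  obtain ⟨P, hP, F, C, hS, wN, w3, w6, w7, c3, c4, c5, c7, hq, hg⟩ := col_top ⟨inv_nil _ _, hn⟩
    hQB hcol hT h1 (by omega) (by omega) (by omega)
  refine hP.not ?_
  rw [hQ]
  left
  have d1 : Disjoint (C 3) (C 6) := hS.disj hP.inv (by omega) (by omega) (by omega) (by decide)
    (by decide)
  have d2 : Disjoint (C 3) (C 7) := d1.mono_right c7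
  refine topa_of hS G8.A1 (by decide) ?_ ?_ ?_ ?_
  · have x1 : Wd P (un 8 F (fun a => a == 3 || a == 7)) (a + p) :=
      wdP w3 w7 (by decide) (by omega)
    have x2 : Wd P (un 8 F (fun a => a == 3 || a == 4 || a == 5)) (a + p) :=
      (wdSub wN (by decide)).mono subset_rfl h1
    exact wd3 hS x1 x2 (by decide) (by decide)
  · have x1 : Wd P (un 8 F (fun a => a == 0 || a == 1 || a == 2)) b :=
      (wdSub wN (by decide)).mono subset_rfl h2
    exact wd3 hS x1 w6 (by decide) (by decide)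
  · intro a ha hAa
    have : a = 3 ∨ a = 4 ∨ a = 5 ∨ a = 7 := by
      simp only [G8.A1, Bool.or_eq_true, beq_iff_eq] at hAa
      omega
    obtain rfl | rfl | rfl | rfl := this
    · exact ⟨1, by omega, by decide, c3⟩
    · exact ⟨1, by omega, by decide, c4⟩
    · exact ⟨1, by omega, by decide, c5.subset⟩
    · exact ⟨6, by omega, by decide, c7⟩
  · have e := Finset.card_union_of_disjoint d2
    have e2 : C 3 ∪ C 7 ⊆ un 8 C G8.A1 := by
      intro c hc
      rcases Finset.mem_union.1 hc with hc | hc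
      · exact mem_un.2 ⟨3, by omega, by decide, hc⟩
      · exact mem_un.2 ⟨7, by omega, by decide, hc⟩
    have e3 := Finset.card_le_card e2
    omega

/-- The column belongs to the lower part. -/
theorem tg_low {a b c m p q g : ℕ}
    (hcol : Force c m (fun P => ColB p q P (Finset.range P.length)) []) (hT : TG a b m g)
    (h1 : c ≤ a) (h2 : c ≤ b + p) : TG a (b + p) m (q + g) := by
  intro M
  by_contra hn
  obtain ⟨Q, hQ⟩ : ∃ Q : Ps → Prop,
    Q = fun P => TopA a (b + p) (q + g) P ∨ Blk a 0 M P (Finset.range P.length) := ⟨_, rfl⟩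
  rw [← hQ] at hn
  have hQB : ∀ P, Blk a 0 M P (Finset.range P.length) → Q P := by
    intro P hP
    rw [hQ]
    exact Or.inr hP
  obtain ⟨P, hP, F, C, hS, wN, w3, w6, w7, c3, c4, c5, c7, hq, hg⟩ := col_top ⟨inv_nil _ _, hn⟩
    hQB hcol hT h1 (by omega) (by omega) le_rfl
  refine hP.not ?_
  rw [hQ]
  left
  have d1 : Disjoint (C 3) (C 6) := hS.disj hP.inv (by omega) (by omega) (by omega) (by decide)
    (by decide)
  have d2 : Disjoint (C 3) (C 7) := d1.mono_right c7
  refine topa_of hS G8.A2 (by decide) ?_ ?_ ?_ ?_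
  · have x2 : Wd P (un 8 F (fun a => a == 4 || a == 5)) a :=
      (wdSub wN (by decide)).mono subset_rfl h1
    exact wd3 hS w7 x2 (by decide) (by decide)
  · have x1 : Wd P (un 8 F (fun a => a == 0 || a == 1 || a == 2 || a == 3)) (b + p) :=
      (wdSub wN (by decide)).mono subset_rfl h2
    have x2 : Wd P (un 8 F (fun a => a == 3 || a == 6)) (b + p) :=
      wdP w3 w6 (by decide) (by omega)
    exact wd3 hS x1 x2 (by decide) (by decide)
  · intro a ha hAa
    have : a = 4 ∨ a = 5 ∨ a = 7 := by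
      simp only [G8.A2, Bool.or_eq_true, beq_iff_eq] at hAa
      omega
    obtain rfl | rfl | rfl := this
    · exact ⟨1, by omega, by decide, c4⟩
    · exact ⟨1, by omega, by decide, c5.subset⟩
    · exact ⟨6, by omega, by decide, c7⟩
  · have e := Finset.card_union_of_disjoint d2
    have e2 : C 3 ∪ C 7 ⊆ un 8 C G8.A2 := by
      intro c hc
      rcases Finset.mem_union.1 hc with hc | hc
      · exact mem_un.2 ⟨5, by omega, by decide, by rw [c5]; exact c3 hc⟩
      · exact mem_un.2 ⟨7, by omega, by decide, hc⟩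
    have e3 := Finset.card_le_card e2
    omega

end Pool.Agent.Helper26.SQ2
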