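import Pool.Agent.Helper18.SQ.T6b

/-!
Tools for the recursion of the lower bound: widths of unions of blocks, plays whose large outcome
is impossible in a safe position, the top structure read off from a description by blocks.
-/

set_option autoImplicit false

namespace Pool.Agent.Helper26.SQ2

open Pool.Agent.Helper3.DW Pool.Agent.Helper26.SQ Pool.Agent.Helper18.SQ

section Width

variable {P : Ps} {q : ℕ} {F C : ℕ → Finset ℕ} {R S : ℕ → ℕ → Bool}

/-- Two unions of blocks; the blocks which are only in the first one are below the blocks which are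
only in the second one. -/
theorem wd3 (h : Sys P q F C R S) {A B G : ℕ → Bool} {k : ℕ}
    (hA : Wd P (un q F A) k) (hB : Wd P (un q F B) k)
    (hR : ∀ a < q, ∀ b < q, (!(A a && !B a && (B b && !A b)) || R a b) = true)
    (hG : ∀ a < q, (!G a || A a || B a) = true) : Wd P (un q F G) k := by
  intro s hs ha
  by_cases h1 : ∀ x ∈ s, x ∈ un q F A
  · exact hA s h1 ha
  · push Not at h1
    obtain ⟨x, hx, hxA⟩ := h1
    obtain ⟨b, hb, hGb, hxb⟩ := mem_un.1 (hs hx)
    have e1 : A b = false := by
      by_contra hc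
      rw [Bool.not_eq_false] at hc
      exact hxA (mem_un.2 ⟨b, hb, hc, hxb⟩)
    have e2 : B b = true := by
      have := hG b hb
      rw [hGb, e1] at this
      simpa using this
    refine hB s (fun y hy => ?_) ha
    obtain ⟨a, haq, hGa, hya⟩ := mem_un.1 (hs hy)
    by_contra hc
    have e3 : B a = false := by
      by_contra hc2
      rw [Bool.not_eq_false] at hc2
      exact hc (mem_un.2 ⟨a, haq, hc2, hya⟩)
    have e4 : A a = true := by
      have := hG a haq
      rw [hGa, e3] at this
      simpa using this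
    have e5 := hR a haq b hb
    rw [e1, e2, e3, e4] at e5
    exact ha y hy x hx (h.lt a haq b hb (by simpa using e5) y hya x hxb)

theorem wdP {A B G : ℕ → Bool} {k l n : ℕ}
    (hA : Wd P (un q F A) k) (hB : Wd P (un q F B) l)
    (hG : ∀ a < q, (!G a || A a || B a) = true) (hn : k + l ≤ n) : Wd P (un q F G) n := by
  refine (hA.add hB).mono ?_ hn
  intro x hx
  obtain ⟨a, ha, hGa, hxa⟩ := mem_un.1 hx
  have := hG a ha
  rw [hGa] at this
  rw [Finset.mem_union]
  rcases (by simpa using this : A a = true ∨ B a = true) with h1 | h1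
  · exact Or.inl (mem_un.2 ⟨a, ha, h1, hxa⟩)
  · exact Or.inr (mem_un.2 ⟨a, ha, h1, hxa⟩)

/-- Old blocks. -/
theorem wdOld {N : Ps} {D U : Finset ℕ} {q2 : ℕ} {F2 : ℕ → Finset ℕ}
    (h : Sys P q F C R S) {A : ℕ → Bool} {k : ℕ} (hW : Wd P (un q F A) k)
    (hA : ∀ a < q + q2, (!A a || decide (a < q)) = true) :
    Wd (glue P D U N) (un (q + q2) (catF q P.length F F2) A) k := by
  refine (hW.old (suffix_glue P D U N) h.un_len).mono ?_ le_rfl
  intro x hx
  obtain ⟨a, ha, hAa, hxa⟩ := mem_un.1 hx
  have h1 := hA a ha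
  rw [hAa] at h1
  have h2 : a < q := by simpa using h1
  simp only [catF, if_pos h2] at hxa
  exact mem_un.2 ⟨a, h2, hAa, hxa⟩

/-- New blocks. -/
theorem wdNew {N : Ps} {D U : Finset ℕ} {q2 k : ℕ} {F2 C2 : ℕ → Finset ℕ} {R2 S2 : ℕ → ℕ → Bool}
    (hs : Sys N q2 F2 C2 R2 S2) (hN : Good k N) {A : ℕ → Bool}
    (hA : ∀ a < q + q2, (!A a || !decide (a < q)) = true) :
    Wd (glue P D U N) (un (q + q2) (catF q P.length F F2) A) k := by
  refine (Wd.new (wd_range hN)).mono ?_ le_rfl
  intro x hx
  obtain ⟨a, ha, hAa, hxa⟩ := mem_un.1 hx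
  have h1 := hA a ha
  rw [hAa] at h1
  have h2 : ¬ a < q := by simpa using h1
  simp only [catF, if_neg h2] at hxa
  obtain ⟨i, hi, rfl⟩ := mem_sh.1 hxa
  exact add_mem_sh.2 (Finset.mem_range.2 (hs.len (by omega) i hi))

end Width

/-- All the blocks are narrow. -/
theorem wdAll {P N : Ps} {q q2 k : ℕ} {F C F2 : ℕ → Finset ℕ} {R S : ℕ → ℕ → Bool}
    {D U : Finset ℕ} (h : Sys P q F C R S) (h1 : ∀ a < q, Wd P (F a) k)
    (h2 : ∀ a < q2, Wd N (F2 a) k) :
    ∀ a < q + q2, Wd (glue P D U N) (catF q P.length F F2 a) k := by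
  intro a ha
  by_cases ha' : a < q
  · simp only [catF, if_pos ha']
    exact (h1 a ha').old (suffix_glue _ _ _ _) (h.len ha')
  · simp only [catF, if_neg ha']
    exact Wd.new (h2 _ (by omega))


/-- A first play in a smaller width. -/
theorem first {w k m : ℕ} {Q Q2 : Ps → Prop} (h : Safe w m Q []) (hk : k ≤ w)
    (hF : Force k m Q2 []) : ∃ P, Q2 P ∧ Inv k m P ∧ Safe w m Q P := by
  by_contra hn
  push Not at hn
  refine h.nf (((hF.inv (inv_nil k m)).mono hk).bind fun P hP => ?_)
  by_contra h4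
  exact hn P hP.1 hP.2.1 ⟨inv_mono hP.2.1 hk, h4⟩

/-- A play in a hole; its outcome with many colours is impossible. -/
theorem ins_alt {w k kk m M : ℕ} {Q Q2 : Ps → Prop} {P : Ps} {q : ℕ} {F C : ℕ → Finset ℕ}
    {R S : ℕ → ℕ → Bool} (hP : Safe w m Q P)
    (hQ : ∀ P, Blk k 0 M P (Finset.range P.length) → Q P)
    (h : Sys P q F C R S) (D U : ℕ → Bool)
    (c1 : ∀ a < q, ∀ b < q, D b = true → D a = false → S a b = true)
    (c2 : ∀ a < q, ∀ b < q, U a = true → U b = false → S a b = true)
    (c3 : ∀ a < q, ∀ b < q, D a = true → U b = true → R a b = true) {i : ℕ}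
    (hN : Wd P (un q F (fun a => !D a && !U a)) i) (hi : i + kk ≤ w)
    (hU : Wd P (un q F U) k)
    (hF : Force kk m (fun N => Q2 N ∨ Blk k 0 M N (Finset.range N.length)) []) :
    ∃ N, Q2 N ∧ Inv kk m N ∧ Safe w m Q (glue P (un q F D) (un q F U) N) := by
  have hg := hP.inv.good
  have hh := h.hole D U c1 c2 c3 hN hi hg.lt_len
  obtain ⟨N, hN | hN, hNI, hs⟩ := hP.ins hh hF
  · exact ⟨N, hN, hNI, hs⟩
  · exfalso
    refine hs.not (hQ _ ?_)
    obtain ⟨Cn, g1, g2, g3, g4, g5⟩ := hN
    refine ⟨sh P.length Cn ∪ un q F U, ?_, ?_, ?_, Nat.zero_le _, ?_⟩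
    · intro x hx
      rw [Finset.mem_range, glue_length]
      rcases Finset.mem_union.1 hx with hx | hx
      · obtain ⟨i, hi, rfl⟩ := mem_sh.1 hx
        have := Finset.mem_range.1 (g1 hi)
        omega
      · have := hh.ulen x hx
        omega
    · intro x hx y _ hxy
      rw [Finset.mem_union] at hx ⊢
      rcases (plt_glue _ _ _ _ _ _).1 hxy with h1 | ⟨i, i', h1, h2, h3⟩ | ⟨h1, i, h2, h3⟩ |
        ⟨h1, i, h2, h3⟩
      · rcases hx with hx | hx
        · have e1 := le_of_mem_sh hx
          have e2 := (hg.lt_len x y h1).1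
          omega
        · exact Or.inr (hh.up x y h1 hx)
      · rcases hx with hx | hx
        · obtain ⟨i2, hi2, hx2⟩ := mem_sh.1 hx
          have e1 : i2 = i := by omega
          subst e1
          left
          rw [h2]
          exact add_mem_sh.2 (g2 _ hi2 _ (Finset.mem_range.2 (hNI.good.lt_len _ _ h3).2) h3)
        · have := hh.ulen x hx
          omega
      · exfalso
        rcases hx with hx | hx
        · have e1 := le_of_mem_sh hx
          have e2 := hh.dlen x h1
          omega
        · exact hg.irr x (hh.lt x h1 x hx)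
      · exact Or.inr h1
    · refine Wd.lin (Wd.new g3) (hU.old (suffix_glue _ _ _ _) hh.ulen) ?_
      intro y hy z hz
      obtain ⟨i, hi, rfl⟩ := mem_sh.1 hy
      exact (plt_glue _ _ _ _ _ _).2 (Or.inr (Or.inr (Or.inr ⟨hz, i,
        Finset.mem_range.1 (g1 hi), rfl⟩)))
    · refine g5.trans ?_
      rw [← colU_sh_glue P (un q F D) (un q F U) N Cn]
      exact Finset.card_le_card (colU_mono Finset.subset_union_left)

/-- Blocks of all the colours. -/
theorem blk_of_card {k m M : ℕ} {N : Ps} (hN : Inv k m N) (h : M ≤ (cols N).card) :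
    Blk k 0 M N (Finset.range N.length) :=
  ⟨Finset.range N.length, subset_rfl, fun _ _ _ hz _ => hz, wd_range hN.good, Nat.zero_le _, h⟩

theorem Blk.wide {j k M : ℕ} {P : Ps} {N : Finset ℕ} (h : Blk j 0 M P N) (hjk : j ≤ k) :
    Blk k 0 M P N := by
  obtain ⟨C, g1, g2, g3, g4, g5⟩ := h
  exact ⟨C, g1, g2, g3.mono subset_rfl hjk, g4, g5⟩

/-- The top structure, read off from the blocks. -/
theorem topq_of {P : Ps} {q k g : ℕ} {F C : ℕ → Finset ℕ} {R S : ℕ → ℕ → Bool}
    (h : Sys P q F C R S) (A : ℕ → Bool)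
    (hup : ∀ a < q, ∀ b < q, (!(A a && !A b) || S a b) = true)
    (W1 : Wd P (un q F A) k) (W0 : Wd P (un q F (fun a => !A a)) k)
    (hc : ∀ a < q, A a = true → ∃ b < q, A b = false ∧ C a ⊆ C b)
    (hg : g ≤ (un q C A).card) : TopQ k g P := by
  have h1 := h.coarse (q' := 2) (R' := fun _ _ => false) (S' := fun a b => a == 1 && b == 0)
    (fun a => if A a = true then 1 else 0) (by intro a _; split_ifs <;> omega)
    (by intro a _ b _ h; simp at h) (by
      intro a ha b hb h2
      have h3 := hup a ha b hb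
      by_cases e1 : A a = true
      · by_cases e2 : A b = true
        · simp [e1, e2] at h2
        · rw [Bool.not_eq_true] at e2
          rw [e1, e2] at h3
          simpa using h3
      · simp [e1] at h2)
  have e1 : ∀ G : ℕ → Finset ℕ,
      un q G (fun a => (if A a = true then 1 else 0) == 1) = un q G A := by
    intro G
    ext x
    simp only [mem_un]
    refine exists_congr fun a => and_congr_right fun _ => and_congr_left fun _ => ?_
    by_cases e : A a = true <;> simp [e]
  have e0 : ∀ G : ℕ → Finset ℕ,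
      un q G (fun a => (if A a = true then 1 else 0) == 0) = un q G (fun a => !A a) := by
    intro G
    ext x
    simp only [mem_un]
    refine exists_congr fun a => and_congr_right fun _ => and_congr_left fun _ => ?_
    by_cases e : A a = true <;> simp [e]
  refine ⟨_, _, h1, ?_, ?_, ?_, ?_⟩
  · simp only [e0]
    exact W0
  · simp only [e1]
    exact W1
  · simp only [e0, e1]
    intro c hcc
    obtain ⟨a, ha, hA, hca⟩ := mem_un.1 hcc
    obtain ⟨b, hb, hB, hab⟩ := hc a ha hA
    exact mem_un.2 ⟨b, hb, by simp [hB], hab hca⟩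
  · simp only [e1]
    exact hg

end Pool.Agent.Helper26.SQ2
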