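import Pool.Agent.Helper26.SQ2.RepH

/-!
The top structure with an upper part of width `a` and a lower part of width `b`.
-/

set_option autoImplicit false

namespace Pool.Agent.Helper26.SQ2

open Pool.Agent.Helper3.DW Pool.Agent.Helper26.SQ
open Pool.Agent.Helper18.SQ (TopR VG fg_of_vg)

/-- The position is the union of a downset of width at most `b` and an upset of width at most `a`;
all the colours of the upset occur in the downset; the upset has `g` colours. -/
def TopA (a b g : ℕ) (P : Ps) : Prop :=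
  ∃ F C : ℕ → Finset ℕ, Sys P 2 F C (fun _ _ => false) (fun a b => a == 1 && b == 0) ∧
    Wd P (F 0) b ∧ Wd P (F 1) a ∧ C 1 ⊆ C 0 ∧ g ≤ (C 1).card

/-- One forces the top structure, or an upset of width at most `a` with `M` colours. -/
def TG (a b m g : ℕ) : Prop :=
  ∀ M : ℕ, Force (a + b) m
    (fun P => TopA a b g P ∨ Blk a 0 M P (Finset.range P.length)) []

/-- The top structure, read off from the blocks. -/
theorem topa_of {P : Ps} {q a b g : ℕ} {F C : ℕ → Finset ℕ} {R S : ℕ → ℕ → Bool}
    (h : Sys P q F C R S) (A : ℕ → Bool)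
    (hup : ∀ a < q, ∀ b < q, (!(A a && !A b) || S a b) = true)
    (W1 : Wd P (un q F A) a) (W0 : Wd P (un q F (fun a => !A a)) b)
    (hc : ∀ a < q, A a = true → ∃ b < q, A b = false ∧ C a ⊆ C b)
    (hg : g ≤ (un q C A).card) : TopA a b g P := by
  have h1 := h.coarse (q' := 2) (R' := fun _ _ => false) (S' := fun a b => a == 1 && b == 0)
    (fun a => if A a = true then 1 else 0) (by intro a _; split_ifs <;> omega)
    (by intro a _ b _ h; simp at h) (by
      intro a ha b hb h2
      have h3 := hup a ha b hb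
      by_cases e1 : A a = true
      · by_cases e2 : A b = true
        · simp [e1, e2] at h2
        · rw [Bool.not_eq_true] at e2
          rw [e1, e2] at h3
          simpa using h3
      · simp [e1] at h2)
  have e1 : ∀ G : ℕ → Finset ℕ,
      un q G (fun a => (if A a = true then 1 else 0) == 1) = un q G A := by
    intro G
    ext x
    simp only [mem_un]
    refine exists_congr fun a => and_congr_right fun _ => and_congr_left fun _ => ?_
    by_cases e : A a = true <;> simp [e]
  have e0 : ∀ G : ℕ → Finset ℕ,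
      un q G (fun a => (if A a = true then 1 else 0) == 0) = un q G (fun a => !A a) := by
    intro G
    ext x
    simp only [mem_un]
    refine exists_congr fun a => and_congr_right fun _ => and_congr_left fun _ => ?_
    by_cases e : A a = true <;> simp [e]
  refine ⟨_, _, h1, ?_, ?_, ?_, ?_⟩
  · simp only [e0]
    exact W0
  · simp only [e1]
    exact W1
  · simp only [e0, e1]
    intro c hcc
    obtain ⟨a, ha, hA, hca⟩ := mem_un.1 hcc
    obtain ⟨b, hb, hB, hab⟩ := hc a ha hA
    exact mem_un.2 ⟨b, hb, by simp [hB], hab hca⟩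
  · simp only [e1]
    exact hg

/-- A part of a set of blocks. -/
theorem wdSub {P : Ps} {q k : ℕ} {F : ℕ → Finset ℕ} {A B : ℕ → Bool}
    (h : Wd P (un q F A) k) (hB : ∀ a < q, (!B a || A a) = true) : Wd P (un q F B) k := by
  refine h.mono ?_ le_rfl
  intro x hx
  obtain ⟨a, ha, hAa, hxa⟩ := mem_un.1 hx
  have := hB a ha
  rw [hAa] at this
  exact mem_un.2 ⟨a, ha, by simpa using this, hxa⟩

/-- Six blocks: `0 < 1 < 2, 3, 4 < 5` and `2 < 4`. -/
def RH3 (a b : ℕ) : Bool := decide (a < b) && !(a == 2 && b == 3) && !(a == 3 && b == 4)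
def SH3 (a b : ℕ) : Bool := decide (b < a)

theorem splitH3 {N : Ps} {j a : ℕ} (h : RepG (ColB j a) 3 N) :
    ∃ F C : ℕ → Finset ℕ, Sys N 6 F C RH3 SH3 ∧ Wd N (F 3) j ∧
      a ≤ (C 3).card ∧ C 3 ⊆ C 1 ∧ C 4 ⊆ C 1 ∧ C 5 = C 1 := by
  obtain ⟨F, C, T, hS, hC⟩ := h
  obtain ⟨hC2, L, K, H, h1, h2, h3, h4, h5, h6, h7⟩ := hC 2 (by norm_num) (by norm_num)
  obtain ⟨hC1, -⟩ := hC 1 (by norm_num) (by norm_num)
  obtain ⟨hC3, -⟩ := hC 3 (by norm_num) (by norm_num)
  have iL : ∀ y ∈ L, y ∈ F 2 := fun y hy => (h1 y).2 (Or.inl hy)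
  have iK : ∀ y ∈ K, y ∈ F 2 := fun y hy => (h1 y).2 (Or.inr (Or.inl hy))
  have iH : ∀ y ∈ H, y ∈ F 2 := fun y hy => (h1 y).2 (Or.inr (Or.inr hy))
  obtain ⟨F', hF'⟩ : ∃ F' : ℕ → Finset ℕ,
      F' = fun a => if a = 2 then L \ H else if a = 3 then K else if a = 4 then H
        else if a = 5 then F 3 else F a := ⟨_, rfl⟩
  have f0 : F' 0 = F 0 := by rw [hF']; simp
  have f1 : F' 1 = F 1 := by rw [hF']; simp
  have f2 : F' 2 = L \ H := by rw [hF']; simp
  have f3 : F' 3 = K := by rw [hF']; simp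
  have f4 : F' 4 = H := by rw [hF']; simp
  have f5 : F' 5 = F 3 := by rw [hF']; simp
  have key : ∀ a < 6, ∀ y ∈ F' a, y ∈ F (if a ≤ 2 then a else if a ≤ 4 then 2 else 3) := by
    intro a ha y hy
    obtain rfl | rfl | rfl | rfl | rfl | rfl :
      a = 0 ∨ a = 1 ∨ a = 2 ∨ a = 3 ∨ a = 4 ∨ a = 5 := by omega
    · rw [f0] at hy
      simpa using hy
    · rw [f1] at hy
      simpa using hy
    · rw [f2] at hy
      simpa using iL y (Finset.mem_sdiff.1 hy).1
    · rw [f3] at hy
      simpa using iK y hy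
    · rw [f4] at hy
      simpa using iH y hy
    · rw [f5] at hy
      simpa using hy
  have e1 : colU N (F 1) = T := by rw [hS.col 1 (by norm_num), hC1]
  have e3 : colU N (F 3) = T := by rw [hS.col 3 (by norm_num), hC3]
  have e2 : ∀ Y : Finset ℕ, (∀ y ∈ Y, y ∈ F 2) → colU N Y ⊆ T := by
    intro Y hY
    rw [← hC2, ← hS.col 2 (by norm_num)]
    exact colU_mono hY
  refine ⟨F', fun a => colU N (F' a), ⟨?_, ?_, ?_, ?_, ?_⟩, ?_, ?_, ?_, ?_, ?_⟩
  · intro y
    constructor
    · intro hy
      obtain ⟨a, ha, hya⟩ := (hS.cov y).1 hy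
      obtain rfl | rfl | rfl | rfl : a = 0 ∨ a = 1 ∨ a = 2 ∨ a = 3 := by omega
      · exact ⟨0, by norm_num, by rwa [f0]⟩
      · exact ⟨1, by norm_num, by rwa [f1]⟩
      · by_cases hH : y ∈ H
        · exact ⟨4, by norm_num, by rwa [f4]⟩
        · rcases (h1 y).1 hya with h8 | h8 | h8
          · exact ⟨2, by norm_num, by rw [f2]; exact Finset.mem_sdiff.2 ⟨h8, hH⟩⟩
          · exact ⟨3, by norm_num, by rwa [f3]⟩
          · exact absurd h8 hH
      · exact ⟨5, by norm_num, by rwa [f5]⟩
    · rintro ⟨a, ha, hya⟩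
      exact hS.len (by split_ifs <;> omega) y (key a ha y hya)
  · intro a ha b hb y hya hyb
    have e := hS.dj _ (by split_ifs <;> omega) _ (by split_ifs <;> omega) y (key a ha y hya)
      (key b hb y hyb)
    have e' : a = b ∨ (2 ≤ a ∧ 2 ≤ b ∧ a ≤ 4 ∧ b ≤ 4) := by
      split_ifs at e <;> omega
    rcases e' with e' | ⟨ea, eb, ea', eb'⟩
    · exact e'
    · have xLH : y ∈ L \ H → y ∉ H := fun h => (Finset.mem_sdiff.1 h).2
      have xL : y ∈ L \ H → y ∈ L := fun h => (Finset.mem_sdiff.1 h).1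
      have xK := h2 y
      obtain rfl | rfl | rfl : a = 2 ∨ a = 3 ∨ a = 4 := by omega
      · rw [f2] at hya
        obtain rfl | rfl | rfl : b = 2 ∨ b = 3 ∨ b = 4 := by omega
        · rfl
        · rw [f3] at hyb
          exact absurd (xL hya) (xK hyb).1
        · rw [f4] at hyb
          exact absurd hyb (xLH hya)
      · rw [f3] at hya
        obtain rfl | rfl | rfl : b = 2 ∨ b = 3 ∨ b = 4 := by omega
        · rw [f2] at hyb
          exact absurd (xL hyb) (xK hya).1
        · rfl
        · rw [f4] at hyb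
          exact absurd hyb (xK hya).2
      · rw [f4] at hya
        obtain rfl | rfl | rfl : b = 2 ∨ b = 3 ∨ b = 4 := by omega
        · rw [f2] at hyb
          exact absurd hya (xLH hyb)
        · rw [f3] at hyb
          exact absurd hya (xK hyb).2
        · rfl
  · intro a _
    rfl
  · intro a ha b hb hab y hy z hz
    simp only [RH3, Bool.and_eq_true, decide_eq_true_eq, Bool.not_eq_true',
      Bool.and_eq_false_iff, beq_eq_false_iff_ne] at hab
    by_cases e : a = 2 ∧ b = 4
    · obtain ⟨rfl, rfl⟩ := e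
      rw [f2] at hy
      rw [f4] at hz
      exact h5 y (Finset.mem_sdiff.1 hy).1 z hz
    · refine hS.lt _ (by split_ifs <;> omega) _ (by split_ifs <;> omega) ?_ y (key a ha y hy) z
        (key b hb z hz)
      simp only [decide_eq_true_eq]
      split_ifs <;> omega
  · intro a ha b hb hab y hy z hz
    simp only [SH3, decide_eq_true_eq] at hab
    by_cases e : 2 ≤ b ∧ a ≤ 4
    · have yF := key a ha y hy
      have zF := key b hb z hz
      obtain rfl | rfl : a = 3 ∨ a = 4 := by omega
      · obtain rfl : b = 2 := by omega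
        rw [f3] at hy
        rw [f2] at hz
        exact fun hlt => (h2 y hy).1 (h3 z (Finset.mem_sdiff.1 hz).1 y (iK y hy) hlt)
      · rw [f4] at hy
        obtain rfl | rfl : b = 2 ∨ b = 3 := by omega
        · rw [f2] at hz
          exact fun hlt => (Finset.mem_sdiff.1 hz).2
            (h4 y hy z (iL z (Finset.mem_sdiff.1 hz).1) hlt)
        · rw [f3] at hz
          exact fun hlt => (h2 z hz).2 (h4 y hy z (iK z hz) hlt)
    · refine hS.nb _ (by split_ifs <;> omega) _ (by split_ifs <;> omega) ?_ y (key a ha y hy) z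
        (key b hb z hz)
      simp only [decide_eq_true_eq]
      split_ifs <;> omega
  · rw [f3]
    exact h6
  · simp only [f3]
    exact h7
  · simp only [f3, f1, e1]
    exact e2 K iK
  · simp only [f4, f1, e1]
    exact e2 H iH
  · simp only [f5, f1, e1, e3]

namespace G8

def Tt (a b : ℕ) : Bool := a == 1 && b == 0
def D1 (a : ℕ) : Bool := a == 0 || a == 1 || a == 2
def U1 (a : ℕ) : Bool := a == 4 || a == 5
/-- After the top structure: `6`, `7`. -/
def R1 : ℕ → ℕ → Bool := catR 6 RH3 ff D1 U1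
def S1 : ℕ → ℕ → Bool := catS 6 SH3 Tt D1 U1
def A1 (a : ℕ) : Bool := a == 3 || a == 4 || a == 5 || a == 7
def A2 (a : ℕ) : Bool := a == 4 || a == 5 || a == 7

end G8

end Pool.Agent.Helper26.SQ2
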