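import Pool.Agent.Helper26.SQ2.Region

/-!
The play which forces `2 |N| + 3 |C| ≥ 11 v + 4 g` in width `2 j`.
-/

set_option autoImplicit false

namespace Pool.Agent.Helper26.SQ2

open Pool.Agent.Helper3.DW Pool.Agent.Helper26.SQ
open Pool.Agent.Helper18.SQ (TopR VG fg_of_vg region_top St top_region oo Rl Sl sub_un)

theorem trade0 {j m v g : ℕ} (h : VG j m v g) :
    Force (2 * j) m
      (fun P => BlkD j (11 * v + 4 * g) (v + g) 0 P (Finset.range P.length)) [] := by
  by_contra hnf
  obtain ⟨hFG, hTop⟩ := h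
  have hR2 := region_top j m v g hFG hTop
  obtain ⟨a, ha⟩ : ∃ a, a = 11 * v + 4 * g := ⟨_, rfl⟩
  rw [← ha] at hnf
  set Q : Ps → Prop := fun P => BlkD j a (v + g) 0 P (Finset.range P.length) with hQ
  have hB : Force j m (fun P => Blk j 0 v P (Finset.range P.length)) [] :=
    (Force.inv hFG (inv_nil j m)).imp fun P hP => blk_of_card hP.2.1 hP.1
  have hbound : ∀ P, Safe (2 * j) m Q P → 2 * (cols P).card < a := by
    intro P hP
    by_contra hc
    obtain ⟨P', e1, e2, e3⟩ := top_region hP hR2
    have e4 := Finset.card_le_card (cols_suffix e1)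
    exact e2.not (blkD_up e3 (by omega) le_rfl (Nat.zero_le _))
  have hreg : ∀ P y, Safe (2 * j) m Q P → Blk j 0 y P (Finset.range P.length) → 2 * y < a := by
    intro P y hP hy
    obtain ⟨C, -, -, -, -, g5⟩ := hy
    have h2 := hbound P hP
    have h3 := Finset.card_le_card (colU_subset_cols (P := P) C)
    omega
  -- the maximal number of colours of a region
  have hex : ∃ x : ℕ, (∀ P, Safe (2 * j) m Q P → ∃ P', P <:+ P' ∧ Safe (2 * j) m Q P' ∧
      Blk j 0 x P' (Finset.range P'.length)) ∧
      ¬ (∀ P, Safe (2 * j) m Q P → ∃ P', P <:+ P' ∧ Safe (2 * j) m Q P' ∧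
      Blk j 0 (x + 1) P' (Finset.range P'.length)) := by
    by_contra hcon
    push Not at hcon
    have hall : ∀ x : ℕ, ∀ P, Safe (2 * j) m Q P → ∃ P', P <:+ P' ∧ Safe (2 * j) m Q P' ∧
        Blk j 0 x P' (Finset.range P'.length) := by
      intro x
      induction x with
      | zero =>
        intro P hP
        exact ⟨P, List.suffix_rfl, hP, ∅, by simp, by simp, wd_empty _ _, Nat.zero_le _,
          Nat.zero_le _⟩
      | succ x ih => exact hcon x ih
    obtain ⟨P', _, h1, h2⟩ := hall a [] ⟨inv_nil _ _, hnf⟩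
    have h3 := hreg P' a h1 h2
    omega
  obtain ⟨x, hx, hx1⟩ := hex
  push Not at hx1
  obtain ⟨P₀, hP₀, hmax⟩ := hx1
  have hyx : v + g ≤ x := by
    by_contra hlt
    obtain ⟨P', e1, e2, C, g1, g2, g3, _, g5⟩ := top_region hP₀ hR2
    exact hmax P' e1 e2 ⟨C, g1, g2, g3, Nat.zero_le _, by omega⟩
  have hV : ∀ P, Safe (2 * j) m Q P → 2 * (cols P).card + 3 * x < a := by
    intro P hP
    by_contra hc
    obtain ⟨P', e1, e2, e3⟩ := hx P hP
    have e4 := Finset.card_le_card (cols_suffix e1)
    exact e2.not (blkD_up e3 (by omega) hyx (Nat.zero_le _))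
  obtain ⟨P1, hsuf1, hsafe1, hP1⟩ := hx P₀ hP₀
  obtain ⟨C1, h1, hX⟩ := st_two hsafe1 hsuf1 hP1
  -- the repeated blocks: `2`, `3`, `4`
  obtain ⟨P2, N2, hN, -, hc, -, h2⟩ := h1.ins (st_rep j m j 0 v hB 2 a) Helper18.SQ.tt
    Helper18.SQ.ff (by decide) (by decide) (by decide) (by decide) (by decide)
  rcases hN with ⟨F, C, T, hS, hT⟩ | hN
  swap
  · have g1 := hbound P2 (h2 1 _ _ _ _ (sys_one N2)).safe
    have g2 := Finset.card_le_card hc
    omega
  have hTv : v ≤ T.card := by
    obtain ⟨C', g1, g2, g3, g4, g5⟩ := (hT 1 (by decide) (by decide)).2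
    have g7 := Finset.card_le_card (colU_mono (P := N2) g1)
    rw [hS.col 1 (by decide), (hT 1 (by decide) (by decide)).1] at g7
    exact g5.trans g7
  have E1 := (hT 1 (by decide) (by decide)).1
  have E2 := (hT 2 (by decide) (by decide)).1
  have h3 := h2 3 F C Rl Sl hS
  -- the top structure: `5`, `6`
  obtain ⟨P3, N3, hN3, hN3I, hsafe3, -, hblk3, h4⟩ := h3.insTop (hTop a)
  rcases hN3 with hN3 | hN3
  swap
  · have := hreg P3 a hsafe3 (hblk3 _ _ hN3)
    omega
  obtain ⟨Fs, Cs, hSs, hWs0, hWs1, hCs, hgs⟩ := hN3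
  have h5 := h4 2 Fs Cs _ _ hSs (by
    intro a ha
    obtain rfl | rfl : a = 0 ∨ a = 1 := by omega
    · exact hWs0
    · exact hWs1)
  -- `s`: block `7`
  obtain ⟨P4, s, hs, -, h6⟩ := h5.ins1 hFG (fun a => decide (a < 5)) (fun a => a == 6)
    (by decide) (by decide) (by decide) (by decide) (by decide)
  -- (A)
  obtain ⟨PA, n, hn, -, hA⟩ := h6.ins1 hFG (fun a => a == 0) (fun a => a == 6 || a == 7)
    (by decide) (by decide) (by decide) (by decide) (by decide)
  have iA := top3 hA hmax (fun a => a == 6 || a == 7 || a == 8) (by decide) (by decide)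
    (by decide) 6 7 8 5 (by decide) rfl rfl rfl rfl hCs
  have dA := hA.disj 8 1 (by decide) (by decide) (by decide) (by decide) (by decide)
  -- `r`: block `8`
  obtain ⟨P5, r, hr, -, h7⟩ := h6.ins1 hFG (fun a => decide (a < 3))
    (fun a => a == 4 || a == 5 || a == 6 || a == 7)
    (by decide) (by decide) (by decide) (by decide) (by decide)
  have drT := h7.disj 8 3 (by decide) (by decide) (by decide) (by decide) (by decide)
  -- (B1)
  obtain ⟨PB, n2, hn2, -, hB1⟩ := h7.ins1 hFG (fun a => decide (a < 4))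
    (fun a => a == 6 || a == 7)
    (by decide) (by decide) (by decide) (by decide) (by decide)
  have iB1 := top3 hB1 hmax (fun a => a == 6 || a == 7 || a == 9) (by decide) (by decide)
    (by decide) 6 7 9 5 (by decide) rfl rfl rfl rfl hCs
  have dB1 := hB1.disj 9 8 (by decide) (by decide) (by decide) (by decide) (by decide)
  -- (B2)
  obtain ⟨PC, n3, hn3, -, hB2⟩ := h7.ins1 hFG (fun a => decide (a < 3) || a == 8)
    (fun a => a == 6 || a == 7)
    (by decide) (by decide) (by decide) (by decide) (by decide)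
  have iB2 := top3 hB2 hmax (fun a => a == 6 || a == 7 || a == 9) (by decide) (by decide)
    (by decide) 6 7 9 5 (by decide) rfl rfl rfl rfl hCs
  obtain ⟨PC2, w1, hw1, -, hB3⟩ := hB2.ins1 hFG (fun a => a == 0)
    (fun a => a == 3 || a == 4 || a == 5 || a == 6 || a == 7)
    (by decide) (by decide) (by decide) (by decide) (by decide)
  have V1 := hV PC2 hB3.safe
  have u1 := hB3.sub_cols 10 (by decide)
  have u2 := hB3.sub_cols 1 (by decide)
  have u3 := hB3.sub_cols 8 (by decide)
  have u4 := hB3.sub_cols 9 (by decide)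
  have u5 := hB3.disj 10 1 (by decide) (by decide) (by decide) (by decide) (by decide)
  have u6 := hB3.disj 10 8 (by decide) (by decide) (by decide) (by decide) (by decide)
  have u7 := hB3.disj 10 9 (by decide) (by decide) (by decide) (by decide) (by decide)
  -- `z`: block `9`
  obtain ⟨P6, z, hz, -, h8⟩ := h7.ins1 hFG (fun a => a == 0)
    (fun a => a == 4 || a == 5 || a == 6 || a == 7 || a == 8)
    (by decide) (by decide) (by decide) (by decide) (by decide)
  have dzT := h8.disj 9 3 (by decide) (by decide) (by decide) (by decide) (by decide)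
  have dzX := h8.disj 9 1 (by decide) (by decide) (by decide) (by decide) (by decide)
  obtain ⟨PD, w2, hw2, -, hB4⟩ := h8.ins1 hFG (fun a => decide (a < 4))
    (fun a => a == 5 || a == 6)
    (by decide) (by decide) (by decide) (by decide) (by decide)
  have V2 := hV PD hB4.safe
  have t1 := hB4.sub_cols 10 (by decide)
  have t2 := hB4.sub_cols 4 (by decide)
  have t3 := hB4.sub_cols 9 (by decide)
  have t4 := hB4.sub_cols 8 (by decide)
  have t5 := hB4.sub_cols 7 (by decide)
  have t6 := hB4.disj 10 4 (by decide) (by decide) (by decide) (by decide) (by decide)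
  have t7 := hB4.disj 10 9 (by decide) (by decide) (by decide) (by decide) (by decide)
  have t8 := hB4.disj 10 8 (by decide) (by decide) (by decide) (by decide) (by decide)
  have t9 := hB4.disj 10 7 (by decide) (by decide) (by decide) (by decide) (by decide)
  -- `n4`
  obtain ⟨PE, n4, hn4, -, hB5⟩ := h8.ins1 hFG (fun a => decide (a < 4))
    (fun a => a == 6 || a == 7)
    (by decide) (by decide) (by decide) (by decide) (by decide)
  have iB5 := top3 hB5 hmax (fun a => a == 6 || a == 7 || a == 10) (by decide) (by decide)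
    (by decide) 6 7 10 5 (by decide) rfl rfl rfl rfl hCs
  have s1 := hB5.disj 10 4 (by decide) (by decide) (by decide) (by decide) (by decide)
  have s2 := hB5.disj 10 8 (by decide) (by decide) (by decide) (by decide) (by decide)
  have s3 := hB5.disj 10 9 (by decide) (by decide) (by decide) (by decide) (by decide)
  -- the values of the sets of colours
  replace iA : (Cs 1).card + (n ∪ s).card < x + 1 := iA
  replace iB1 : (Cs 1).card + (n2 ∪ s).card < x + 1 := iB1
  replace iB2 : (Cs 1).card + (n3 ∪ s).card < x + 1 := iB2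
  replace iB5 : (Cs 1).card + (n4 ∪ s).card < x + 1 := iB5
  replace dA : Disjoint n (C1 1) := dA
  replace drT : Disjoint r (C 1) := drT
  replace dB1 : Disjoint n2 r := dB1
  replace dzT : Disjoint z (C 1) := dzT
  replace dzX : Disjoint z (C1 1) := dzX
  replace s1 : Disjoint n4 (C 2) := s1
  replace s2 : Disjoint n4 r := s2
  replace s3 : Disjoint n4 z := s3
  replace u1 : w1 ⊆ _ := u1
  replace u2 : C1 1 ⊆ _ := u2
  replace u3 : r ⊆ _ := u3
  replace u4 : n3 ⊆ _ := u4
  replace u5 : Disjoint w1 (C1 1) := u5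
  replace u6 : Disjoint w1 r := u6
  replace u7 : Disjoint w1 n3 := u7
  replace t1 : w2 ⊆ _ := t1
  replace t2 : C 2 ⊆ _ := t2
  replace t3 : z ⊆ _ := t3
  replace t4 : r ⊆ _ := t4
  replace t5 : s ⊆ _ := t5
  replace t6 : Disjoint w2 (C 2) := t6
  replace t7 : Disjoint w2 z := t7
  replace t8 : Disjoint w2 r := t8
  replace t9 : Disjoint w2 s := t9
  rw [E1] at drT dzT
  rw [E2] at s1 t2 t6
  have hcount := count_trade hn hn2 hn3 hn4 hr hs hz hTv dA dB1 s1 s2 s3 drT dzT dzX
  have U : w1.card + (C1 1 ∪ n3 ∪ r).card ≤ (cols PC2).card := by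
    have d : Disjoint w1 (C1 1 ∪ n3 ∪ r) := by
      rw [Finset.disjoint_union_right, Finset.disjoint_union_right]
      exact ⟨⟨u5, u7⟩, u6⟩
    rw [← Finset.card_union_of_disjoint d]
    exact Finset.card_le_card (Finset.union_subset u1 (Finset.union_subset
      (Finset.union_subset u2 u4) u3))
  have W : w2.card + (T ∪ z ∪ r ∪ s).card ≤ (cols PD).card := by
    have d : Disjoint w2 (T ∪ z ∪ r ∪ s) := by
      rw [Finset.disjoint_union_right, Finset.disjoint_union_right, Finset.disjoint_union_right]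
      exact ⟨⟨⟨t6, t7⟩, t8⟩, t9⟩
    rw [← Finset.card_union_of_disjoint d]
    exact Finset.card_le_card (Finset.union_subset t1 (Finset.union_subset
      (Finset.union_subset (Finset.union_subset t2 t3) t4) t5))
  omega

/-- The same with many colours. -/
theorem trade {j m v g v' : ℕ} (h : VG j m v g) (hv' : FG (2 * j) m v') :
    Force (2 * j) m
      (fun P => BlkD j (11 * v + 4 * g) (v + g) v' P (Finset.range P.length)) [] := by
  refine (Force.inv hv' (inv_nil _ _)).bind fun P hP => ?_
  obtain ⟨hP1, hP2, -⟩ := hP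
  refine (Force.hole0 hP2 (hole_top hP2.good) (trade0 h)).imp ?_
  rintro P' ⟨hI, R, hR, hRI, rfl⟩
  have hc := blkD_cls j (11 * v + 4 * g) (v + g) 0
  have h1 := hc.new P R (Finset.range P.length) ∅ _ hR hP2.good.lt_len
    (fun d hd => Finset.mem_range.1 hd) (by simp)
  have h2 := hc.whole _ _ h1 (by
    intro y hy z hlt
    obtain ⟨i, hi, rfl⟩ := mem_sh.1 hy
    rcases (plt_glue _ _ _ _ _ _).1 hlt with h6 | ⟨a, b, h6, h7, h8⟩ | ⟨h6, _⟩ | ⟨h6, _⟩
    · have := (hP2.good.lt_len _ _ h6).1
      omega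
    · rw [h7]
      exact add_mem_sh.2 (Finset.mem_range.2 (hRI.good.lt_len _ _ h8).2)
    · have := Finset.mem_range.1 h6
      omega
    · simp at h6) (by
    intro y hy
    obtain ⟨i, hi, rfl⟩ := mem_sh.1 hy
    rw [glue_length]
    have := Finset.mem_range.1 hi
    omega)
  obtain ⟨C, g1, g2, g3, g4, g5, -⟩ := h2
  refine ⟨C, g1, g2, g3, g4, g5, ?_⟩
  have e : colU (glue P (Finset.range P.length) ∅ R)
      (Finset.range (glue P (Finset.range P.length) ∅ R).length) =
      cols (glue P (Finset.range P.length) ∅ R) := rfl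
  rw [e]
  exact hP1.trans (Finset.card_le_card (cols_suffix (suffix_glue _ _ _ _)))

end Pool.Agent.Helper26.SQ2
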