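import Pool.Agent.Helper26.SQ2.Wid
import Pool.Agent.Helper26.SQ2.NumM

/-!
Explicit lower bounds in small widths, and for all powers of two.
-/

set_option autoImplicit false

namespace Pool.Agent.Helper26.SQ2

open Pool.Agent.Helper3.DW Pool.Agent.Helper26.SQ
open Pool.Agent.Helper18.SQ (TopR VG vg_base fg_one fg_of_vg)

/-- A column of width `a` with `K` colours in the width `a + b`, rounded up. -/
theorem colC {a b m g v K n : ℕ} (s : ℕ → ℕ) (hv : FG a m v) (hT : TG a b m g)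
    (hs : ∀ i < n, ∃ c, i * a + c ≤ b ∧ TG c a m (s i)) (hn : 0 < n)
    (hK : n * K < (n - 1) * (g + v) + ∑ i ∈ Finset.range n, (s i + v) + n) :
    CF (a + b) m a K := by
  intro M
  by_contra hnf
  obtain ⟨Q, hQ⟩ : ∃ Q : Ps → Prop,
    Q = fun P => ColB a K P (Finset.range P.length) ∨ M ≤ (cols P).card := ⟨_, rfl⟩
  rw [← hQ] at hnf
  have key : ∀ k ≤ n, CSt (a + b) m a K Q (g + v) k (∑ i ∈ Finset.range k, (s i + v)) := by
    intro k
    induction k with
    | zero =>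
      intro _
      exact cst_zero ⟨inv_nil _ _, hnf⟩ hQ hv hT (by omega)
    | succ k ih =>
      intro hk
      rw [Finset.sum_range_succ]
      obtain ⟨c, hc, hTc⟩ := hs k (by omega)
      exact cst_succ hQ hv hTc (by omega) (ih (by omega))
  obtain ⟨P, F, C, hP, hS, w1, w2, hx, hc⟩ := key n le_rfl
  have h1 : (C 2 ∩ C 1).card ≤ (C 1).card := Finset.card_le_card Finset.inter_subset_right
  obtain ⟨n', rfl⟩ : ∃ n', n = n' + 1 := ⟨n - 1, by omega⟩
  have e1 : (n' + 1) * (C 1).card = n' * (C 1).card + (C 1).card := Nat.succ_mul _ _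
  have e2 : n' * (g + v) ≤ n' * (C 1).card := Nat.mul_le_mul_left _ hx
  rw [e1] at hc
  rw [Nat.add_sub_cancel] at hK
  omega

theorem tg_col_lo {a b m q g : ℕ} (hcol : CF 2 m 1 q) (hT : TG a b m g) (h1 : 2 ≤ a)
    (h2 : 2 ≤ b) : TG a (b + 1) m (q + g) := tg_lowM hcol hT h1 (by omega)

theorem tg_col_up {a b m q g : ℕ} (hcol : CF 2 m 1 q) (hT : TG a b m g) (h1 : 2 ≤ a)
    (h2 : 2 ≤ b) : TG (a + 1) b m (q + g) := tg_upM hcol hT (by omega) h2

/-- The column of width one in the width two. -/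
theorem cf_two : CF 2 1 1 3 := cf_of (col_force vgt_a.vg.1 vgt_a.vg.2)

theorem tg_two : TG 2 2 1 5 := tg_of_vg vgt_b.vg

theorem fg_four' : FG 4 1 20 := fg_of_vg vgt_b.vg

theorem fg_fivew : FG 5 1 28 := by
  have h : CF (1 + 4) 1 1 8 := by
    refine colC (a := 1) (b := 4) (n := 3) (g := 4) (v := 1) (fun i => 4 - i) fg_one ?_ ?_
      (by norm_num) ?_
    · exact vgt_a.lo 3
    · intro i hi
      refine ⟨4 - i, by omega, ?_⟩
      have h := vgt_a.up (3 - i)
      have e1 : 1 + (3 - i) * 1 = 4 - i := by omega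
      rw [e1] at h
      exact h
    · simp only [Finset.sum_range_succ, Finset.sum_range_zero]
      norm_num
  exact fg_col (r := 4) (by omega) h fg_four'

theorem fg_six : FG 6 1 41 := by
  have h : CF (2 + 4) 1 2 21 := by
    have h1 := colK vgt_b 2 2 (K := 21) (by omega) (by omega) (by
      simp only [Finset.sum_range_succ, Finset.sum_range_zero]
      norm_num)
    simpa using h1
  exact fg_col (r := 4) (by omega) h fg_four'

theorem tg23 : TG 2 3 1 8 := tg_col_lo cf_two tg_two (by omega) (by omega)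
theorem tg32 : TG 3 2 1 8 := tg_col_up cf_two tg_two (by omega) (by omega)
theorem tg24 : TG 2 4 1 11 := tg_col_lo cf_two tg23 (by omega) (by omega)
theorem tg42 : TG 4 2 1 11 := tg_col_up cf_two tg32 (by omega) (by omega)
theorem tg25 : TG 2 5 1 14 := tg_col_lo cf_two tg24 (by omega) (by omega)
theorem tg52 : TG 5 2 1 14 := tg_col_up cf_two tg42 (by omega) (by omega)

theorem fg_seven : FG 7 1 54 := by
  have h : CF (2 + 5) 1 2 26 := by
    refine colC (a := 2) (b := 5) (n := 2) (g := 14) (v := 5) (fun i => 14 - 6 * i) fg_five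
      tg25 ?_ (by norm_num) ?_
    · intro i hi
      refine ⟨5 - 2 * i, by omega, ?_⟩
      obtain rfl | rfl : i = 0 ∨ i = 1 := by omega
      · exact tg52
      · exact tg32
    · simp only [Finset.sum_range_succ, Finset.sum_range_zero]
      norm_num
  exact fg_col (r := 5) (by omega) h fg_fivew

/-- The numbers of the recursion for the widths `2, 4, 8, …`. -/
def vq : ℕ → ℕ × ℕ × ℕ
  | 0 => (5, 5, 6)
  | (i + 1) => (3 * (vq i).1 + (vq i).2.1, 2 * (vq i).1 + 2 * (vq i).2.1 + (vq i).2.2,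
      2 * (2 * (vq i).1 + (vq i).2.1))

theorem vq_all : ∀ i : ℕ, VGT (2 ^ (i + 1)) 1 (vq i).1 (vq i).2.1 (vq i).2.2
  | 0 => vgt_b
  | (i + 1) => by
    have h := vgt_one (vq_all i)
    have e : 2 ^ (i + 1 + 1) = 2 * 2 ^ (i + 1) := by ring
    rw [e]
    exact h

/-- The closed form. -/
theorem vq_closed : ∀ i : ℕ, 10 * ((vq i).1 : ℝ) = (21 + 9 * Real.sqrt 6) *
      (2 + Real.sqrt 6) ^ i + (21 - 9 * Real.sqrt 6) * (2 - Real.sqrt 6) ^ i + 8 ∧
    10 * ((vq i).2.1 : ℝ) = (33 + 12 * Real.sqrt 6) * (2 + Real.sqrt 6) ^ i +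
      (33 - 12 * Real.sqrt 6) * (2 - Real.sqrt 6) ^ i - 16 ∧
    10 * ((vq i).2.2 : ℝ) = (30 + 15 * Real.sqrt 6) * (2 + Real.sqrt 6) ^ i +
      (30 - 15 * Real.sqrt 6) * (2 - Real.sqrt 6) ^ i
  | 0 => by
    simp only [vq, pow_zero]
    refine ⟨?_, ?_, ?_⟩ <;> push_cast <;> ring
  | (i + 1) => by
    obtain ⟨h1, h2, h3⟩ := vq_closed i
    have hs : Real.sqrt 6 * Real.sqrt 6 = 6 := Real.mul_self_sqrt (by norm_num)
    obtain ⟨A, hA⟩ : ∃ A : ℝ, A = (2 + Real.sqrt 6) ^ i := ⟨_, rfl⟩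
    obtain ⟨B, hB⟩ : ∃ B : ℝ, B = (2 - Real.sqrt 6) ^ i := ⟨_, rfl⟩
    rw [pow_succ, pow_succ]
    rw [← hA, ← hB] at h1 h2 h3 ⊢
    simp only [vq]
    push_cast
    refine ⟨?_, ?_, ?_⟩
    · linear_combination 3 * h1 + h2 - 9 * (A + B) * hs
    · linear_combination 2 * h1 + 2 * h2 + h3 - 12 * (A + B) * hs
    · linear_combination 4 * h1 + 2 * h2 - 15 * (A + B) * hs

/-- The lower bounds for the powers of two, and in the widths `5`, `6`, `7`, `8`, `16`, `32`. -/
theorem explicit (k : ℕ) :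
    (∀ j : ℕ, Suffices (2 ^ (j + 1)) k → (21 + 9 * Real.sqrt 6) * (2 + Real.sqrt 6) ^ j +
      (21 - 9 * Real.sqrt 6) * (2 - Real.sqrt 6) ^ j + 8 ≤ 10 * (k : ℝ)) ∧
    (Suffices 5 k → 28 ≤ k) ∧ (Suffices 6 k → 41 ≤ k) ∧ (Suffices 7 k → 54 ≤ k) ∧
    (Suffices 8 k → 86 ≤ k) ∧ (Suffices 16 k → 380 ≤ k) ∧ (Suffices 32 k → 1688 ≤ k) := by
  refine ⟨fun j h => ?_, fun h => le_of_suffices fg_fivew h, fun h => le_of_suffices fg_six h,
    fun h => le_of_suffices fg_seven h, fun h => le_of_suffices (vq_all 2).vg.1 h,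
    fun h => le_of_suffices (vq_all 3).vg.1 h, fun h => le_of_suffices (vq_all 4).vg.1 h⟩
  have h1 : (vq j).1 ≤ k := le_of_suffices (vq_all j).vg.1 h
  have h2 : ((vq j).1 : ℝ) ≤ (k : ℝ) := by exact_mod_cast h1
  have h3 := (vq_closed j).1
  linarith

end Pool.Agent.Helper26.SQ2
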